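import Pool.Agent.helper78.MF.CoreE
import Pool.Agent.helper31.MF.EndX
import Pool.Agent.helper64.MF.J

/-! # MF_EndXB: the algebra side of Section 9 (`EndXBound`).  Author: helper78. -/

namespace Helper78MF

open Pool.Agent.MF Pool.Agent.MF.LemT
open Pool.Agent.helper64.MFJ2 (Str rg)

theorem rg_eq_nr {U : Type} [AddCommGroup U] (f : AddMonoid.End U) : rg f = nr f := by
  show (Set.range f).ncard = Nat.card (AddMonoidHom.range f)
  rw [← Nat.card_coe_set_eq]
  rfl

theorem rg_le {U : Type} [AddCommGroup U] {f : AddMonoid.End U} {C : ℕ} (h : nr f ≤ C) :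
    rg f ≤ C := by
  rw [rg_eq_nr]; exact h

/-- the structure of (J) -/
noncomputable def strOf {δ : ℝ} {C : ℕ} (X : EndX δ C) : Str δ C where
  U := X.U
  ag := X.ag
  ft := X.ft
  de := X.de
  two := X.two
  B := X.B
  hB := X.hB
  A1 := X.A1
  A2 := X.A2
  A3 := X.A3
  L := X.L
  φ := X.φ
  c1 := X.c1
  c2 := X.c2
  c3 := X.c3
  c0 := X.c0
  id1 := X.id1
  id2 := X.id2
  r0 := fun p hp => rg_le (X.r0 p hp)
  r1 := fun p hp p' hp' => rg_le (X.r1 p hp p' hp')
  r2 := fun p hp p' hp' => rg_le (X.r2 p hp p' hp')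
  r3 := fun p hp p' hp' => rg_le (X.r3 p hp p' hp')
  rL := fun u v => by
    have h := X.rL u v
    rw [← add_assoc] at h
    exact rg_le h
  W := X.W
  hW := X.hW
  rS := fun u hu => rg_le (X.hS u hu)
  rφ := fun u hu => rg_le (X.hφ u hu)
  kφ := by
    rw [← Nat.card_coe_set_eq]
    exact X.kφ
  kφ1 := by
    refine le_trans ?_ X.kφ1
    rw [← Nat.card_coe_set_eq]
    refine Nat.card_le_card_of_injective (fun x : {x : X.U | X.φ x = x} =>
      (⟨(x : X.U), ?_⟩ : kr (X.φ + 1))) ?_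
    · show X.φ (x : X.U) + (x : X.U) = 0
      have hx : X.φ (x : X.U) = x := x.2
      rw [hx, X.two]
    · intro x y hxy
      exact Subtype.ext (congrArg (fun z : kr (X.φ + 1) => (z : X.U)) hxy)

theorem endXBound : EndXBound := by
  classical
  intro δ C hδ
  have hJ : ∀ b : ℕ, ∃ q : ℕ, ∀ X : EndX δ C, {u : X.U | rk (X.L u) ≤ b}.ncard ≤ q := by
    intro b
    obtain ⟨q, hq⟩ := Pool.Agent.helper64.MFJ2.J δ hδ C b
    refine ⟨q, fun X => ?_⟩
    have h0 := hq (strOf X)
    refine le_trans (le_of_eq ?_) h0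
    have h1 : {u : (strOf X).U | rk (X.L u) ≤ b} = ↑((strOf X).Sb b) := by
      ext u
      unfold Str.Sb
      rw [Finset.mem_coe, Finset.mem_filter]
      have h3 : rg ((strOf X).L u) = rk (X.L u) := rg_eq_nr _
      rw [h3]
      exact ⟨fun h => ⟨Finset.mem_univ _, h⟩, fun h => h.2⟩
    have h2 : {u : (strOf X).U | rk (X.L u) ≤ b}.ncard = ((strOf X).Sb b).card := by
      rw [h1, Set.ncard_coe_finset]
    exact h2
  choose q hq using hJ
  obtain ⟨N₀, hN⟩ := end_core' C q
  refine ⟨N₀, fun X => ?_⟩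
  rw [← Nat.card_eq_fintype_card]
  exact hN X.U {
    two := X.two
    L := X.L
    W := X.W
    hW := X.hW
    add := X.rL
    comm := X.comm
    dom := X.dom
    small := fun b => hq b X
    φ := X.φ
    g := X.g
    s := X.s
    Θ := X.Θ
    Z := X.Z
    kφ := X.kφ
    kφ1 := X.kφ1
    kg := X.kg
    ks := X.ks
    kΘ := X.kΘ
    kZ := X.kZ
    hφ := X.hS
    hg := X.hg
    hs := X.hs
    hΘ := X.hΘ
    hZ := X.hZ
    r1 := X.gT
    r2 := X.sT
    r3 := X.zz }

end Helper78MF
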