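import Mathlib
import Pool.Agent.helper63.MF.PreIn
import Pool.Agent.helper34.MF.Corr
import Pool.Agent.helper34.MF.Gen
import Pool.Agent.helper34.MF.Dom

set_option autoImplicit false

/-!
# MP_141f81, Section 9: the product with one letter of role `a` on a subgroup of bounded index

`dz`: for every row `z` there are `D` of bounded index and an additive `f` with `Aa z * L v ~ L (f v)` and
`Aa z * L v ~ L v * Aa z` for `v ∈ D` (fields `letters.D` and `dom` of `PreOut`).
-/

namespace Helper78MF.Dz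

open Finset Helper34MF
open Pool.Agent.MF.LemT (nr kr nr_add nr_pos nr_mul_left nr_mul_right)
open Pool.Agent.helper63.MF
open Pool.Agent.helper35.MF (Ball)

/-- popular class -/
theorem popular {Λ β : Type} [DecidableEq Λ] [DecidableEq β] (X : Finset Λ) (c : Λ → β) (T : Finset β)
    (hc : ∀ w ∈ X, c w ∈ T) (hX : X.Nonempty) :
    ∃ b ∈ T, X.card ≤ T.card * (X.filter (fun w => c w = b)).card := by
  by_contra hcon
  push Not at hcon
  obtain ⟨x, hx⟩ := hX
  have hT : T.Nonempty := ⟨c x, hc x hx⟩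
  have h1 : X.card = ∑ b ∈ T, (X.filter (fun w => c w = b)).card :=
    Finset.card_eq_sum_card_fiberwise (fun w hw => hc w hw)
  have h2 : T.card * X.card < ∑ _b ∈ T, X.card := by
    conv_lhs => rw [h1, Finset.mul_sum]
    exact Finset.sum_lt_sum_of_nonempty hT (fun b hb => hcon b hb)
  rw [Finset.sum_const, smul_eq_mul] at h2
  exact lt_irrefl _ h2

section

variable {U : Type} [AddCommGroup U] [Finite U]

/-- a subgroup containing a dense set -/
theorem index_le_of_dense (H : AddSubgroup U) (X : Finset U) (hX : ∀ x ∈ X, x ∈ H) {k : ℕ}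
    (h : Nat.card U ≤ k * X.card) : H.index ≤ k := by
  have h1 : X.card ≤ Nat.card H := by
    rw [← SetLike.coe_sort_coe, Nat.card_coe_set_eq, ← Set.ncard_coe_finset]
    exact Set.ncard_le_ncard (fun x hx => hX x (by simpa using hx)) (Set.toFinite _)
  have h2 := AddSubgroup.card_mul_index H
  have h3 : Nat.card H * H.index ≤ Nat.card H * k := by
    rw [h2, mul_comm]
    exact h.trans (Nat.mul_le_mul_left _ h1)
  exact Nat.le_of_mul_le_mul_left h3 Nat.card_pos

/-- even words of two letters of one colour -/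
theorem two_letters (two : ∀ u : U, u + u = 0) {C : ℕ} (L : U → AddMonoid.End U)
    (add : ∀ u v, nr (L (u + v) + (L u + L v)) ≤ C) {u v : U} {a b ν : AddMonoid.End U}
    (ha : nr (a + (L u + ν)) ≤ C) (hb : nr (b + (L v + ν)) ≤ C) : nr (L (u + v) + (a + b)) ≤ C ^ 3 := by
  have e : L (u + v) + (a + b) = (L (u + v) + (L u + L v)) + (a + (L u + ν)) + (b + (L v + ν)) := by
    have e1 : (L (u + v) + (L u + L v)) + (a + (L u + ν)) + (b + (L v + ν)) =
        L (u + v) + (a + b) + (L u + L u) + (L v + L v) + (ν + ν) := by abel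
    rw [e1]
    simp only [Pool.Agent.MF.LemT.add_self two, add_zero]
  rw [e]
  calc nr ((L (u + v) + (L u + L v)) + (a + (L u + ν)) + (b + (L v + ν)))
      ≤ nr ((L (u + v) + (L u + L v)) + (a + (L u + ν))) * nr (b + (L v + ν)) := nr_add _ _
    _ ≤ (C * C) * C := Nat.mul_le_mul ((nr_add _ _).trans (Nat.mul_le_mul (add u v) ha)) hb
    _ = C ^ 3 := by ring

end

/-- **The product with one letter.** -/
theorem dz (C : ℕ) : ∃ K : ℕ, ∀ (U Λ : Type) [AddCommGroup U] [Fintype U] [DecidableEq U] [DecidableEq Λ]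
    (d : Dat U Λ), RowsIn C d → ∀ z ∈ d.S, ∃ (D : AddSubgroup U) (f : AddMonoid.End U), D.index ≤ K ∧
      ∀ v ∈ D, nr (d.Aa z * d.L v + d.L (f v)) ≤ K ∧ nr (d.Aa z * d.L v + d.L v * d.Aa z) ≤ K := by
  classical
  obtain ⟨K1, hK1⟩ := rule_W (C ^ 10 + (3 * (C ^ 4 * C) + 1))
  refine ⟨K1 + C ^ 4 * C, ?_⟩
  intro U Λ _ _ _ _ d hd z hz
  have two := hd.two
  have hC : 1 ≤ C := (nr_pos _).trans_le (hd.add 0 0)
  -- the section of the product correspondence
  obtain ⟨f, hf⟩ := exists_map two two (d.Hm z)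
  have hpr : (pr1 (d.Hm z)).index ≤ C := by
    refine index_le_of_dense _ ((d.thr z).image d.pb) ?_ ?_
    · intro x hx
      obtain ⟨w, hw, rfl⟩ := Finset.mem_image.mp hx
      exact mem_pr1.mpr ⟨d.pm w, hd.Hm_mem z hz w hw⟩
    · have := hd.densb z hz 1 (d.thr z) (Finset.Subset.refl _) (by rw [one_mul])
      rw [Nat.card_eq_fintype_card]
      simpa using this
  have hind := indet_le (d.Hm z) C C (hd.Hm_card z hz) hpr
  set I : Finset U := (Set.toFinite {y : U | ((0 : U), y) ∈ d.Hm z}).toFinset with hI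
  have hIcard : I.card ≤ C * C := by
    rw [hI, ← Set.ncard_eq_toFinset_card]
    exact hind
  have hnoise : ∀ w ∈ d.thr z, f (d.pb w) + d.pm w ∈ I := by
    intro w hw
    rw [hI, Set.Finite.mem_toFinset]
    have h1 := hd.Hm_mem z hz w hw
    have h2 := hf (d.pb w) (mem_pr1.mpr ⟨_, h1⟩)
    have h3 := (d.Hm z).add_mem h2 h1
    have h4 : ((d.pb w, f (d.pb w)) : U × U) + (d.pb w, d.pm w) = ((0 : U), f (d.pb w) + d.pm w) := by
      rw [Prod.mk_add_mk, two]
    rw [h4] at h3
    exact h3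
  -- colours
  choose! νb hνb using hd.colb
  choose! νm hνm using hd.colm
  have hthr : (d.thr z).Nonempty := by
    have h1 := hd.densb z hz 1 (d.thr z) (Finset.Subset.refl _) (by rw [one_mul])
    have h2 : 0 < Fintype.card U := Fintype.card_pos
    have h3 : 0 < ((d.thr z).image d.pb).card := by
      by_contra h
      have h4 : ((d.thr z).image d.pb).card = 0 := by omega
      rw [h4, mul_zero] at h1
      omega
    exact Finset.image_nonempty.mp (Finset.card_pos.mp h3)
  have hS := hd.thr_sub z hz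
  obtain ⟨b, -, hb⟩ := popular (d.thr z) (fun w => (νb w, νm w, f (d.pb w) + d.pm w)) (d.VV ×ˢ (d.VV ×ˢ I))
    (by
      intro w hw
      rw [Finset.mem_product, Finset.mem_product]
      exact ⟨(hνb w (hS hw)).1, (hνm w (hS hw)).1, hnoise w hw⟩) hthr
  set Q : Finset Λ := (d.thr z).filter (fun w => (νb w, νm w, f (d.pb w) + d.pm w) = b) with hQ
  have hTc : (d.VV ×ˢ (d.VV ×ˢ I)).card ≤ C ^ 4 := by
    rw [Finset.card_product, Finset.card_product]
    calc d.VV.card * (d.VV.card * I.card) ≤ C * (C * (C * C)) :=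
          Nat.mul_le_mul hd.cV (Nat.mul_le_mul hd.cV hIcard)
      _ = C ^ 4 := by ring
  have hQcard : (d.thr z).card ≤ C ^ 4 * Q.card := hb.trans (Nat.mul_le_mul_right _ hTc)
  have hQsub : Q ⊆ d.thr z := Finset.filter_subset _ _
  have hdens := hd.densb z hz (C ^ 4) Q hQsub hQcard
  have hQne : Q.Nonempty := by
    by_contra h
    rw [Finset.not_nonempty_iff_eq_empty] at h
    rw [h, Finset.card_empty, mul_zero] at hQcard
    have := Finset.card_pos.mpr hthr
    omega
  -- properties of `Q`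
  have hQv : ∀ w ∈ Q, νb w = b.1 ∧ νm w = b.2.1 ∧ f (d.pb w) + d.pm w = b.2.2 := by
    intro w hw
    have h1 := (Finset.mem_filter.mp hw).2
    rw [← h1]
    exact ⟨rfl, rfl, rfl⟩
  set X : Set U := diffs d.pb (Q : Set Λ) with hX
  have hXcard : Nat.card U ≤ C ^ 4 * C * X.ncard := by
    have h1 := card_diffs d.pb (Q : Set Λ) (by simpa using hQne)
    have h2 : (Q.image d.pb).card = (d.pb '' (Q : Set Λ)).ncard := by
      rw [← Finset.coe_image, Set.ncard_coe_finset]
    rw [Nat.card_eq_fintype_card]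
    refine hdens.trans (Nat.mul_le_mul_left _ ?_)
    rw [h2]
    exact h1
  have hX0 : (0 : U) ∈ X := by
    obtain ⟨w, hw⟩ := hQne
    exact zero_mem_diffs two d.pb (P := (Q : Set Λ)) (z := w) (by simpa using hw)
  have hDi := index_closure_le X hX0 _ hXcard
  have hgen := dense_gen two X hX0 _ hXcard
  -- pairs of letters
  have hpair : ∀ w ∈ Q, ∀ w' ∈ Q, nr (d.Aa z * d.L (d.pb w + d.pb w') + d.L (f (d.pb w + d.pb w'))) ≤ C ^ 8 ∧
      nr (d.Aa z * d.L (d.pb w + d.pb w') + d.L (d.pb w + d.pb w') * d.Aa z) ≤ C ^ 10 := by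
    intro w hw w' hw'
    obtain ⟨hb1, hm1, hn1⟩ := hQv w hw
    obtain ⟨hb2, hm2, hn2⟩ := hQv w' hw'
    have cb1 := (hνb w (hS (hQsub hw))).2
    have cb2 := (hνb w' (hS (hQsub hw'))).2
    have cm1 := (hνm w (hS (hQsub hw))).2
    have cm2 := (hνm w' (hS (hQsub hw'))).2
    rw [hb1] at cb1
    rw [hb2] at cb2
    rw [hm1] at cm1
    rw [hm2] at cm2
    have e1 := two_letters two d.L hd.add cb1 cb2
    have e2 := two_letters two d.L hd.add cm1 cm2
    have hfx : f (d.pb w + d.pb w') = d.pm w + d.pm w' := by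
      rw [map_add]
      have h3 : f (d.pb w) + d.pm w = f (d.pb w') + d.pm w' := by rw [hn1, hn2]
      have h4 : f (d.pb w) = f (d.pb w') + d.pm w' + d.pm w := by
        rw [← h3, add_assoc, two, add_zero]
      rw [h4]
      have h5 : f (d.pb w') + d.pm w' + d.pm w + f (d.pb w') =
          (f (d.pb w') + f (d.pb w')) + (d.pm w + d.pm w') := by abel
      rw [h5, two, zero_add]
    have a1 := hd.mab z hz w (hQsub hw)
    have a2 := hd.mab z hz w' (hQsub hw')
    have b1 := hd.mba z hz w (hQsub hw)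
    have b2 := hd.mba z hz w' (hQsub hw')
    constructor
    · rw [hfx]
      have e : d.Aa z * d.L (d.pb w + d.pb w') + d.L (d.pm w + d.pm w') =
          d.Aa z * (d.L (d.pb w + d.pb w') + (d.Ab w + d.Ab w')) + (d.Aa z * d.Ab w + d.Am w) +
            (d.Aa z * d.Ab w' + d.Am w') + (d.L (d.pm w + d.pm w') + (d.Am w + d.Am w')) := by
        have e3 : d.Aa z * (d.L (d.pb w + d.pb w') + (d.Ab w + d.Ab w')) + (d.Aa z * d.Ab w + d.Am w) +
            (d.Aa z * d.Ab w' + d.Am w') + (d.L (d.pm w + d.pm w') + (d.Am w + d.Am w')) =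
            d.Aa z * d.L (d.pb w + d.pb w') + d.L (d.pm w + d.pm w') + (d.Aa z * d.Ab w + d.Aa z * d.Ab w) +
            (d.Aa z * d.Ab w' + d.Aa z * d.Ab w') + (d.Am w + d.Am w) + (d.Am w' + d.Am w') := by
          simp only [mul_add]
          abel
        rw [e3]
        simp only [Pool.Agent.MF.LemT.add_self two, add_zero]
      rw [e]
      calc _ ≤ C ^ 3 * C * C * C ^ 3 := by
            refine (nr_add _ _).trans (Nat.mul_le_mul ?_ e2)
            refine (nr_add _ _).trans (Nat.mul_le_mul ?_ a2)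
            refine (nr_add _ _).trans (Nat.mul_le_mul ?_ a1)
            exact (nr_mul_left _ _).trans e1
        _ = C ^ 8 := by ring
    · have e : d.Aa z * d.L (d.pb w + d.pb w') + d.L (d.pb w + d.pb w') * d.Aa z =
          d.Aa z * (d.L (d.pb w + d.pb w') + (d.Ab w + d.Ab w')) +
          (d.L (d.pb w + d.pb w') + (d.Ab w + d.Ab w')) * d.Aa z + (d.Aa z * d.Ab w + d.Am w) +
            (d.Aa z * d.Ab w' + d.Am w') + (d.Ab w * d.Aa z + d.Am w) + (d.Ab w' * d.Aa z + d.Am w') := by
        have e3 : d.Aa z * (d.L (d.pb w + d.pb w') + (d.Ab w + d.Ab w')) +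
          (d.L (d.pb w + d.pb w') + (d.Ab w + d.Ab w')) * d.Aa z + (d.Aa z * d.Ab w + d.Am w) +
            (d.Aa z * d.Ab w' + d.Am w') + (d.Ab w * d.Aa z + d.Am w) + (d.Ab w' * d.Aa z + d.Am w') =
            d.Aa z * d.L (d.pb w + d.pb w') + d.L (d.pb w + d.pb w') * d.Aa z +
            (d.Aa z * d.Ab w + d.Aa z * d.Ab w) + (d.Aa z * d.Ab w' + d.Aa z * d.Ab w') +
            (d.Ab w * d.Aa z + d.Ab w * d.Aa z) + (d.Ab w' * d.Aa z + d.Ab w' * d.Aa z) +
            (d.Am w + d.Am w) + (d.Am w' + d.Am w') := by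
          simp only [mul_add, add_mul]
          abel
        rw [e3]
        simp only [Pool.Agent.MF.LemT.add_self two, add_zero]
      rw [e]
      calc _ ≤ C ^ 3 * C ^ 3 * C * C * C * C := by
            refine (nr_add _ _).trans (Nat.mul_le_mul ?_ b2)
            refine (nr_add _ _).trans (Nat.mul_le_mul ?_ b1)
            refine (nr_add _ _).trans (Nat.mul_le_mul ?_ a2)
            refine (nr_add _ _).trans (Nat.mul_le_mul ?_ a1)
            refine (nr_add _ _).trans (Nat.mul_le_mul ?_ ?_)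
            · exact (nr_mul_left _ _).trans e1
            · exact (nr_mul_right _ _).trans e1
        _ = C ^ 10 := by ring
  have h2le : C * C ≤ C ^ 10 + (3 * (C ^ 4 * C) + 1) := by
    have : C * C ≤ C ^ 10 := by
      calc C * C = C ^ 2 := by ring
        _ ≤ C ^ 10 := Nat.pow_le_pow_right hC (by norm_num)
    omega
  have h8le : C ^ 8 ≤ C ^ 10 := Nat.pow_le_pow_right hC (by norm_num)
  have hL0 : nr (d.L 0) ≤ C := by
    have h1 := hd.add 0 0
    rwa [add_zero, Pool.Agent.MF.LemT.add_self two, add_zero] at h1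
  have hball : ∀ u ∈ AddSubgroup.closure X, u ∈ Ball (diffs d.pb (Q : Set Λ)) (C ^ 10 + (3 * (C ^ 4 * C) + 1)) := by
    intro u hu
    exact Ball.mono' (by omega) (hgen hu)
  have hXcl : diffs d.pb (Q : Set Λ) ⊆ AddSubgroup.closure X := AddSubgroup.subset_closure
  refine ⟨AddSubgroup.closure X, f, hDi.trans (Nat.le_add_left _ _), ?_⟩
  intro v hv
  constructor
  · refine le_trans (hK1 U two (fun v => d.Aa z * d.L v + d.L (f v)) Λ d.pb (Q : Set Λ) (AddSubgroup.closure X)
      hXcl hball ?_ ?_ ?_ v hv) (Nat.le_add_right _ _)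
    · show nr (d.Aa z * d.L 0 + d.L (f 0)) ≤ _
      rw [map_zero]
      exact ((nr_add _ _).trans (Nat.mul_le_mul ((nr_mul_left _ _).trans hL0) hL0)).trans h2le
    · intro u _ v _
      show nr (d.Aa z * d.L (u + v) + d.L (f (u + v)) + (d.Aa z * d.L u + d.L (f u) + (d.Aa z * d.L v + d.L (f v)))) ≤ _
      have e : d.Aa z * d.L (u + v) + d.L (f (u + v)) + (d.Aa z * d.L u + d.L (f u) + (d.Aa z * d.L v + d.L (f v)))
          = d.Aa z * (d.L (u + v) + (d.L u + d.L v)) + (d.L (f u + f v) + (d.L (f u) + d.L (f v))) := by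
        rw [map_add f u v]
        simp only [mul_add]
        abel
      rw [e]
      exact ((nr_add _ _).trans (Nat.mul_le_mul ((nr_mul_left _ _).trans (hd.add _ _)) (hd.add _ _))).trans h2le
    · intro w hw w' hw'
      exact (hpair w (by simpa using hw) w' (by simpa using hw')).1.trans (by omega)
  · refine le_trans (hK1 U two (fun v => d.Aa z * d.L v + d.L v * d.Aa z) Λ d.pb (Q : Set Λ) (AddSubgroup.closure X)
      hXcl hball ?_ ?_ ?_ v hv) (Nat.le_add_right _ _)
    · show nr (d.Aa z * d.L 0 + d.L 0 * d.Aa z) ≤ _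
      exact ((nr_add _ _).trans (Nat.mul_le_mul ((nr_mul_left _ _).trans hL0)
        ((nr_mul_right _ _).trans hL0))).trans h2le
    · intro u _ v _
      show nr (d.Aa z * d.L (u + v) + d.L (u + v) * d.Aa z + (d.Aa z * d.L u + d.L u * d.Aa z +
        (d.Aa z * d.L v + d.L v * d.Aa z))) ≤ _
      have e : d.Aa z * d.L (u + v) + d.L (u + v) * d.Aa z + (d.Aa z * d.L u + d.L u * d.Aa z +
        (d.Aa z * d.L v + d.L v * d.Aa z))
          = d.Aa z * (d.L (u + v) + (d.L u + d.L v)) + (d.L (u + v) + (d.L u + d.L v)) * d.Aa z := by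
        simp only [mul_add, add_mul]
        abel
      rw [e]
      exact ((nr_add _ _).trans (Nat.mul_le_mul ((nr_mul_left _ _).trans (hd.add _ _))
        ((nr_mul_right _ _).trans (hd.add _ _)))).trans h2le
    · intro w hw w' hw'
      exact (hpair w (by simpa using hw) w' (by simpa using hw')).2.trans (by omega)

end Helper78MF.Dz
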