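import Pool.Agent.helper78.MF.Exact

/-! # MF_CoreA: endomorphisms of bounded range; the exact finite commutative ring of an almost
multiplicative family of operators (end game of MP_141f81_co).  Author: helper78. -/

namespace Helper78MF

universe u

section Sml

variable {U : Type*} [AddCommGroup U] [Finite U]

/-- `f` has range of size at most `2 ^ B`. -/
def Sml (B : ℕ) (f : U →+ U) : Prop := Nat.card f.range ≤ 2 ^ B

theorem sml_mono {B B' : ℕ} (h : B ≤ B') {f : U →+ U} (hf : Sml B f) : Sml B' f :=
  le_trans hf (Nat.pow_le_pow_right (by norm_num) h)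

theorem sml_zero (B : ℕ) : Sml B (0 : U →+ U) := by
  unfold Sml
  have : (0 : U →+ U).range = ⊥ := by
    rw [eq_bot_iff]
    rintro x ⟨y, rfl⟩
    exact AddSubgroup.mem_bot.mpr rfl
  rw [this, AddSubgroup.card_bot]
  exact Nat.one_le_two_pow

theorem sml_add {B B' : ℕ} {f g : U →+ U} (hf : Sml B f) (hg : Sml B' g) :
    Sml (B + B') (f + g) := by
  unfold Sml at *
  have hch : ∀ y : (f + g).range, ∃ x : U, f x + g x = (y : U) := fun y => y.2
  choose x hx using hch
  have := Nat.card_le_card_of_injective
    (fun y : (f + g).range => ((⟨f (x y), ⟨x y, rfl⟩⟩, ⟨g (x y), ⟨x y, rfl⟩⟩) :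
      f.range × g.range)) (by
      intro y z hyz
      have e1 : f (x y) = f (x z) := congrArg (fun t : f.range × g.range => (t.1 : U)) hyz
      have e2 : g (x y) = g (x z) := congrArg (fun t : f.range × g.range => (t.2 : U)) hyz
      apply Subtype.ext
      rw [← hx y, ← hx z, e1, e2])
  rw [Nat.card_prod] at this
  calc _ ≤ _ := this
    _ ≤ 2 ^ B * 2 ^ B' := Nat.mul_le_mul hf hg
    _ = 2 ^ (B + B') := by rw [pow_add]

theorem sml_left {B : ℕ} {f : U →+ U} (h : U →+ U) (hf : Sml B f) : Sml B (h.comp f) := by
  unfold Sml at *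
  have hch : ∀ y : (h.comp f).range, ∃ x : U, h (f x) = (y : U) := fun y => y.2
  choose x hx using hch
  refine le_trans (Nat.card_le_card_of_injective
    (fun y : (h.comp f).range => (⟨f (x y), ⟨x y, rfl⟩⟩ : f.range)) ?_) hf
  intro y z hyz
  have e1 : f (x y) = f (x z) := congrArg (fun t : f.range => (t : U)) hyz
  apply Subtype.ext
  rw [← hx y, ← hx z, e1]

theorem sml_right {B : ℕ} {f : U →+ U} (h : U →+ U) (hf : Sml B f) : Sml B (f.comp h) := by
  unfold Sml at *
  refine le_trans (Nat.card_le_card_of_injective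
    (fun y : (f.comp h).range => (⟨(y : U), ?_⟩ : f.range)) ?_) hf
  · obtain ⟨y, x, rfl⟩ := y
    exact ⟨h x, rfl⟩
  · intro y z hyz
    exact Subtype.ext (congrArg (fun t : f.range => (t : U)) hyz)

theorem sml_cancel {B K : ℕ} {f g : U →+ U} (hg : Nat.card g.ker ≤ 2 ^ K)
    (hf : Sml B (f.comp g)) : Sml (B + K) f := by
  classical
  unfold Sml at *
  have hidx : Nat.card (U ⧸ g.range) = Nat.card g.ker := by
    have h1 := AddSubgroup.card_mul_index g.range
    have h2 := AddSubgroup.card_mul_index g.ker
    rw [AddSubgroup.index_ker] at h2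
    have h3 : Nat.card g.range * g.range.index = Nat.card g.range * Nat.card g.ker := by
      rw [h1, ← h2, mul_comm]
    have hpos : 0 < Nat.card g.range := Nat.card_pos
    exact Nat.eq_of_mul_eq_mul_left hpos h3
  have hch : ∀ y : f.range, ∃ x : U, f x = (y : U) := fun y => y.2
  choose x hx using hch
  have hrep : ∀ z : U, ∃ u : U, g u = z - Quotient.out (QuotientAddGroup.mk z : U ⧸ g.range) := by
    intro z
    have h1 : (QuotientAddGroup.mk (Quotient.out (QuotientAddGroup.mk z : U ⧸ g.range)) :
        U ⧸ g.range) = QuotientAddGroup.mk z := Quotient.out_eq _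
    have h2 := QuotientAddGroup.eq.mp h1
    obtain ⟨u, hu⟩ := h2
    exact ⟨u, by rw [hu]; abel⟩
  choose u hu using hrep
  have := Nat.card_le_card_of_injective
    (fun y : f.range => (((QuotientAddGroup.mk (x y) : U ⧸ g.range),
      ⟨f (g (u (x y))), ⟨u (x y), rfl⟩⟩) : (U ⧸ g.range) × (f.comp g).range)) (by
      intro y z hyz
      have e1 : (QuotientAddGroup.mk (x y) : U ⧸ g.range) = QuotientAddGroup.mk (x z) :=
        congrArg (fun t : (U ⧸ g.range) × (f.comp g).range => t.1) hyz
      have e2 : f (g (u (x y))) = f (g (u (x z))) :=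
        congrArg (fun t : (U ⧸ g.range) × (f.comp g).range => (t.2 : U)) hyz
      rw [hu, hu, map_sub, map_sub, e1] at e2
      apply Subtype.ext
      rw [← hx y, ← hx z]
      exact sub_left_injective e2)
  rw [Nat.card_prod, hidx] at this
  calc _ ≤ _ := this
    _ ≤ 2 ^ K * 2 ^ B := Nat.mul_le_mul hg hf
    _ = 2 ^ (B + K) := by rw [pow_add, mul_comm]

theorem end_add_self (h2 : ∀ x : U, x + x = 0) (f : U →+ U) : f + f = 0 := by
  ext x
  exact h2 (f x)

/-- transitivity of nearness -/
theorem sml_trans (h2 : ∀ x : U, x + x = 0) {B B' : ℕ} {f g h : U →+ U} (h1 : Sml B (f + g))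
    (h3 : Sml B' (g + h)) : Sml (B + B') (f + h) := by
  have := sml_add h1 h3
  have e : f + g + (g + h) = f + h := by
    calc f + g + (g + h) = f + h + (g + g) := by abel
      _ = f + h := by rw [end_add_self h2, add_zero]
  rwa [e] at this

theorem sml_symm {B : ℕ} {f g : U →+ U} (h1 : Sml B (f + g)) : Sml B (g + f) := by
  rwa [add_comm]

/-- products of near operators -/
theorem sml_mul (h2 : ∀ x : U, x + x = 0) {B B' : ℕ} {f f' g g' : U →+ U}
    (hf : Sml B (f + f')) (hg : Sml B' (g + g')) :
    Sml (B + B') (f.comp g + f'.comp g') := by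
  have h1 : Sml B (f.comp g + f'.comp g) := by
    have := sml_right g hf
    rwa [AddMonoidHom.add_comp] at this
  have h3 : Sml B' (f'.comp g + f'.comp g') := by
    have := sml_left f' hg
    rwa [AddMonoidHom.comp_add] at this
  exact sml_trans h2 h1 h3

end Sml

section Ring

variable {U : Type*} [AddCommGroup U] [Finite U] {G : Type*} [AddCommGroup G] [Finite G]

/-- An almost multiplicative family of operators. -/
structure Fam (c : ℕ) (q : ℕ → ℕ) (M : G → U →+ U) (one : G) : Prop where
  two : ∀ a : G, a + a = 0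
  twoU : ∀ u : U, u + u = 0
  add : ∀ a b, Sml c (M (a + b) + (M a + M b))
  comm : ∀ a b, Sml c ((M a).comp (M b) + (M b).comp (M a))
  tot : ∀ a b, ∃ x, Sml c ((M a).comp (M b) + M x)
  one_near : Sml c (M one + AddMonoidHom.id U)
  small : ∀ B, {a : G | Sml B (M a)}.ncard ≤ q B

/-- the small elements -/
def SmG (M : G → U →+ U) (c : ℕ) (B : ℕ) : Set G := {f | f = 0 ∨ ∃ C, C + c ≤ B ∧ Sml C (M f)}

theorem fam_zero {c : ℕ} {q : ℕ → ℕ} {M : G → U →+ U} {one : G} (h : Fam c q M one) :
    Sml c (M 0) := by
  have := h.add 0 0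
  rw [add_zero, end_add_self h.twoU, add_zero] at this
  exact this

/-- near sum -/
theorem fam_add {c : ℕ} {q : ℕ → ℕ} {M : G → U →+ U} {one : G} (h : Fam c q M one) {B : ℕ}
    {x x' : G} (hx : Sml B (M x + M x')) : Sml (B + c) (M (x + x')) := by
  have h1 := sml_add (h.add x x') hx
  have e : M (x + x') + (M x + M x') + (M x + M x') = M (x + x') := by
    rw [add_assoc, end_add_self h.twoU, add_zero]
  rw [e] at h1
  rwa [add_comm B c]

theorem fam_add' {c : ℕ} {q : ℕ → ℕ} {M : G → U →+ U} {one : G} (h : Fam c q M one) {B : ℕ}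
    {x x' : G} (hx : Sml B (M (x + x'))) : Sml (B + c) (M x + M x') := by
  have h1 := sml_add (h.add x x') hx
  have e : M (x + x') + (M x + M x') + M (x + x') = M x + M x' := by
    calc _ = M x + M x' + (M (x + x') + M (x + x')) := by abel
      _ = _ := by rw [end_add_self h.twoU, add_zero]
  rw [e] at h1
  rwa [add_comm B c]

theorem almost {c : ℕ} {q : ℕ → ℕ} {M : G → U →+ U} {one : G} (h : Fam c q M one) :
    X.AlmostRing (fun y v x => Sml c ((M y).comp (M v) + M x)) (SmG M c) (7 * c) where
  zero := Or.inl rfl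
  mono := by
    intro B B' hB f hf
    rcases hf with rfl | ⟨C, hC, hf⟩
    · exact Or.inl rfl
    · exact Or.inr ⟨C, hC.trans hB, hf⟩
  add := by
    intro B B' f g hf hg
    rcases hf with rfl | ⟨C, hC, hf⟩
    · rcases hg with rfl | ⟨C', hC', hg⟩
      · exact Or.inl (add_zero 0)
      · rw [zero_add]
        exact Or.inr ⟨C', by omega, hg⟩
    · rcases hg with rfl | ⟨C', hC', hg⟩
      · rw [add_zero]
        exact Or.inr ⟨C, by omega, hf⟩
      · refine Or.inr ⟨C + C' + c, by omega, ?_⟩
        exact fam_add h (sml_add hf hg)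
  tot := h.tot
  uniq := by
    intro y v x x' hx hx'
    refine Or.inr ⟨c + c + c, by omega, ?_⟩
    exact fam_add h (sml_trans h.twoU (sml_symm hx) hx')
  addl := by
    intro y y' v x x' x'' hx hx' hx''
    have h1 : Sml c ((M (y + y')).comp (M v) + ((M y).comp (M v) + (M y').comp (M v))) := by
      have := sml_right (M v) (h.add y y')
      rwa [AddMonoidHom.add_comp, AddMonoidHom.add_comp] at this
    have h3 := sml_add (sml_add (sml_add hx hx') hx'') h1
    have e : (M y).comp (M v) + M x + ((M y').comp (M v) + M x') +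
        ((M (y + y')).comp (M v) + M x'') +
        ((M (y + y')).comp (M v) + ((M y).comp (M v) + (M y').comp (M v))) =
        M x + M x' + M x'' := by
      calc _ = M x + M x' + M x'' + ((M y).comp (M v) + (M y).comp (M v)) +
            ((M y').comp (M v) + (M y').comp (M v)) +
            ((M (y + y')).comp (M v) + (M (y + y')).comp (M v)) := by abel
        _ = _ := by simp only [end_add_self h.twoU, add_zero]
    rw [e] at h3
    have h4 : Sml (c + c + c + c + c) (M (x + x') + M x'') := by
      have h5 := sml_add h3 (h.add x x')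
      have e2 : M x + M x' + M x'' + (M (x + x') + (M x + M x')) = M (x + x') + M x'' := by
        calc _ = M (x + x') + M x'' + (M x + M x) + (M x' + M x') := by abel
          _ = _ := by simp only [end_add_self h.twoU, add_zero]
      rwa [e2] at h5
    refine Or.inr ⟨c + c + c + c + c + c, by omega, ?_⟩
    exact fam_add h h4
  symm := by
    intro y v x x' hx hx'
    refine Or.inr ⟨c + (c + c) + c, by omega, ?_⟩
    exact fam_add h (sml_trans h.twoU (sml_symm hx) (sml_trans h.twoU (h.comm y v) hx'))
  assoc := by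
    intro y v w a x c' x' h1 h3 h4 h5
    -- M x ~ M y M a ~ M y M v M w ~ M c' M w ~ M x'
    have e1 : Sml c ((M y).comp (M a) + (M y).comp ((M v).comp (M w))) := by
      have := sml_left (M y) (sml_symm h1)
      rwa [AddMonoidHom.comp_add] at this
    have e2 : Sml c (((M y).comp (M v)).comp (M w) + (M c').comp (M w)) := by
      have := sml_right (M w) h4
      rwa [AddMonoidHom.add_comp] at this
    rw [AddMonoidHom.comp_assoc] at e2
    refine Or.inr ⟨c + (c + (c + c)) + c, by omega, ?_⟩
    exact fam_add h (sml_trans h.twoU (sml_symm h3) (sml_trans h.twoU e1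
      (sml_trans h.twoU e2 h5)))
  small := by
    intro B y f x hf hx
    rcases hf with rfl | ⟨C, hC, hf⟩
    · refine Or.inr ⟨c + c, by omega, ?_⟩
      have h1 := sml_left (M y) (fam_zero h)
      have h3 := sml_add hx h1
      have e : (M y).comp (M 0) + M x + (M y).comp (M 0) = M x := by
        calc _ = M x + ((M y).comp (M 0) + (M y).comp (M 0)) := by abel
          _ = _ := by simp only [end_add_self h.twoU, add_zero]
      rwa [e] at h3
    · refine Or.inr ⟨c + C, by omega, ?_⟩
      have h1 := sml_left (M y) hf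
      have h3 := sml_add hx h1
      have e : (M y).comp (M f) + M x + (M y).comp (M f) = M x := by
        calc _ = M x + ((M y).comp (M f) + (M y).comp (M f)) := by abel
          _ = _ := by simp only [end_add_self h.twoU, add_zero]
      rwa [e] at h3

theorem smG_card {c : ℕ} {q : ℕ → ℕ} {M : G → U →+ U} {one : G} (h : Fam c q M one) (B : ℕ) :
    (SmG M c B).ncard ≤ q B + 1 := by
  have h1 : SmG M c B ⊆ {a : G | Sml B (M a)} ∪ {0} := by
    intro f hf
    rcases hf with rfl | ⟨C, hC, hf⟩
    · exact Or.inr rfl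
    · exact Or.inl (sml_mono (by omega) hf)
  refine (Set.ncard_le_ncard h1 (Set.toFinite _)).trans ((Set.ncard_union_le _ _).trans ?_)
  rw [Set.ncard_singleton]
  exact Nat.add_le_add_right (h.small B) 1

/-- the size bound of the elements of the ideal -/
def betaF (c : ℕ) (q : ℕ → ℕ) : ℕ :=
  X.clB (fun B => q B + 1) (X.BI (fun B => q B + 1) (7 * c)) + c

/-- the bound for the ideal -/
def qiF (c : ℕ) (q : ℕ → ℕ) : ℕ := X.QI (fun B => q B + 1) (7 * c)

/-- **The exact ring.** -/
theorem ring_of {U : Type*} [AddCommGroup U] [Finite U] {G : Type u} [AddCommGroup G] [Finite G]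
    {c : ℕ} {q : ℕ → ℕ} {M : G → U →+ U} {one : G} (h : Fam c q M one) :
    ∃ (R : Type u) (_ : CommRing R) (_ : Finite R) (κ : G →+ R),
      Function.Surjective κ ∧ (2 : R) = 0 ∧
      Nat.card κ.ker ≤ qiF c q ∧ (∀ f ∈ κ.ker, Sml (betaF c q) (M f)) ∧
      (∀ a b x : G, Sml c ((M a).comp (M b) + M x) → κ a * κ b = κ x) := by
  classical
  obtain ⟨I, hI, -, hIs, m, hm, hcomm, hassoc⟩ :=
    X.exact_ring h.two (almost h) (fun B => q B + 1) (smG_card h)
  have hone : ∀ a : G ⧸ I, m (QuotientAddGroup.mk one) a = a := by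
    intro a
    induction a using QuotientAddGroup.induction_on with
    | H v =>
      refine hm one v v ?_
      have := sml_right (M v) h.one_near
      rwa [AddMonoidHom.add_comp, AddMonoidHom.id_comp] at this
  let inst : CommRing (G ⧸ I) :=
    { (QuotientAddGroup.Quotient.addCommGroup I : AddCommGroup (G ⧸ I)) with
      mul := fun a b => m a b
      one := QuotientAddGroup.mk one
      mul_assoc := fun a b d => (hassoc a b d).symm
      one_mul := fun a => hone a
      mul_one := fun a => by
        show m a (QuotientAddGroup.mk one) = a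
        rw [hcomm]; exact hone a
      left_distrib := fun a b d => map_add (m a) b d
      right_distrib := fun a b d => by
        show m (a + b) d = m a d + m b d
        rw [map_add]; rfl
      zero_mul := fun a => by
        show m 0 a = 0
        rw [map_zero]; rfl
      mul_zero := fun a => map_zero (m a)
      mul_comm := fun a b => hcomm a b }
  have hker : ∀ f : G, (QuotientAddGroup.mk' I) f = 0 ↔ f ∈ I := fun f =>
    QuotientAddGroup.eq_zero_iff f
  refine ⟨G ⧸ I, inst, inferInstance, QuotientAddGroup.mk' I,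
    QuotientAddGroup.mk'_surjective I, ?_, ?_, ?_, ?_⟩
  · rw [← one_add_one_eq_two]
    show (QuotientAddGroup.mk one : G ⧸ I) + QuotientAddGroup.mk one = 0
    rw [← QuotientAddGroup.mk_add, h.two]; rfl
  · rw [QuotientAddGroup.ker_mk']
    exact hI
  · intro f hf
    have hf' : f ∈ I := (hker f).mp hf
    rcases hIs f hf' with rfl | ⟨C, hC, hf''⟩
    · exact sml_mono (by unfold betaF; omega) (fam_zero h)
    · exact sml_mono (by unfold betaF; omega) hf''
  · intro a b x hx
    exact hm a b x hx

end Ring

end Helper78MF
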