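import Pool.Agent.helper78.MF.LabD

/-! # MF_LabE: no label system on a large finite commutative ring with bounded nilpotents and
boundedly many idempotents (label half of the end game of MP_141f81_co).  Author: helper78. -/

namespace Helper78MF

/-- squaring as an additive map in characteristic two -/
def sqHom {R : Type*} [CommRing R] (h2 : (2 : R) = 0) : R →+ R where
  toFun x := x ^ 2
  map_zero' := by ring
  map_add' x y := by
    have : (x + y) ^ 2 = x ^ 2 + y ^ 2 + 2 * (x * y) := by ring
    rw [this, h2, zero_mul, add_zero]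

theorem frob_bound {R : Type*} [CommRing R] [Finite R] (h2 : (2 : R) = 0) {k : ℕ}
    (hk : {x : R | x ^ 2 = 0}.ncard ≤ k) (j : ℕ) :
    {x : R | x ^ (2 ^ j) = 0}.ncard ≤ k ^ j := by
  classical
  induction j with
  | zero =>
    have : {x : R | x ^ (2 ^ 0) = 0} = {0} := by ext x; simp
    rw [this, Set.ncard_singleton, pow_zero]
  | succ j ih =>
    have h1 := ker_pull (f := fun x : R => x ^ 2) (D := ⊤) (k := k)
      (fun a _ b _ => (sqHom h2).map_add a b)
      (le_trans (Set.ncard_le_ncard (t := {x : R | x ^ 2 = 0}) (fun x hx => hx.2)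
        (Set.toFinite _)) hk) {x : R | x ^ (2 ^ j) = 0}
    refine le_trans (Set.ncard_le_ncard ?_ (Set.toFinite _)) (h1.trans ?_)
    · intro x hx
      refine ⟨AddSubgroup.mem_top x, ?_⟩
      show (x ^ 2) ^ (2 ^ j) = 0
      rw [← pow_mul, ← pow_succ']
      exact hx
    · rw [pow_succ, mul_comm (k ^ j)]
      exact Nat.mul_le_mul le_rfl ih

theorem nil_index {R : Type*} [CommRing R] [Finite R] {k : ℕ}
    (hk : {x : R | x ^ 2 = 0}.ncard ≤ k) {x : R} (hx : IsNilpotent x) :
    x ^ (2 ^ (k + 1)) = 0 := by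
  classical
  by_cases hR : x = 0
  · rw [hR]; exact zero_pow (by positivity)
  set n := nilpotencyClass x with hn
  have hn0 : x ^ n = 0 := pow_nilpotencyClass hx
  have hmin : ∀ i, i < n → x ^ i ≠ 0 := by
    intro i hi h0
    exact absurd (Nat.sInf_le (show i ∈ {k | x ^ k = 0} from h0)) (not_le.mpr hi)
  have hinj : Function.Injective (fun i : Fin (n / 2 + 1) =>
      (⟨x ^ (n - (i : ℕ)), by
        show (x ^ (n - (i : ℕ))) ^ 2 = 0
        rw [← pow_mul]
        have hi := i.2
        have : (n - (i : ℕ)) * 2 = n + (n - 2 * (i : ℕ)) := by omega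
        rw [this, pow_add, hn0, zero_mul]⟩ : {x : R | x ^ 2 = 0})) := by
    intro i i' h
    have h1 : x ^ (n - (i : ℕ)) = x ^ (n - (i' : ℕ)) := congrArg Subtype.val h
    have hi := i.2
    have hi' := i'.2
    apply Fin.ext
    rcases lt_trichotomy (i : ℕ) (i' : ℕ) with hlt | heq | hlt
    · exfalso
      have h2 : x ^ ((i : ℕ) + (n - (i' : ℕ))) = 0 := by
        rw [pow_add, ← h1, ← pow_add]
        have : (i : ℕ) + (n - (i : ℕ)) = n := by omega
        rw [this, hn0]
      exact hmin _ (by omega) h2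
    · exact heq
    · exfalso
      have h2 : x ^ ((i' : ℕ) + (n - (i : ℕ))) = 0 := by
        rw [pow_add, h1, ← pow_add]
        have : (i' : ℕ) + (n - (i' : ℕ)) = n := by omega
        rw [this, hn0]
      exact hmin _ (by omega) h2
  have h1 := Nat.card_le_card_of_injective _ hinj
  rw [Nat.card_eq_fintype_card, Fintype.card_fin, Nat.card_coe_set_eq] at h1
  have h2 : n ≤ 2 ^ (k + 1) := by
    have := Nat.lt_two_pow_self (n := k)
    rw [pow_succ]
    omega
  have h3 : 2 ^ (k + 1) = n + (2 ^ (k + 1) - n) := by omega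
  rw [h3, pow_add, hn0, zero_mul]

theorem nil_bound {R : Type*} [CommRing R] [Finite R] (h2 : (2 : R) = 0) {k : ℕ}
    (hk : {x : R | x ^ 2 = 0}.ncard ≤ k) : Nat.card (nilradical R) ≤ k ^ (k + 1) := by
  refine le_trans ?_ (frob_bound h2 hk (k + 1))
  rw [← Nat.card_coe_set_eq]
  refine Nat.card_le_card_of_injective (fun x : nilradical R =>
    (⟨(x : R), nil_index hk (mem_nilradical.mp x.2)⟩ : {x : R | x ^ (2 ^ (k + 1)) = 0})) ?_
  intro x y hxy
  exact Subtype.ext (congrArg (fun z : {x : R | x ^ (2 ^ (k + 1)) = 0} => (z : R)) hxy)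

universe u

theorem exists_prod (R : Type u) [CommRing R] [Finite R] [IsReduced R] :
    ∃ (ι : Type u) (_ : Fintype ι) (F : ι → Type u) (_ : ∀ i, Field (F i)),
      Nonempty (R ≃+* ∀ i, F i) := by
  classical
  have : Fintype (MaximalSpectrum R) := Fintype.ofFinite _
  let inst : ∀ I : MaximalSpectrum R, Field (R ⧸ I.asIdeal) := fun I =>
    Ideal.Quotient.field I.asIdeal
  exact ⟨MaximalSpectrum R, this, fun I => R ⧸ I.asIdeal, inst,
    ⟨(IsArtinianRing.equivPi R).toRingEquiv⟩⟩

theorem exists_section {R S : Type*} [CommRing R] [CommRing S] (h2 : (2 : R) = 0)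
    (h2' : (2 : S) = 0) (π : R →+* S) (hπ : Function.Surjective π) :
    ∃ σ : S →+ R, ∀ x, π (σ x) = x := by
  let _ : Module (ZMod 2) R := AddCommGroup.zmodModule (n := 2) (fun x => by
    rw [two_nsmul, ← two_mul, h2, zero_mul])
  let _ : Module (ZMod 2) S := AddCommGroup.zmodModule (n := 2) (fun x => by
    rw [two_nsmul, ← two_mul, h2', zero_mul])
  obtain ⟨σ, hσ⟩ := LinearMap.exists_rightInverse_of_surjective
    (AddMonoidHom.toZModLinearMap 2 (π : R →+ S)) (by
      rw [LinearMap.range_eq_top]; exact hπ)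
  exact ⟨σ.toAddMonoidHom, fun x => LinearMap.congr_fun hσ x⟩

/-- **Label half**: a finite commutative ring of characteristic two with a label system, a bounded
set of square roots of zero and boundedly many idempotents has bounded size. -/
theorem label_half {R : Type u} [CommRing R] [Finite R] (h2 : (2 : R) = 0) {m k K : ℕ}
    (hm : 1 ≤ m) (L : LabSys R m) (hk : {x : R | x ^ 2 = 0}.ncard ≤ k)
    (hK : {e : R | e * e = e}.ncard ≤ K) :
    Nat.card R ≤ k ^ (k + 1) * (((m * (k ^ (k + 1)) ^ 7) ^ 12 +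
      (m * (k ^ (k + 1)) ^ 7) ^ 4 * ((m * (k ^ (k + 1)) ^ 7) ^ 12) ^ K) ^ K) := by
  classical
  have hk1 : 1 ≤ k := by
    refine le_trans ?_ hk
    rw [Nat.one_le_iff_ne_zero, ← Nat.pos_iff_ne_zero, Set.ncard_pos (Set.toFinite _)]
    exact ⟨0, by show (0 : R) ^ 2 = 0; ring⟩
  set n := k ^ (k + 1) with hn
  have hn1 : 1 ≤ n := Nat.one_le_pow _ _ hk1
  set m' := m * n ^ 7 with hm'
  have hm'1 : 1 ≤ m' := Nat.one_le_iff_ne_zero.mpr (by positivity)
  have hred : IsReduced (R ⧸ nilradical R) :=
    (Ideal.isRadical_iff_quotient_reduced _).mp (Ideal.radical_isRadical _)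
  have hfq : Finite (R ⧸ nilradical R) :=
    Finite.of_surjective (Ideal.Quotient.mk (nilradical R)) Ideal.Quotient.mk_surjective
  obtain ⟨ι, hι, F, hF, ⟨e⟩⟩ := exists_prod (R ⧸ nilradical R)
  set π : R →+* (∀ i, F i) := (e : (R ⧸ nilradical R) →+* (∀ i, F i)).comp
    (Ideal.Quotient.mk (nilradical R)) with hπ
  have hπs : Function.Surjective π :=
    e.surjective.comp Ideal.Quotient.mk_surjective
  have hfin : Finite (∀ i, F i) := Finite.of_surjective π hπs
  have hfinF : ∀ i, Finite (F i) := fun i =>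
    Finite.of_surjective (fun x : (∀ i, F i) => x i) (fun c => ⟨Pi.single i c, by simp⟩)
  have h2S : (2 : ∀ i, F i) = 0 := by
    have := congrArg π h2
    rwa [map_ofNat, map_zero] at this
  have h2F : ∀ i, (2 : F i) = 0 := fun i => by
    have := congrFun h2S i
    simpa using this
  have hkerπ : RingHom.ker π = nilradical R := by
    ext x
    rw [RingHom.mem_ker, hπ, RingHom.comp_apply]
    constructor
    · intro h
      have h' : e (Ideal.Quotient.mk (nilradical R) x) = 0 := h
      rw [map_eq_zero_iff e e.injective] at h'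
      exact Ideal.Quotient.eq_zero_iff_mem.mp h'
    · intro h
      rw [Ideal.Quotient.eq_zero_iff_mem.mpr h, map_zero]
  have hker : Nat.card (RingHom.ker π) ≤ n := by
    rw [hkerπ]; exact nil_bound h2 hk
  obtain ⟨σ, hσ⟩ := exists_section h2 h2S π hπs
  obtain ⟨L'⟩ := labsys_push hm hn1 π σ hσ hker L
  -- number of factors
  have hιK : Fintype.card ι ≤ K := by
    have hlift : ∀ A : Finset ι, ∃ e' : R, IsIdempotentElem e' ∧
        π e' = fun i => if i ∈ A then 1 else 0 := by
      intro A
      refine exists_isIdempotentElem_eq_of_ker_isNilpotent π ?_ _ (hπs _) ?_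
      · intro x hx
        rw [hkerπ] at hx
        exact mem_nilradical.mp hx
      · funext i
        by_cases hi : i ∈ A
        · simp [hi]
        · simp [hi]
    choose lift hl1 hl2 using hlift
    have hinj : Function.Injective (fun A : Finset ι =>
        (⟨lift A, hl1 A⟩ : {e : R | e * e = e})) := by
      intro A B hAB
      have h1 : lift A = lift B := congrArg Subtype.val hAB
      have h3 := congrArg π h1
      rw [hl2, hl2] at h3
      ext i
      have h4 := congrFun h3 i
      by_cases hA : i ∈ A <;> by_cases hB : i ∈ B <;> simp [hA, hB] at h4 ⊢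
    have h1 := Nat.card_le_card_of_injective _ hinj
    rw [Nat.card_coe_set_eq, Nat.card_eq_fintype_card, Fintype.card_finset] at h1
    exact (Nat.lt_two_pow_self.le.trans h1).trans hK
  set t := m' ^ 12 with ht
  have ht1 : 1 ≤ t := Nat.one_le_pow _ _ hm'1
  -- small part
  have hsmall : {y : ∀ i, F i | ∀ j, m' ^ 12 < Nat.card (F j) → y j = 0}.ncard ≤ t ^ K := by
    have hej : ∀ j, ∃ e : F j → Fin t, ∀ a b, e a = e b →
        (t < Nat.card (F j) → a = 0 ∧ b = 0) → a = b := by
      intro j
      by_cases hj : t < Nat.card (F j)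
      · exact ⟨fun _ => ⟨0, ht1⟩, fun a b _ h => (h hj).1.trans (h hj).2.symm⟩
      · have hle : Nat.card (F j) ≤ t := not_lt.mp hj
        let e0 := Finite.equivFin (F j)
        exact ⟨fun a => Fin.castLE hle (e0 a), fun a b hab _ =>
          e0.injective (Fin.castLE_injective hle hab)⟩
    choose ej hej using hej
    have hinj : Function.Injective (fun y : {y : ∀ i, F i | ∀ j, m' ^ 12 < Nat.card (F j) →
        y j = 0} => (fun j => ej j ((y : ∀ i, F i) j) : ι → Fin t)) := by
      intro y z hyz
      apply Subtype.ext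
      funext j
      exact hej j _ _ (congrFun hyz j) (fun hj => ⟨y.2 j hj, z.2 j hj⟩)
    have h1 := Nat.card_le_card_of_injective _ hinj
    rw [Nat.card_coe_set_eq, Nat.card_eq_fintype_card, Fintype.card_fun, Fintype.card_fin] at h1
    exact h1.trans (Nat.pow_le_pow_right ht1 hιK)
  by_contra hbig
  push Not at hbig
  set N := m' ^ 12 + m' ^ 4 * t ^ K with hN
  have hN1 : 1 ≤ N := le_trans ht1 (Nat.le_add_right _ _)
  refine no_labels_prod hm'1 h2F L' hsmall ?_
  by_contra hcon
  push Not at hcon
  have hS : Nat.card (∀ i, F i) ≤ N ^ K := by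
    rw [Nat.card_pi]
    calc ∏ i, Nat.card (F i) ≤ ∏ _i : ι, N := Finset.prod_le_prod' (fun i _ => hcon i)
      _ = N ^ Fintype.card ι := by rw [Finset.prod_const, Finset.card_univ]
      _ ≤ N ^ K := Nat.pow_le_pow_right hN1 hιK
  have hR : Nat.card R = Nat.card (RingHom.ker π) * Nat.card (∀ i, F i) := by
    have h1 := AddSubgroup.card_mul_index (π : R →+ (∀ i, F i)).ker
    rw [AddSubgroup.index_ker, AddMonoidHom.range_eq_top.mpr hπs] at h1
    rw [← h1]
    congr 1
    exact Nat.card_congr (AddSubgroup.topEquiv (G := ∀ i, F i)).toEquiv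
  have : Nat.card R ≤ n * N ^ K := by
    rw [hR]; exact Nat.mul_le_mul hker hS
  omega

end Helper78MF
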