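import Pool.Agent.helper78.MF.CoreA
import Pool.Agent.helper78.MF.LabE

/-! # MF_CoreB: labels on the exact ring (end game of MP_141f81_co).  Author: helper78. -/

namespace Helper78MF

universe u

/-- Operators `L` on `U`, an almost multiplicative family `M` on `G`, comparison maps and labels. -/
structure Ops (U : Type*) [AddCommGroup U] [Finite U] {G : Type u} [AddCommGroup G] [Finite G]
    (c m : ℕ) (q : ℕ → ℕ) (L : U → U →+ U) (M : G → U →+ U) (one : G) where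
  fam : Fam c q M one
  m1 : 1 ≤ m
  U1 : AddSubgroup U
  hU1 : U1.index ≤ m
  ι : U →+ G
  p : G →+ U
  pι : ∀ u ∈ U1, p (ι u) = u
  hG1 : (ι.comp p + AddMonoidHom.id G).ker.index ≤ m
  near : ∀ u ∈ U1, Sml c (M (ι u) + L u)
  Ladd : ∀ u v, Sml c (L (u + v) + (L u + L v))
  Lsmall : ∀ B, {u : U | Sml B (L u)}.ncard ≤ q B
  φ : U →+ U
  g : U →+ U
  s : U →+ U
  Θ : U →+ U
  Z : U →+ U
  kφ : Nat.card φ.ker ≤ 2 ^ c
  kφ1 : Nat.card (φ + AddMonoidHom.id U).ker ≤ 2 ^ c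
  kg : Nat.card g.ker ≤ 2 ^ c
  ks : Nat.card s.ker ≤ 2 ^ c
  kΘ : Nat.card Θ.ker ≤ 2 ^ c
  kZ : Nat.card Z.ker ≤ 2 ^ c
  hφ : ∀ u ∈ U1, Sml c (L (φ u) + (L u).comp (L u))
  hg : ∀ u ∈ U1, Sml c (g.comp (L u) + (L (g u)).comp g)
  hs : ∀ u ∈ U1, Sml c (s.comp (L u) + (L (s u)).comp s)
  hΘ : ∀ u ∈ U1, Sml c (Θ.comp (L u) + L (Θ u))
  hZ : ∀ u ∈ U1, Sml c (Z.comp (L u) + L (Z u))
  r1 : Sml c (g.comp Θ + Z.comp (Θ.comp g))
  r2 : Sml c (s.comp (Θ.comp (Θ.comp Θ)) + Θ.comp s)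
  r3 : Sml c (Z.comp Z + Z + AddMonoidHom.id U)

theorem exists_sec {G R : Type*} [AddCommGroup G] [AddCommGroup R] (h2 : ∀ x : G, x + x = 0)
    (κ : G →+ R) (hκ : Function.Surjective κ) : ∃ s : R →+ G, ∀ r, κ (s r) = r := by
  have h2' : ∀ r : R, r + r = 0 := by
    intro r
    obtain ⟨x, rfl⟩ := hκ r
    rw [← map_add, h2, map_zero]
  let _ : Module (ZMod 2) G := AddCommGroup.zmodModule (n := 2) (fun x => by
    rw [two_nsmul, h2])
  let _ : Module (ZMod 2) R := AddCommGroup.zmodModule (n := 2) (fun x => by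
    rw [two_nsmul, h2'])
  obtain ⟨σ, hσ⟩ := LinearMap.exists_rightInverse_of_surjective
    (AddMonoidHom.toZModLinearMap 2 κ) (by
      rw [LinearMap.range_eq_top]; exact hκ)
  exact ⟨σ.toAddMonoidHom, fun x => LinearMap.congr_fun hσ x⟩

theorem inf_list {U : Type*} [AddCommGroup U] [Finite U] {C : AddSubgroup U} {n : ℕ}
    (hC : C.index ≤ n) (l : List (U →+ U)) :
    ∃ P : AddSubgroup U, P.index ≤ n ^ l.length ∧ ∀ u ∈ P, ∀ f ∈ l, f u ∈ C := by
  induction l with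
  | nil => exact ⟨⊤, by rw [AddSubgroup.index_top]; simp, by simp⟩
  | cons f l ih =>
    obtain ⟨P, hP, hPl⟩ := ih
    refine ⟨P ⊓ C.comap f, ?_, ?_⟩
    · rw [List.length_cons, pow_succ]
      exact idx_inf hP (idx_comap f hC)
    · intro u hu f' hf'
      rcases List.mem_cons.mp hf' with rfl | h
      · exact (AddSubgroup.mem_inf.mp hu).2
      · exact hPl u (AddSubgroup.mem_inf.mp hu).1 f' h

section Step

variable {U : Type*} [AddCommGroup U] [Finite U] {G : Type u} [AddCommGroup G] [Finite G]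
  {c m : ℕ} {q : ℕ → ℕ} {L : U → U →+ U} {M : G → U →+ U} {one : G}

theorem semi_step (h2 : ∀ x : U, x + x = 0) {f : U →+ U} (kf : Nat.card f.ker ≤ 2 ^ c)
    {U1 : AddSubgroup U} (hf : ∀ u ∈ U1, Sml c (f.comp (L u) + (L (f u)).comp f)) {B : ℕ}
    {x y w : U} (hx : x ∈ U1) (hy : y ∈ U1) (hw : w ∈ U1)
    (h : Sml B ((L x).comp (L y) + L w)) :
    Sml (B + 4 * c) ((L (f x)).comp (L (f y)) + L (f w)) := by
  have h1 : Sml c (((L (f x)).comp (L (f y))).comp f + (L (f x)).comp (f.comp (L y))) := by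
    have := sml_left (L (f x)) (sml_symm (hf y hy))
    rwa [AddMonoidHom.comp_add, ← AddMonoidHom.comp_assoc] at this
  have h3 : Sml c ((L (f x)).comp (f.comp (L y)) + f.comp ((L x).comp (L y))) := by
    have := sml_right (L y) (sml_symm (hf x hx))
    rwa [AddMonoidHom.add_comp, AddMonoidHom.comp_assoc, AddMonoidHom.comp_assoc] at this
  have h4 : Sml B (f.comp ((L x).comp (L y)) + f.comp (L w)) := by
    have := sml_left f h
    rwa [AddMonoidHom.comp_add] at this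
  have h5 : Sml c (f.comp (L w) + (L (f w)).comp f) := hf w hw
  have h6 := sml_trans h2 h1 (sml_trans h2 h3 (sml_trans h2 h4 h5))
  rw [← AddMonoidHom.add_comp] at h6
  exact sml_mono (by omega) (sml_cancel kf h6)

theorem lin_step (h2 : ∀ x : U, x + x = 0) {f : U →+ U}
    {U1 : AddSubgroup U} (hf : ∀ u ∈ U1, Sml c (f.comp (L u) + L (f u))) {B : ℕ}
    {x y w : U} (hx : x ∈ U1) (hw : w ∈ U1)
    (h : Sml B ((L x).comp (L y) + L w)) :
    Sml (B + 4 * c) ((L (f x)).comp (L y) + L (f w)) := by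
  have h1 : Sml c ((L (f x)).comp (L y) + f.comp ((L x).comp (L y))) := by
    have := sml_right (L y) (sml_symm (hf x hx))
    rwa [AddMonoidHom.add_comp, AddMonoidHom.comp_assoc] at this
  have h4 : Sml B (f.comp ((L x).comp (L y)) + f.comp (L w)) := by
    have := sml_left f h
    rwa [AddMonoidHom.comp_add] at this
  exact sml_mono (by omega) (sml_trans h2 h1 (sml_trans h2 h4 (hf w hw)))

end Step

section RingStep

variable {U : Type*} [AddCommGroup U] [Finite U] {G : Type u} [AddCommGroup G] [Finite G]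
  {c m : ℕ} {q : ℕ → ℕ} {L : U → U →+ U} {M : G → U →+ U} {one : G}
  {R : Type u} [CommRing R] [Finite R] {κ : G →+ R} {β : ℕ}

theorem add_self_R (h2R : (2 : R) = 0) (x : R) : x + x = 0 := by
  rw [← two_mul, h2R, zero_mul]

theorem sub_eq_add_R (h2R : (2 : R) = 0) (x y : R) : x - y = x + y := by
  have := add_self_R h2R y
  rw [sub_eq_add_neg, neg_eq_of_add_eq_zero_left this]

theorem k1 (h : Fam c q M one) (h2R : (2 : R) = 0)
    (hmul : ∀ a b x : G, Sml c ((M a).comp (M b) + M x) → κ a * κ b = κ x) {B : ℕ} {a b x : G}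
    (hx : Sml B ((M a).comp (M b) + M x)) :
    ∃ t : G, κ x - κ a * κ b = κ t ∧ Sml (B + 2 * c) (M t) := by
  obtain ⟨y, hy⟩ := h.tot a b
  refine ⟨x + y, ?_, ?_⟩
  · rw [hmul a b y hy, map_add, sub_eq_add_R h2R]
  · exact sml_mono (by omega) (fam_add h (sml_trans h.twoU (sml_symm hx) hy))

theorem k2 (h : Fam c q M one) (hβ : ∀ f ∈ κ.ker, Sml β (M f)) (h2R : (2 : R) = 0)
    (hmul : ∀ a b x : G, Sml c ((M a).comp (M b) + M x) → κ a * κ b = κ x) {a b x : G}
    (hx : κ a * κ b = κ x) : Sml (β + 2 * c) ((M a).comp (M b) + M x) := by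
  obtain ⟨y, hy⟩ := h.tot a b
  have h1 := hmul a b y hy
  rw [hx] at h1
  have h3 : y + x ∈ κ.ker := by
    rw [AddMonoidHom.mem_ker, map_add, h1, add_self_R h2R]
  have h4 := fam_add' h (hβ _ h3)
  exact sml_mono (by omega) (sml_trans h.twoU hy h4)

/-- the label map on the ring -/
def lab (O : Ops U c m q L M one) (κ : G →+ R) (σ : R →+ G) (f : U →+ U) : R →+ R :=
  κ.comp (O.ι.comp (f.comp (O.p.comp σ)))

/-- the domain of the label map -/
def dom (O : Ops U c m q L M one) (σ : R →+ G) (f : U →+ U) : AddSubgroup R :=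
  ((O.ι.comp O.p + AddMonoidHom.id G).ker.comap σ ⊓ O.U1.comap (O.p.comp σ)) ⊓
    O.U1.comap (f.comp (O.p.comp σ))

theorem mem_dom (O : Ops U c m q L M one) {σ : R →+ G} {f : U →+ U} {r : R} :
    r ∈ dom O σ f ↔ O.ι (O.p (σ r)) = σ r ∧ O.p (σ r) ∈ O.U1 ∧ f (O.p (σ r)) ∈ O.U1 := by
  have hG : (O.ι.comp O.p + AddMonoidHom.id G) (σ r) = 0 ↔ O.ι (O.p (σ r)) = σ r := by
    show O.ι (O.p (σ r)) + σ r = 0 ↔ _
    constructor
    · intro h
      have h3 := O.fam.two (σ r)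
      rw [← h3] at h
      exact add_right_cancel h
    · intro h
      rw [h, O.fam.two]
  unfold dom
  rw [AddSubgroup.mem_inf, AddSubgroup.mem_inf, AddSubgroup.mem_comap, AddSubgroup.mem_comap,
    AddSubgroup.mem_comap, AddMonoidHom.mem_ker, hG, and_assoc]
  rfl

theorem dom_idx (O : Ops U c m q L M one) (σ : R →+ G) (f : U →+ U) :
    (dom O σ f).index ≤ m ^ 3 := by
  refine le_trans (idx_inf (idx_inf (idx_comap σ O.hG1) (idx_comap (O.p.comp σ) O.hU1))
    (idx_comap (f.comp (O.p.comp σ)) O.hU1)) (le_of_eq (by ring))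

theorem lab_ker (O : Ops U c m q L M one) {σ : R →+ G} (hσ : ∀ r, κ (σ r) = r) {Q : ℕ}
    (hQ : Nat.card κ.ker ≤ Q) {f : U →+ U} (kf : Nat.card f.ker ≤ 2 ^ c) :
    {r | r ∈ dom O σ f ∧ lab O κ σ f r = 0}.ncard ≤ 2 ^ c * Q := by
  classical
  have h1 := ker_pull (f := fun u : U => f u) (D := ⊤) (k := 2 ^ c)
    (fun a _ b _ => map_add f a b) (by
      refine le_trans ?_ kf
      rw [← Nat.card_coe_set_eq]
      exact Nat.card_le_card_of_injective (fun x : {a | a ∈ (⊤ : AddSubgroup U) ∧ f a = 0} =>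
        (⟨(x : U), x.2.2⟩ : f.ker)) (fun x y hxy =>
          Subtype.ext (congrArg (fun z : f.ker => (z : U)) hxy)))
    (O.p '' (κ.ker : Set G))
  have h3 : (O.p '' (κ.ker : Set G)).ncard ≤ Q := by
    refine (Set.ncard_image_le (Set.toFinite _)).trans ?_
    rw [← Nat.card_coe_set_eq]; exact hQ
  refine le_trans ?_ (h1.trans (Nat.mul_le_mul le_rfl h3))
  refine Set.ncard_le_ncard_of_injOn (fun r => O.p (σ r)) ?_ ?_ (Set.toFinite _)
  · rintro r ⟨hr, hr0⟩
    obtain ⟨e1, e2, e3⟩ := (mem_dom O).mp hr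
    refine ⟨AddSubgroup.mem_top _, ⟨O.ι (f (O.p (σ r))), ?_, O.pι _ e3⟩⟩
    exact hr0
  · rintro r ⟨hr, -⟩ r' ⟨hr', -⟩ hrr
    obtain ⟨e1, -, -⟩ := (mem_dom O).mp hr
    obtain ⟨e1', -, -⟩ := (mem_dom O).mp hr'
    have hrr' : O.p (σ r) = O.p (σ r') := hrr
    have h5 : σ r = σ r' := by rw [← e1, ← e1', hrr']
    rw [← hσ r, ← hσ r', h5]

/-- constants -/
def cB (c β : ℕ) : ℕ := β + 20 * c

/-- main constant -/
def mR (c m : ℕ) (q : ℕ → ℕ) (β Q : ℕ) : ℕ :=
  m ^ 6 + q (cB c β) + 2 ^ c * Q + 3 * 2 ^ c + m * (m * Q) ^ 13 + 1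

theorem lab_semi (O : Ops U c m q L M one) {σ : R →+ G} (hσ : ∀ r, κ (σ r) = r) {Q : ℕ}
    (hQ : Nat.card κ.ker ≤ Q) (hβ : ∀ f ∈ κ.ker, Sml β (M f)) (h2R : (2 : R) = 0)
    (hmul : ∀ a b x : G, Sml c ((M a).comp (M b) + M x) → κ a * κ b = κ x)
    {f : U →+ U} (kf : Nat.card f.ker ≤ 2 ^ c)
    (hf : ∀ u ∈ O.U1, Sml c (f.comp (L u) + (L (f u)).comp f)) :
    Lab (mR c m q β Q) (lab O κ σ f) (lab O κ σ f) (dom O σ f) where
  idx := (dom_idx O σ f).trans (le_trans (Nat.pow_le_pow_right O.m1 (by norm_num : 3 ≤ 6))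
    (by unfold mR; omega))
  add := fun a _ b _ => map_add _ a b
  ker := (lab_ker O hσ hQ kf).trans (by unfold mR; omega)
  mul := by
    intro a ha
    refine ⟨dom O σ f ⊓ (dom O σ f).comap (AddMonoidHom.mulLeft a),
      κ '' {t | Sml (cB c β) (M t)}, inf_le_left, ?_, ?_, ?_⟩
    · refine (idx_inf (dom_idx O σ f) (idx_comap _ (dom_idx O σ f))).trans ?_
      have : m ^ 3 * m ^ 3 = m ^ 6 := by ring
      rw [this]; unfold mR; omega
    · exact ((Set.ncard_image_le (Set.toFinite _)).trans (O.fam.small _)).trans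
        (by unfold mR; omega)
    · intro b hb
      have hb1 : b ∈ dom O σ f := (AddSubgroup.mem_inf.mp hb).1
      have hb2 : a * b ∈ dom O σ f := (AddSubgroup.mem_inf.mp hb).2
      obtain ⟨a1, a2, a3⟩ := (mem_dom O).mp ha
      obtain ⟨b1, b2, b3⟩ := (mem_dom O).mp hb1
      obtain ⟨d1, d2, d3⟩ := (mem_dom O).mp hb2
      refine ⟨hb2, ?_⟩
      set x := O.p (σ a) with hx
      set y := O.p (σ b) with hy
      set w := O.p (σ (a * b)) with hw
      have e1 : κ (O.ι x) * κ (O.ι y) = κ (O.ι w) := by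
        rw [a1, b1, d1, hσ, hσ, hσ]
      have e2 := k2 O.fam hβ h2R hmul e1
      have e3 : Sml (β + 5 * c) ((L x).comp (L y) + L w) := by
        have t1 := sml_mul O.fam.twoU (sml_symm (O.near x a2)) (sml_symm (O.near y b2))
        exact sml_mono (by omega) (sml_trans O.fam.twoU t1
          (sml_trans O.fam.twoU e2 (O.near w d2)))
      have e4 := semi_step O.fam.twoU kf hf a2 b2 d2 e3
      have e5 : Sml (β + 12 * c) ((M (O.ι (f x))).comp (M (O.ι (f y))) + M (O.ι (f w))) := by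
        have t1 := sml_mul O.fam.twoU (O.near _ a3) (O.near _ b3)
        exact sml_mono (by omega) (sml_trans O.fam.twoU t1
          (sml_trans O.fam.twoU e4 (sml_symm (O.near _ d3))))
      obtain ⟨t, ht, htS⟩ := k1 O.fam h2R hmul e5
      exact ⟨t, sml_mono (by unfold cB; omega) htS, ht.symm⟩

theorem lab_linear (O : Ops U c m q L M one) {σ : R →+ G} (hσ : ∀ r, κ (σ r) = r) {Q : ℕ}
    (hQ : Nat.card κ.ker ≤ Q) (hβ : ∀ f ∈ κ.ker, Sml β (M f)) (h2R : (2 : R) = 0)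
    (hmul : ∀ a b x : G, Sml c ((M a).comp (M b) + M x) → κ a * κ b = κ x)
    {f : U →+ U} (kf : Nat.card f.ker ≤ 2 ^ c)
    (hf : ∀ u ∈ O.U1, Sml c (f.comp (L u) + L (f u))) :
    Lab (mR c m q β Q) (lab O κ σ f) (fun x => x) (dom O σ f) where
  idx := (dom_idx O σ f).trans (le_trans (Nat.pow_le_pow_right O.m1 (by norm_num : 3 ≤ 6))
    (by unfold mR; omega))
  add := fun a _ b _ => map_add _ a b
  ker := (lab_ker O hσ hQ kf).trans (by unfold mR; omega)
  mul := by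
    intro a ha
    refine ⟨dom O σ f ⊓ (dom O σ f).comap (AddMonoidHom.mulLeft a),
      κ '' {t | Sml (cB c β) (M t)}, inf_le_left, ?_, ?_, ?_⟩
    · refine (idx_inf (dom_idx O σ f) (idx_comap _ (dom_idx O σ f))).trans ?_
      have : m ^ 3 * m ^ 3 = m ^ 6 := by ring
      rw [this]; unfold mR; omega
    · exact ((Set.ncard_image_le (Set.toFinite _)).trans (O.fam.small _)).trans
        (by unfold mR; omega)
    · intro b hb
      have hb1 : b ∈ dom O σ f := (AddSubgroup.mem_inf.mp hb).1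
      have hb2 : a * b ∈ dom O σ f := (AddSubgroup.mem_inf.mp hb).2
      obtain ⟨a1, a2, a3⟩ := (mem_dom O).mp ha
      obtain ⟨b1, b2, b3⟩ := (mem_dom O).mp hb1
      obtain ⟨d1, d2, d3⟩ := (mem_dom O).mp hb2
      refine ⟨hb2, ?_⟩
      set x := O.p (σ a) with hx
      set y := O.p (σ b) with hy
      set w := O.p (σ (a * b)) with hw
      have e1 : κ (O.ι x) * κ (O.ι y) = κ (O.ι w) := by
        rw [a1, b1, d1, hσ, hσ, hσ]
      have e2 := k2 O.fam hβ h2R hmul e1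
      have e3 : Sml (β + 5 * c) ((L x).comp (L y) + L w) := by
        have t1 := sml_mul O.fam.twoU (sml_symm (O.near x a2)) (sml_symm (O.near y b2))
        exact sml_mono (by omega) (sml_trans O.fam.twoU t1
          (sml_trans O.fam.twoU e2 (O.near w d2)))
      have e4 := lin_step O.fam.twoU hf a2 d2 e3
      have e5 : Sml (β + 12 * c) ((M (O.ι (f x))).comp (M (O.ι y)) + M (O.ι (f w))) := by
        have t1 := sml_mul O.fam.twoU (O.near _ a3) (O.near _ b2)
        exact sml_mono (by omega) (sml_trans O.fam.twoU t1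
          (sml_trans O.fam.twoU e4 (sml_symm (O.near _ d3))))
      obtain ⟨t, ht, htS⟩ := k1 O.fam h2R hmul e5
      refine ⟨t, sml_mono (by unfold cB; omega) htS, ?_⟩
      rw [← ht]
      show κ (O.ι (f w)) - κ (O.ι (f x)) * κ (O.ι y) = κ (O.ι (f w)) - κ (O.ι (f x)) * b
      rw [b1, hσ]

end RingStep

end Helper78MF
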