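import Pool.Agent.helper78.MF.CoreB

/-! # MF_CoreC: the label system of the exact ring and the bound for `U` (end game of
MP_141f81_co).  Author: helper78. -/

namespace Helper78MF

universe u

section C

variable {U : Type*} [AddCommGroup U] [Finite U] {G : Type u} [AddCommGroup G] [Finite G]
  {c m : ℕ} {q : ℕ → ℕ} {L : U → U →+ U} {M : G → U →+ U} {one : G}
  {R : Type u} [CommRing R] [Finite R] {κ : G →+ R} {β : ℕ}

/-- the good elements of `U` -/
def goodC (O : Ops U c m q L M one) (κ : G →+ R) (σ : R →+ G) : AddSubgroup U :=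
  O.U1 ⊓ (σ.comp (κ.comp O.ι) + O.ι).ker

theorem mem_goodC (O : Ops U c m q L M one) {σ : R →+ G} {x : U} :
    x ∈ goodC O κ σ ↔ x ∈ O.U1 ∧ σ (κ (O.ι x)) = O.ι x := by
  unfold goodC
  rw [AddSubgroup.mem_inf, AddMonoidHom.mem_ker]
  have : (σ.comp (κ.comp O.ι) + O.ι) x = 0 ↔ σ (κ (O.ι x)) = O.ι x := by
    show σ (κ (O.ι x)) + O.ι x = 0 ↔ _
    constructor
    · intro h
      have h3 := O.fam.two (O.ι x)
      rw [← h3] at h
      exact add_right_cancel h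
    · intro h
      rw [h, O.fam.two]
  rw [this]

theorem goodC_idx (O : Ops U c m q L M one) {σ : R →+ G} (hσ : ∀ r, κ (σ r) = r) {Q : ℕ}
    (hQ : Nat.card κ.ker ≤ Q) (h2R : (2 : R) = 0) : (goodC O κ σ).index ≤ m * Q := by
  refine idx_inf O.hU1 ?_
  rw [AddSubgroup.index_ker]
  refine le_trans ?_ hQ
  refine Nat.card_le_card_of_injective
    (fun x : (σ.comp (κ.comp O.ι) + O.ι).range => (⟨(x : G), ?_⟩ : κ.ker)) ?_
  · obtain ⟨x, y, rfl⟩ := x
    show κ (σ (κ (O.ι y)) + O.ι y) = 0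
    rw [map_add, hσ, add_self_R h2R]
  · intro x y hxy
    exact Subtype.ext (congrArg (fun z : κ.ker => (z : G)) hxy)

theorem lab_good (O : Ops U c m q L M one) {σ : R →+ G} {x : U} (hx : x ∈ goodC O κ σ)
    (f : U →+ U) : lab O κ σ f (κ (O.ι x)) = κ (O.ι (f x)) := by
  obtain ⟨h1, h3⟩ := (mem_goodC O).mp hx
  show κ (O.ι (f (O.p (σ (κ (O.ι x)))))) = _
  rw [h3, O.pι x h1]

theorem dom_good (O : Ops U c m q L M one) {σ : R →+ G} {x : U} (hx : x ∈ goodC O κ σ)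
    {f : U →+ U} (hf : f x ∈ goodC O κ σ) : κ (O.ι x) ∈ dom O σ f := by
  obtain ⟨h1, h3⟩ := (mem_goodC O).mp hx
  obtain ⟨h4, -⟩ := (mem_goodC O).mp hf
  rw [mem_dom, h3, O.pι x h1]
  exact ⟨rfl, h1, h4⟩

theorem labsys_of (O : Ops U c m q L M one) {σ : R →+ G} (hσ : ∀ r, κ (σ r) = r) {Q : ℕ}
    (hQ : Nat.card κ.ker ≤ Q) (hβ : ∀ f ∈ κ.ker, Sml β (M f)) (h2R : (2 : R) = 0)
    (hmul : ∀ a b x : G, Sml c ((M a).comp (M b) + M x) → κ a * κ b = κ x) :
    Nonempty (LabSys R (mR c m q β Q)) := by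
  classical
  obtain ⟨P, hP, hPl⟩ := inf_list (goodC_idx O hσ hQ h2R)
    [AddMonoidHom.id U, O.Θ, O.g, O.Θ.comp O.g, O.Θ.comp O.Θ, O.Θ.comp (O.Θ.comp O.Θ), O.s, O.Z,
      O.g.comp O.Θ, O.Z.comp (O.Θ.comp O.g), O.s.comp (O.Θ.comp (O.Θ.comp O.Θ)), O.Θ.comp O.s,
      O.Z.comp O.Z]
  have hlen : P.index ≤ (m * Q) ^ 13 := hP
  have hPl' : ∀ x ∈ P, x ∈ goodC O κ σ ∧ O.Θ x ∈ goodC O κ σ ∧ O.g x ∈ goodC O κ σ ∧
      O.Θ (O.g x) ∈ goodC O κ σ ∧ O.Θ (O.Θ x) ∈ goodC O κ σ ∧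
      O.Θ (O.Θ (O.Θ x)) ∈ goodC O κ σ ∧ O.s x ∈ goodC O κ σ ∧ O.Z x ∈ goodC O κ σ ∧
      O.g (O.Θ x) ∈ goodC O κ σ ∧ O.Z (O.Θ (O.g x)) ∈ goodC O κ σ ∧
      O.s (O.Θ (O.Θ (O.Θ x))) ∈ goodC O κ σ ∧ O.Θ (O.s x) ∈ goodC O κ σ ∧
      O.Z (O.Z x) ∈ goodC O κ σ := by
    intro x hx
    have h := hPl x hx
    simp only [List.mem_cons, List.not_mem_nil, or_false, forall_eq_or_imp, forall_eq] at h
    exact h
  set D : AddSubgroup R := (O.ι.comp O.p + AddMonoidHom.id G).ker.comap σ ⊓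
    P.comap (O.p.comp σ) with hD
  have hDi : D.index ≤ m * (m * Q) ^ 13 :=
    idx_inf (idx_comap σ O.hG1) (idx_comap (O.p.comp σ) hlen)
  have hrep : ∀ r ∈ D, ∃ x ∈ P, r = κ (O.ι x) := by
    intro r hr
    obtain ⟨h1, h3⟩ := AddSubgroup.mem_inf.mp hr
    have h4 : O.ι (O.p (σ r)) = σ r := by
      have h5 : O.ι (O.p (σ r)) + σ r = 0 := h1
      have h6 := O.fam.two (σ r)
      rw [← h6] at h5
      exact add_right_cancel h5
    exact ⟨O.p (σ r), h3, by rw [h4, hσ]⟩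
  set E : Set R := (fun x : U => κ (O.ι x)) '' ((((O.g.comp O.Θ + O.Z.comp (O.Θ.comp O.g)).range :
      AddSubgroup U) : Set U) ∪ (((O.s.comp (O.Θ.comp (O.Θ.comp O.Θ)) + O.Θ.comp O.s).range :
      AddSubgroup U) : Set U) ∪ (((O.Z.comp O.Z + O.Z + AddMonoidHom.id U).range :
      AddSubgroup U) : Set U)) with hE
  have hEc : E.ncard ≤ 3 * 2 ^ c := by
    have t1 : (((O.g.comp O.Θ + O.Z.comp (O.Θ.comp O.g)).range : AddSubgroup U) :
        Set U).ncard ≤ 2 ^ c := by rw [← Nat.card_coe_set_eq]; exact O.r1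
    have t2 : (((O.s.comp (O.Θ.comp (O.Θ.comp O.Θ)) + O.Θ.comp O.s).range : AddSubgroup U) :
        Set U).ncard ≤ 2 ^ c := by rw [← Nat.card_coe_set_eq]; exact O.r2
    have t3 : (((O.Z.comp O.Z + O.Z + AddMonoidHom.id U).range : AddSubgroup U) :
        Set U).ncard ≤ 2 ^ c := by rw [← Nat.card_coe_set_eq]; exact O.r3
    refine (Set.ncard_image_le (Set.toFinite _)).trans ?_
    refine (Set.ncard_union_le _ _).trans ?_
    have t4 := Set.ncard_union_le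
      (((O.g.comp O.Θ + O.Z.comp (O.Θ.comp O.g)).range : AddSubgroup U) : Set U)
      (((O.s.comp (O.Θ.comp (O.Θ.comp O.Θ)) + O.Θ.comp O.s).range : AddSubgroup U) : Set U)
    omega
  have hm1 : mR c m q β Q = mR c m q β Q := rfl
  refine ⟨{
    g := lab O κ σ O.g
    s := lab O κ σ O.s
    Θ := lab O κ σ O.Θ
    Z := lab O κ σ O.Z
    Dg := dom O σ O.g
    Ds := dom O σ O.s
    Dθ := dom O σ O.Θ
    Dz := dom O σ O.Z
    D := D
    E := E
    hg := lab_semi O hσ hQ hβ h2R hmul O.kg O.hg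
    hs := lab_semi O hσ hQ hβ h2R hmul O.ks O.hs
    hθ := lab_linear O hσ hQ hβ h2R hmul O.kΘ O.hΘ
    hz := lab_linear O hσ hQ hβ h2R hmul O.kZ O.hZ
    hD := hDi.trans (by unfold mR; omega)
    hE := hEc.trans (by unfold mR; omega)
    r1 := ?_
    r2 := ?_
    r3 := ?_ }⟩
  · intro r hr
    obtain ⟨x, hx, rfl⟩ := hrep r hr
    obtain ⟨c0, c1, c2, c3, c4, c5, c6, c7, c8, c9, c10, c11, c12⟩ := hPl' x hx
    rw [lab_good O c0, lab_good O c0, lab_good O c1, lab_good O c2, lab_good O c3]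
    refine ⟨dom_good O c0 c1, dom_good O c1 c8, dom_good O c0 c2, dom_good O c2 c3,
      dom_good O c3 c9, ⟨O.g (O.Θ x) + O.Z (O.Θ (O.g x)), Or.inl (Or.inl ⟨x, rfl⟩), ?_⟩⟩
    show κ (O.ι (O.g (O.Θ x) + O.Z (O.Θ (O.g x)))) = _
    rw [map_add, map_add, sub_eq_add_R h2R]
  · intro r hr
    obtain ⟨x, hx, rfl⟩ := hrep r hr
    obtain ⟨c0, c1, c2, c3, c4, c5, c6, c7, c8, c9, c10, c11, c12⟩ := hPl' x hx
    rw [lab_good O c0, lab_good O c0, lab_good O c1, lab_good O c4, lab_good O c5,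
      lab_good O c6]
    refine ⟨dom_good O c0 c1, dom_good O c1 c4, dom_good O c4 c5, dom_good O c5 c10,
      dom_good O c0 c6, dom_good O c6 c11,
      ⟨O.s (O.Θ (O.Θ (O.Θ x))) + O.Θ (O.s x), Or.inl (Or.inr ⟨x, rfl⟩), ?_⟩⟩
    show κ (O.ι (O.s (O.Θ (O.Θ (O.Θ x))) + O.Θ (O.s x))) = _
    rw [map_add, map_add, sub_eq_add_R h2R]
  · intro r hr
    obtain ⟨x, hx, rfl⟩ := hrep r hr
    obtain ⟨c0, c1, c2, c3, c4, c5, c6, c7, c8, c9, c10, c11, c12⟩ := hPl' x hx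
    rw [lab_good O c0, lab_good O c7]
    refine ⟨dom_good O c0 c7, dom_good O c7 c12,
      ⟨O.Z (O.Z x) + O.Z x + x, Or.inr ⟨x, rfl⟩, ?_⟩⟩
    show κ (O.ι (O.Z (O.Z x) + O.Z x + x)) = _
    rw [map_add, map_add, map_add, map_add]

/-- the subgroup of `R` represented by `U1` -/
def dom1 (O : Ops U c m q L M one) (σ : R →+ G) : AddSubgroup R :=
  (O.ι.comp O.p + AddMonoidHom.id G).ker.comap σ ⊓ O.U1.comap (O.p.comp σ)

theorem dom1_rep (O : Ops U c m q L M one) {σ : R →+ G} (hσ : ∀ r, κ (σ r) = r) {r : R}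
    (hr : r ∈ dom1 O σ) : O.p (σ r) ∈ O.U1 ∧ r = κ (O.ι (O.p (σ r))) := by
  obtain ⟨h1, h3⟩ := AddSubgroup.mem_inf.mp hr
  have h4 : O.ι (O.p (σ r)) = σ r := by
    have h5 : O.ι (O.p (σ r)) + σ r = 0 := h1
    have h6 := O.fam.two (σ r)
    rw [← h6] at h5
    exact add_right_cancel h5
  exact ⟨h3, by rw [h4, hσ]⟩

theorem card_sub_le {R : Type*} [AddCommGroup R] [Finite R] (N D : AddSubgroup R) {d k : ℕ}
    (hD : D.index ≤ d) (hk : Nat.card (N ⊓ D : AddSubgroup R) ≤ k) : Nat.card N ≤ k * d := by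
  have h1 := AddSubgroup.card_mul_index (D.addSubgroupOf N)
  have h3 : (D.addSubgroupOf N).index ≤ d := by
    have h0 : D.relIndex ⊤ ≠ 0 := by
      rw [AddSubgroup.relIndex_top_right]; exact AddSubgroup.index_ne_zero_of_finite
    have := AddSubgroup.relIndex_le_of_le_right (H := D) (le_top : N ≤ ⊤) h0
    rw [AddSubgroup.relIndex_top_right] at this
    exact this.trans hD
  have h4 : Nat.card (D.addSubgroupOf N) ≤ k := by
    refine le_trans ?_ hk
    refine Nat.card_le_card_of_injective (fun x : D.addSubgroupOf N =>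
      (⟨((x : N) : R), AddSubgroup.mem_inf.mpr ⟨(x : N).2, x.2⟩⟩ : (N ⊓ D : AddSubgroup R))) ?_
    intro x y hxy
    apply Subtype.ext
    apply Subtype.ext
    exact congrArg (fun z : (N ⊓ D : AddSubgroup R) => (z : R)) hxy
  rw [← h1]
  exact Nat.mul_le_mul h4 h3

/-- General bound for the kernel of `x ↦ x ^ 2 + δ x`, `δ ∈ {0, 1}`. -/
theorem quad_bound (O : Ops U c m q L M one) {σ : R →+ G} (hσ : ∀ r, κ (σ r) = r)
    (N : AddSubgroup R) (ψ : U →+ U) (hψ : Nat.card ψ.ker ≤ 2 ^ c) {B : ℕ}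
    (hN : ∀ x ∈ O.U1, κ (O.ι x) ∈ N → Sml B (L (ψ x))) :
    Nat.card N ≤ 2 ^ c * q B * (m * m) := by
  classical
  refine card_sub_le N (dom1 O σ) (idx_inf (idx_comap σ O.hG1) (idx_comap _ O.hU1)) ?_
  have h1 := ker_pull (f := fun x : U => ψ x) (D := ⊤) (k := 2 ^ c)
    (fun a _ b _ => map_add ψ a b) (by
      refine le_trans ?_ hψ
      rw [← Nat.card_coe_set_eq]
      exact Nat.card_le_card_of_injective (fun x : {a | a ∈ (⊤ : AddSubgroup U) ∧ ψ a = 0} =>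
        (⟨(x : U), x.2.2⟩ : ψ.ker)) (fun x y hxy =>
          Subtype.ext (congrArg (fun z : ψ.ker => (z : U)) hxy)))
    {v : U | Sml B (L v)}
  refine le_trans ?_ (h1.trans (Nat.mul_le_mul le_rfl (O.Lsmall B)))
  rw [← Nat.card_coe_set_eq]
  refine Nat.card_le_card_of_injective (fun r : (N ⊓ dom1 O σ : AddSubgroup R) =>
    (⟨O.p (σ (r : R)), AddSubgroup.mem_top _, ?_⟩ :
      {a | a ∈ (⊤ : AddSubgroup U) ∧ ψ a ∈ {v : U | Sml B (L v)}})) ?_
  · obtain ⟨hr1, hr2⟩ := AddSubgroup.mem_inf.mp r.2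
    obtain ⟨e1, e2⟩ := dom1_rep O hσ hr2
    refine hN _ e1 ?_
    rw [← e2]; exact hr1
  · intro r r' hrr
    have h3 : O.p (σ (r : R)) = O.p (σ (r' : R)) := congrArg (fun z :
      {a | a ∈ (⊤ : AddSubgroup U) ∧ ψ a ∈ {v : U | Sml B (L v)}} => (z : U)) hrr
    obtain ⟨-, e2⟩ := dom1_rep O hσ (AddSubgroup.mem_inf.mp r.2).2
    obtain ⟨-, e2'⟩ := dom1_rep O hσ (AddSubgroup.mem_inf.mp r'.2).2
    apply Subtype.ext
    rw [e2, e2', h3]

theorem nil_sq (O : Ops U c m q L M one) {σ : R →+ G} (hσ : ∀ r, κ (σ r) = r)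
    (hβ : ∀ f ∈ κ.ker, Sml β (M f)) (h2R : (2 : R) = 0)
    (hmul : ∀ a b x : G, Sml c ((M a).comp (M b) + M x) → κ a * κ b = κ x) :
    {x : R | x ^ 2 = 0}.ncard ≤ 2 ^ c * q (cB c β) * (m * m) := by
  classical
  have h1 := quad_bound O hσ (sqHom h2R).ker O.φ O.kφ (B := cB c β) (by
    intro x hx hxN
    have h3 : κ (O.ι x) ^ 2 = 0 := hxN
    have h4 : κ (O.ι x) * κ (O.ι x) = κ 0 := by rw [map_zero, ← sq]; exact h3
    have h5 := k2 O.fam hβ h2R hmul h4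
    have h6 := sml_add h5 (fam_zero O.fam)
    have e6 : (M (O.ι x)).comp (M (O.ι x)) + M 0 + M 0 = (M (O.ι x)).comp (M (O.ι x)) := by
      rw [add_assoc, end_add_self O.fam.twoU, add_zero]
    rw [e6] at h6
    have h7 := sml_mul O.fam.twoU (sml_symm (O.near x hx)) (sml_symm (O.near x hx))
    have h8 := sml_add (O.hφ x hx) (sml_add h7 h6)
    have e : L (O.φ x) + (L x).comp (L x) + ((L x).comp (L x) +
        (M (O.ι x)).comp (M (O.ι x)) + (M (O.ι x)).comp (M (O.ι x))) = L (O.φ x) := by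
      calc _ = L (O.φ x) + ((L x).comp (L x) + (L x).comp (L x)) +
            ((M (O.ι x)).comp (M (O.ι x)) + (M (O.ι x)).comp (M (O.ι x))) := by abel
        _ = _ := by simp only [end_add_self O.fam.twoU, add_zero]
    rw [e] at h8
    exact sml_mono (by unfold cB; omega) h8)
  rw [← Nat.card_coe_set_eq]
  exact h1

theorem idem_sq (O : Ops U c m q L M one) {σ : R →+ G} (hσ : ∀ r, κ (σ r) = r)
    (hβ : ∀ f ∈ κ.ker, Sml β (M f)) (h2R : (2 : R) = 0)
    (hmul : ∀ a b x : G, Sml c ((M a).comp (M b) + M x) → κ a * κ b = κ x) :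
    {x : R | x * x = x}.ncard ≤ 2 ^ c * q (cB c β) * (m * m) := by
  classical
  have h1 := quad_bound O hσ (sqHom h2R + AddMonoidHom.id R).ker (O.φ + AddMonoidHom.id U)
    O.kφ1 (B := cB c β) (by
    intro x hx hxN
    have h3 : κ (O.ι x) ^ 2 + κ (O.ι x) = 0 := hxN
    have h4 : κ (O.ι x) * κ (O.ι x) = κ (O.ι x) := by
      rw [← sq]
      have h5 := add_self_R h2R (κ (O.ι x))
      rw [← h5] at h3
      exact add_right_cancel h3
    have h5 := k2 O.fam hβ h2R hmul h4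
    have h7 := sml_mul O.fam.twoU (sml_symm (O.near x hx)) (sml_symm (O.near x hx))
    have h8 := sml_trans O.fam.twoU (O.hφ x hx) (sml_trans O.fam.twoU h7
      (sml_trans O.fam.twoU h5 (O.near x hx)))
    have h9 := sml_add (O.Ladd (O.φ x) x) h8
    have e9 : L (O.φ x + x) + (L (O.φ x) + L x) + (L (O.φ x) + L x) = L (O.φ x + x) := by
      rw [add_assoc, end_add_self O.fam.twoU, add_zero]
    rw [e9] at h9
    exact sml_mono (by unfold cB; omega) h9)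
  rw [← Nat.card_coe_set_eq]
  refine le_trans (Nat.card_le_card_of_injective (fun x : {x : R | x * x = x} =>
    (⟨(x : R), ?_⟩ : (sqHom h2R + AddMonoidHom.id R).ker)) ?_) h1
  · show (x : R) ^ 2 + (x : R) = 0
    have hx : (x : R) * x = x := x.2
    rw [sq, hx, add_self_R h2R]
  · intro x y hxy
    exact Subtype.ext (congrArg (fun z : (sqHom h2R + AddMonoidHom.id R).ker => (z : R)) hxy)

end C

/-- the bound of `label_half` -/
def lhB (m k K : ℕ) : ℕ := k ^ (k + 1) * (((m * (k ^ (k + 1)) ^ 7) ^ 12 +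
      (m * (k ^ (k + 1)) ^ 7) ^ 4 * ((m * (k ^ (k + 1)) ^ 7) ^ 12) ^ K) ^ K)

/-- the final bound -/
def coreB (c m : ℕ) (q : ℕ → ℕ) : ℕ :=
  m * (qiF c q * lhB (mR c m q (betaF c q) (qiF c q))
    (2 ^ c * q (cB c (betaF c q)) * (m * m)) (2 ^ c * q (cB c (betaF c q)) * (m * m)))

/-- **Core theorem**: operators with labels and an almost multiplicative family exist only on
bounded groups. -/
theorem core_bound {U : Type*} [AddCommGroup U] [Finite U] {G : Type u} [AddCommGroup G]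
    [Finite G] {c m : ℕ} {q : ℕ → ℕ} {L : U → U →+ U} {M : G → U →+ U} {one : G}
    (O : Ops U c m q L M one) : Nat.card U ≤ coreB c m q := by
  classical
  obtain ⟨R, _, _, κ, hκ, h2R, hQ, hβ, hmul⟩ := ring_of O.fam
  obtain ⟨σ, hσ⟩ := exists_sec O.fam.two κ hκ
  obtain ⟨LS⟩ := labsys_of O hσ hQ hβ h2R hmul
  have hR := label_half h2R (by unfold mR; omega) LS (nil_sq O hσ hβ h2R hmul)
    (idem_sq O hσ hβ h2R hmul)
  -- card U
  have h1 : Nat.card U ≤ m * Nat.card G := by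
    have h3 := AddSubgroup.card_mul_index O.U1
    have h4 : Nat.card O.U1 ≤ Nat.card G := by
      refine Nat.card_le_card_of_injective (fun x : O.U1 => O.ι (x : U)) ?_
      intro x y hxy
      have := congrArg O.p hxy
      rw [O.pι _ x.2, O.pι _ y.2] at this
      exact Subtype.ext this
    rw [← h3, mul_comm m]
    exact Nat.mul_le_mul h4 O.hU1
  have h3 : Nat.card G ≤ qiF c q * Nat.card R := by
    have h4 := AddSubgroup.card_mul_index κ.ker
    rw [AddSubgroup.index_ker] at h4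
    rw [← h4]
    refine Nat.mul_le_mul hQ ?_
    exact Nat.card_le_card_of_injective (fun x : κ.range => (x : R)) Subtype.val_injective
  unfold coreB
  refine h1.trans (Nat.mul_le_mul le_rfl (h3.trans (Nat.mul_le_mul le_rfl ?_)))
  exact hR

end Helper78MF
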