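import Pool.Agent.helper78.MF.CoreC

/-! # MF_CoreD: from the output of the glue (operators `L` on `U`, product rules on a subgroup `W`)
and the total extension to `Ops` (end game of MP_141f81_co).  Author: helper78. -/

namespace Helper78MF

/-- number of elements of the range -/
noncomputable def rk {U V : Type*} [AddCommGroup U] [AddCommGroup V] (f : U →+ V) : ℕ :=
  Nat.card f.range

theorem rk_sml {U : Type*} [AddCommGroup U] {f : U →+ U} {C : ℕ} (h : rk f ≤ C) : Sml C f :=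
  le_trans h (Nat.lt_two_pow_self (n := C)).le

/-- The data delivered by the glue: `L` is almost additive on `U`; on a subgroup `W` of bounded
index the operators commute, products are partially defined, and the labels obey their rules. -/
structure EndData (U : Type) [AddCommGroup U] [Finite U] (C : ℕ) (q : ℕ → ℕ) where
  two : ∀ u : U, u + u = 0
  L : U → U →+ U
  W : AddSubgroup U
  hW : W.index ≤ C
  add : ∀ u v, rk (L (u + v) + (L u + L v)) ≤ C
  comm : ∀ u ∈ W, ∀ v ∈ W, rk ((L u).comp (L v) + (L v).comp (L u)) ≤ C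
  dom : ∀ u ∈ W, ∃ D : AddSubgroup U, D ≤ W ∧ D.index ≤ C ∧ ∀ v ∈ D, ∃ x ∈ W,
    rk ((L u).comp (L v) + L x) ≤ C
  small : ∀ b, {u : U | rk (L u) ≤ b}.ncard ≤ q b
  φ : U →+ U
  g : U →+ U
  s : U →+ U
  Θ : U →+ U
  Z : U →+ U
  kφ : Nat.card φ.ker ≤ C
  kφ1 : Nat.card (φ + AddMonoidHom.id U).ker ≤ C
  kg : Nat.card g.ker ≤ C
  ks : Nat.card s.ker ≤ C
  kΘ : Nat.card Θ.ker ≤ C
  kZ : Nat.card Z.ker ≤ C
  hφ : ∀ u ∈ W, rk (L (φ u) + (L u).comp (L u)) ≤ C
  hg : ∀ u ∈ W, rk (g.comp (L u) + (L (g u)).comp g) ≤ C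
  hs : ∀ u ∈ W, rk (s.comp (L u) + (L (s u)).comp s) ≤ C
  hΘ : ∀ u ∈ W, rk (Θ.comp (L u) + L (Θ u)) ≤ C
  hZ : ∀ u ∈ W, rk (Z.comp (L u) + L (Z u)) ≤ C
  r1 : rk (g.comp Θ + Z.comp (Θ.comp g)) ≤ C
  r2 : rk (s.comp (Θ.comp (Θ.comp Θ)) + Θ.comp s) ≤ C
  r3 : rk (Z.comp Z + Z + AddMonoidHom.id U) ≤ C

/-- the extended family -/
noncomputable def Lx {X U : Type*} [AddCommGroup X] [AddCommGroup U] (L : X → U →+ U)
    (A : AddSubgroup X) {k : ℕ} (mm : Fin k → U →+ U) (p : A × (Fin k → ZMod 2)) : U →+ U :=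
  L p.1 + ∑ i, (p.2 i).val • mm i

/-- **T1 + T2** (helper3, helper62): total extension. -/
def StmtTot : Prop := ∀ C : ℕ, ∃ N : ℕ, ∀ (X U : Type) [AddCommGroup X] [Finite X]
    [AddCommGroup U] [Finite U] (L : X → U →+ U),
    (∀ x : X, x + x = 0) → (∀ u : U, u + u = 0) →
    (∀ x y, rk (L (x + y) + (L x + L y)) ≤ C) →
    (∀ x, ∃ D : AddSubgroup X, D.index ≤ C ∧ ∀ v ∈ D, ∃ y, rk ((L x).comp (L v) + L y) ≤ C) →
    (∀ x y, rk ((L x).comp (L y) + (L y).comp (L x)) ≤ C) →
    ∃ (A : AddSubgroup X) (k : ℕ) (mm : Fin k → U →+ U), A.index ≤ N ∧ k ≤ N ∧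
      (∀ a b : A × (Fin k → ZMod 2), ∃ d, rk ((Lx L A mm a).comp (Lx L A mm b) + Lx L A mm d) ≤ N) ∧
      (∀ a b : A × (Fin k → ZMod 2),
        rk ((Lx L A mm a).comp (Lx L A mm b) + (Lx L A mm b).comp (Lx L A mm a)) ≤ N)

section Scalars

variable {U : Type*} [AddCommGroup U]

theorem val_smul_add (h2 : ∀ u : U, u + u = 0) (e e' : ZMod 2) (f : U →+ U) :
    (e + e').val • f = e.val • f + e'.val • f := by
  have hf : f + f = 0 := by ext x; exact h2 (f x)
  have h : ∀ e e' : ZMod 2, (e + e').val • f = e.val • f + e'.val • f := by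
    intro e e'
    fin_cases e <;> fin_cases e'
    · show ((0 : ZMod 2) + 0).val • f = (0 : ZMod 2).val • f + (0 : ZMod 2).val • f
      simp
    · show ((0 : ZMod 2) + 1).val • f = (0 : ZMod 2).val • f + (1 : ZMod 2).val • f
      simp
    · show ((1 : ZMod 2) + 0).val • f = (1 : ZMod 2).val • f + (0 : ZMod 2).val • f
      simp
    · show ((1 : ZMod 2) + 1).val • f = (1 : ZMod 2).val • f + (1 : ZMod 2).val • f
      have h11 : ((1 : ZMod 2) + 1).val = 0 := by decide
      have h1 : (1 : ZMod 2).val = 1 := by decide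
      rw [h11, h1, one_nsmul, hf, zero_nsmul]
  exact h e e'

theorem sum_smul_add (h2 : ∀ u : U, u + u = 0) {k : ℕ} (e e' : Fin k → ZMod 2)
    (mm : Fin k → U →+ U) :
    ∑ i, ((e + e') i).val • mm i = ∑ i, (e i).val • mm i + ∑ i, (e' i).val • mm i := by
  rw [← Finset.sum_add_distrib]
  exact Finset.sum_congr rfl (fun i _ => val_smul_add h2 _ _ _)

end Scalars

section Build

variable {X U : Type} [AddCommGroup X] [Finite X] [AddCommGroup U] [Finite U]

/-- the family with the identity adjoined -/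
noncomputable def Mx (L : X → U →+ U) (A : AddSubgroup X) {k : ℕ} (mm : Fin k → U →+ U)
    (p : (A × (Fin k → ZMod 2)) × ZMod 2) : U →+ U :=
  Lx L A mm p.1 + p.2.val • AddMonoidHom.id U

theorem Lx_add {c : ℕ} (h2U : ∀ u : U, u + u = 0) {L : X → U →+ U} (A : AddSubgroup X) {k : ℕ}
    (mm : Fin k → U →+ U) (hadd : ∀ x y, Sml c (L (x + y) + (L x + L y)))
    (a b : A × (Fin k → ZMod 2)) :
    Sml c (Lx L A mm (a + b) + (Lx L A mm a + Lx L A mm b)) := by
  have e : Lx L A mm (a + b) + (Lx L A mm a + Lx L A mm b) =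
      L ((a.1 : X) + (b.1 : X)) + (L a.1 + L b.1) := by
    unfold Lx
    rw [Prod.snd_add, sum_smul_add h2U, Prod.fst_add, AddSubgroup.coe_add]
    set S := ∑ i, (a.2 i).val • mm i
    set T := ∑ i, (b.2 i).val • mm i
    calc L ((a.1 : X) + b.1) + (S + T) + (L a.1 + S + (L b.1 + T))
        = L ((a.1 : X) + b.1) + (L a.1 + L b.1) + (S + S) + (T + T) := by abel
      _ = _ := by rw [end_add_self h2U, end_add_self h2U, add_zero, add_zero]
  rw [e]
  exact hadd _ _

theorem Mx_add {c : ℕ} (h2U : ∀ u : U, u + u = 0) {L : X → U →+ U} (A : AddSubgroup X) {k : ℕ}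
    (mm : Fin k → U →+ U) (hadd : ∀ x y, Sml c (L (x + y) + (L x + L y)))
    (a b : (A × (Fin k → ZMod 2)) × ZMod 2) :
    Sml c (Mx L A mm (a + b) + (Mx L A mm a + Mx L A mm b)) := by
  have e : Mx L A mm (a + b) + (Mx L A mm a + Mx L A mm b) =
      Lx L A mm (a.1 + b.1) + (Lx L A mm a.1 + Lx L A mm b.1) := by
    unfold Mx
    rw [Prod.snd_add, val_smul_add h2U, Prod.fst_add]
    set S := a.2.val • AddMonoidHom.id U
    set T := b.2.val • AddMonoidHom.id U
    calc Lx L A mm (a.1 + b.1) + (S + T) + (Lx L A mm a.1 + S + (Lx L A mm b.1 + T))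
        = Lx L A mm (a.1 + b.1) + (Lx L A mm a.1 + Lx L A mm b.1) + (S + S) + (T + T) := by abel
      _ = _ := by rw [end_add_self h2U, end_add_self h2U, add_zero, add_zero]
  rw [e]
  exact Lx_add h2U A mm hadd _ _

theorem Mx_comm {c : ℕ} {L : X → U →+ U} (h2U : ∀ u : U, u + u = 0) (A : AddSubgroup X) {k : ℕ}
    (mm : Fin k → U →+ U)
    (hcomm : ∀ a b : A × (Fin k → ZMod 2),
        Sml c ((Lx L A mm a).comp (Lx L A mm b) + (Lx L A mm b).comp (Lx L A mm a)))
    (a b : (A × (Fin k → ZMod 2)) × ZMod 2) :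
    Sml c ((Mx L A mm a).comp (Mx L A mm b) + (Mx L A mm b).comp (Mx L A mm a)) := by
  have hid : ∀ (n : ℕ) (f : U →+ U), (n • AddMonoidHom.id U).comp f = n • f := by
    intro n f; ext x; simp
  have hid' : ∀ (n : ℕ) (f : U →+ U), f.comp (n • AddMonoidHom.id U) = n • f := by
    intro n f; ext x; simp
  have e : (Mx L A mm a).comp (Mx L A mm b) + (Mx L A mm b).comp (Mx L A mm a) =
      (Lx L A mm a.1).comp (Lx L A mm b.1) + (Lx L A mm b.1).comp (Lx L A mm a.1) := by
    unfold Mx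
    simp only [AddMonoidHom.add_comp, AddMonoidHom.comp_add, hid, hid', smul_add]
    set P := Lx L A mm a.1
    set Q := Lx L A mm b.1
    set I := AddMonoidHom.id U
    have hc : a.2.val • b.2.val • I = b.2.val • a.2.val • I := smul_comm _ _ _
    rw [hc]
    calc _ = P.comp Q + Q.comp P + (b.2.val • P + b.2.val • P) +
          (a.2.val • Q + a.2.val • Q) +
          (b.2.val • a.2.val • I + b.2.val • a.2.val • I) := by abel
      _ = _ := by simp only [end_add_self h2U, add_zero]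
  rw [e]
  exact hcomm _ _

theorem zmod2_cases (e : ZMod 2) : e = 0 ∨ e = 1 := by
  fin_cases e
  · exact Or.inl rfl
  · exact Or.inr rfl

theorem Mx_zero {L : X → U →+ U} (A : AddSubgroup X) {k : ℕ} (mm : Fin k → U →+ U)
    (a : A × (Fin k → ZMod 2)) : Mx L A mm (a, 0) = Lx L A mm a := by
  unfold Mx
  have h0 : (0 : ZMod 2).val = 0 := by decide
  show Lx L A mm a + (0 : ZMod 2).val • AddMonoidHom.id U = _
  rw [h0, zero_nsmul, add_zero]

theorem Mx_one {L : X → U →+ U} (A : AddSubgroup X) {k : ℕ} (mm : Fin k → U →+ U)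
    (a : A × (Fin k → ZMod 2)) : Mx L A mm (a, 1) = Lx L A mm a + AddMonoidHom.id U := by
  unfold Mx
  have h0 : (1 : ZMod 2).val = 1 := by decide
  show Lx L A mm a + (1 : ZMod 2).val • AddMonoidHom.id U = _
  rw [h0, one_nsmul]

theorem Mx_tot {c c' : ℕ} (h2U : ∀ u : U, u + u = 0) {L : X → U →+ U} (A : AddSubgroup X) {k : ℕ}
    (mm : Fin k → U →+ U) (hadd : ∀ x y, Sml c (L (x + y) + (L x + L y)))
    (htot : ∀ a b : A × (Fin k → ZMod 2), ∃ d,
      Sml c' ((Lx L A mm a).comp (Lx L A mm b) + Lx L A mm d))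
    (a b : (A × (Fin k → ZMod 2)) × ZMod 2) :
    ∃ d, Sml (c' + 2 * c) ((Mx L A mm a).comp (Mx L A mm b) + Mx L A mm d) := by
  obtain ⟨a, ε⟩ := a
  obtain ⟨b, δ⟩ := b
  obtain ⟨d, hd⟩ := htot a b
  have hA := Lx_add h2U A mm hadd
  set P := Lx L A mm a with hP
  set Q := Lx L A mm b with hQ
  rcases zmod2_cases ε with rfl | rfl <;> rcases zmod2_cases δ with rfl | rfl
  · refine ⟨(d, 0), ?_⟩
    rw [Mx_zero, Mx_zero, Mx_zero]
    exact sml_mono (by omega) hd
  · refine ⟨(d + a, 0), ?_⟩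
    rw [Mx_zero, Mx_one, Mx_zero, AddMonoidHom.comp_add, AddMonoidHom.comp_id]
    have h1 := sml_add hd (hA d a)
    have e : P.comp Q + Lx L A mm d + (Lx L A mm (d + a) + (Lx L A mm d + Lx L A mm a)) =
        P.comp Q + P + Lx L A mm (d + a) := by
      calc _ = P.comp Q + P + Lx L A mm (d + a) + (Lx L A mm d + Lx L A mm d) := by
            rw [← hP]; abel
        _ = _ := by rw [end_add_self h2U, add_zero]
    rw [e] at h1
    exact sml_mono (by omega) h1
  · refine ⟨(d + b, 0), ?_⟩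
    rw [Mx_zero, Mx_one, Mx_zero, AddMonoidHom.add_comp, AddMonoidHom.id_comp]
    have h1 := sml_add hd (hA d b)
    have e : P.comp Q + Lx L A mm d + (Lx L A mm (d + b) + (Lx L A mm d + Lx L A mm b)) =
        P.comp Q + Q + Lx L A mm (d + b) := by
      calc _ = P.comp Q + Q + Lx L A mm (d + b) + (Lx L A mm d + Lx L A mm d) := by
            rw [← hQ]; abel
        _ = _ := by rw [end_add_self h2U, add_zero]
    rw [e] at h1
    exact sml_mono (by omega) h1
  · refine ⟨(d + a + b, 1), ?_⟩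
    rw [Mx_one, Mx_one, Mx_one, AddMonoidHom.add_comp, AddMonoidHom.id_comp,
      AddMonoidHom.comp_add, AddMonoidHom.comp_id]
    have h1 := sml_add (sml_add hd (hA d a)) (hA (d + a) b)
    have e : P.comp Q + Lx L A mm d + (Lx L A mm (d + a) + (Lx L A mm d + Lx L A mm a)) +
        (Lx L A mm (d + a + b) + (Lx L A mm (d + a) + Lx L A mm b)) =
        P.comp Q + P + (Q + AddMonoidHom.id U) + (Lx L A mm (d + a + b) + AddMonoidHom.id U) := by
      rw [← hP, ← hQ]
      calc _ = P.comp Q + P + Q + Lx L A mm (d + a + b) + (Lx L A mm d + Lx L A mm d) +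
            (Lx L A mm (d + a) + Lx L A mm (d + a)) := by abel
        _ = P.comp Q + P + Q + Lx L A mm (d + a + b) +
            (AddMonoidHom.id U + AddMonoidHom.id U) := by
            simp only [end_add_self h2U, add_zero]
        _ = _ := by abel
    rw [e] at h1
    exact sml_mono (by omega) h1

/-- counting the small elements of the extended family -/
theorem Mx_small {c N : ℕ} {q : ℕ → ℕ} (h2X : ∀ x : X, x + x = 0) (h2U : ∀ u : U, u + u = 0)
    {L : X → U →+ U} (A : AddSubgroup X) {k : ℕ} (hk : k ≤ N)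
    (mm : Fin k → U →+ U) (hadd : ∀ x y, Sml c (L (x + y) + (L x + L y)))
    (hsm : ∀ B, {x : X | Sml B (L x)}.ncard ≤ q B) (B : ℕ) :
    {a : (A × (Fin k → ZMod 2)) × ZMod 2 | Sml B (Mx L A mm a)}.ncard ≤
      2 ^ (N + 1) * q (2 * B + c) := by
  classical
  -- base points
  have hb : ∀ t : (Fin k → ZMod 2) × ZMod 2, ∃ x₀ : A, ∀ x : A, Sml B (Mx L A mm ((x, t.1), t.2)) →
      Sml B (Mx L A mm ((x₀, t.1), t.2)) := by
    intro t
    by_cases h : ∃ x₀ : A, Sml B (Mx L A mm ((x₀, t.1), t.2))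
    · obtain ⟨x₀, hx₀⟩ := h
      exact ⟨x₀, fun _ _ => hx₀⟩
    · push Not at h
      exact ⟨0, fun x hx => absurd hx (h x)⟩
  choose x₀ hx₀ using hb
  have hkey : ∀ (x y : A) (e : Fin k → ZMod 2) (t : ZMod 2),
      Sml B (Mx L A mm ((x, e), t)) → Sml B (Mx L A mm ((y, e), t)) →
      Sml (2 * B + c) (L ((x : X) + y)) := by
    intro x y e t hx hy
    have h1 := sml_add (sml_add hx hy) (hadd x y)
    have e1 : Mx L A mm ((x, e), t) + Mx L A mm ((y, e), t) +
        (L ((x : X) + y) + (L x + L y)) = L ((x : X) + y) := by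
      unfold Mx Lx
      show L (x : X) + ∑ i, (e i).val • mm i + t.val • AddMonoidHom.id U +
        (L (y : X) + ∑ i, (e i).val • mm i + t.val • AddMonoidHom.id U) +
        (L ((x : X) + y) + (L x + L y)) = L ((x : X) + y)
      set S := ∑ i, (e i).val • mm i
      set T := t.val • AddMonoidHom.id U
      calc _ = L ((x : X) + y) + (L (x : X) + L (x : X)) + (L (y : X) + L (y : X)) + (S + S) +
            (T + T) := by abel
        _ = _ := by simp only [end_add_self h2U, add_zero]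
    rw [e1] at h1
    exact sml_mono (by omega) h1
  rw [← Nat.card_coe_set_eq]
  have hinj := Nat.card_le_card_of_injective
    (fun a : {a : (A × (Fin k → ZMod 2)) × ZMod 2 | Sml B (Mx L A mm a)} =>
      (((a.1.1.2, a.1.2), ⟨(a.1.1.1 : X) + x₀ (a.1.1.2, a.1.2), by
        have h := a.2
        exact hkey a.1.1.1 (x₀ (a.1.1.2, a.1.2)) a.1.1.2 a.1.2 h
          (hx₀ (a.1.1.2, a.1.2) a.1.1.1 h)⟩) :
        ((Fin k → ZMod 2) × ZMod 2) × {x : X | Sml (2 * B + c) (L x)})) (by
      intro a b hab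
      have e1 := congrArg (fun z : ((Fin k → ZMod 2) × ZMod 2) ×
        {x : X | Sml (2 * B + c) (L x)} => z.1) hab
      have e2 := congrArg (fun z : ((Fin k → ZMod 2) × ZMod 2) ×
        {x : X | Sml (2 * B + c) (L x)} => (z.2 : X)) hab
      simp only at e1 e2
      rw [e1] at e2
      have e3 : (a.1.1.1 : X) = b.1.1.1 := add_right_cancel e2
      have e4 : a.1.1.2 = b.1.1.2 := (Prod.mk.inj e1).1
      have e5 : a.1.2 = b.1.2 := (Prod.mk.inj e1).2
      exact Subtype.ext (Prod.ext (Prod.ext (Subtype.ext e3) e4) e5))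
  rw [Nat.card_prod, Nat.card_coe_set_eq] at hinj
  have hc : Nat.card ((Fin k → ZMod 2) × ZMod 2) = 2 ^ (k + 1) := by
    rw [Nat.card_prod, Nat.card_fun, Nat.card_zmod]
    simp [pow_succ]
  rw [hc] at hinj
  exact hinj.trans (Nat.mul_le_mul (Nat.pow_le_pow_right (by norm_num) (by omega)) (hsm _))

end Build

/-- **End of the end game**: the glue data exist only on groups of bounded size. -/
theorem end_core (hTot : StmtTot) (C : ℕ) (q : ℕ → ℕ) :
    ∃ N₀ : ℕ, ∀ (U : Type) [AddCommGroup U] [Finite U], EndData U C q → Nat.card U ≤ N₀ := by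
  classical
  obtain ⟨N, hN⟩ := hTot C
  set c := C + N + 2 * C + 1 with hc
  set m := N * C + 2 ^ (N + 1) + 1 with hm
  set q' : ℕ → ℕ := fun B => 2 ^ (N + 1) * q (2 ^ (2 * B + C)) + q (2 ^ B) with hq'
  refine ⟨coreB c m q', ?_⟩
  intro U _ _ E
  have two := E.two
  -- total extension over W
  have h2W : ∀ x : E.W, x + x = 0 := fun x => Subtype.ext (two x)
  obtain ⟨A, k, mm, hA, hk, htot, hcomm⟩ := hN E.W U (fun x => E.L x) h2W two
    (fun x y => E.add x y)
    (fun x => by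
      obtain ⟨D, hDW, hDi, hD⟩ := E.dom x x.2
      refine ⟨D.comap E.W.subtype, idx_comap _ hDi, ?_⟩
      intro v hv
      obtain ⟨y, hy, hxy⟩ := hD v hv
      exact ⟨⟨y, hy⟩, hxy⟩)
    (fun x y => E.comm x x.2 y y.2)
  set L' : E.W → U →+ U := fun x => E.L x with hL'
  have hadd : ∀ x y : E.W, Sml C (L' (x + y) + (L' x + L' y)) := fun x y =>
    rk_sml (E.add x y)
  have hsm : ∀ B, {x : E.W | Sml B (L' x)}.ncard ≤ q (2 ^ B) := by
    intro B
    refine le_trans ?_ (E.small (2 ^ B))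
    exact Set.ncard_le_ncard_of_injOn (fun x : E.W => (x : U)) (fun x hx => hx)
      (fun x _ y _ hxy => Subtype.ext hxy) (Set.toFinite _)
  have htot' : ∀ a b : A × (Fin k → ZMod 2), ∃ d,
      Sml N ((Lx L' A mm a).comp (Lx L' A mm b) + Lx L' A mm d) := by
    intro a b
    obtain ⟨d, hd⟩ := htot a b
    exact ⟨d, rk_sml hd⟩
  have hcomm' : ∀ a b : A × (Fin k → ZMod 2),
      Sml N ((Lx L' A mm a).comp (Lx L' A mm b) + (Lx L' A mm b).comp (Lx L' A mm a)) :=
    fun a b => rk_sml (hcomm a b)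
  -- the inclusion of A in U and a retraction
  set j : A →+ U := E.W.subtype.comp A.subtype with hj
  have hjinj : Function.Injective j := by
    intro x y hxy
    exact Subtype.ext (Subtype.ext hxy)
  obtain ⟨ρ, hρ⟩ : ∃ ρ : U →+ A, ∀ x, ρ (j x) = x := by
    have h2A : ∀ x : A, x + x = 0 := fun x => Subtype.ext (h2W x)
    let _ : Module (ZMod 2) U := AddCommGroup.zmodModule (n := 2) (fun x => by
      rw [two_nsmul, two])
    let _ : Module (ZMod 2) A := AddCommGroup.zmodModule (n := 2) (fun x => by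
      rw [two_nsmul, h2A])
    obtain ⟨ρ, hρ⟩ := LinearMap.exists_leftInverse_of_injective
      (AddMonoidHom.toZModLinearMap 2 j) (by
        rw [LinearMap.ker_eq_bot]; exact hjinj)
    exact ⟨ρ.toAddMonoidHom, fun x => LinearMap.congr_fun hρ x⟩
  set ι : U →+ ((A × (Fin k → ZMod 2)) × ZMod 2) :=
    (AddMonoidHom.inl (A × (Fin k → ZMod 2)) (ZMod 2)).comp
      ((AddMonoidHom.inl A (Fin k → ZMod 2)).comp ρ) with hι
  set p : ((A × (Fin k → ZMod 2)) × ZMod 2) →+ U :=
    j.comp ((AddMonoidHom.fst A (Fin k → ZMod 2)).comp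
      (AddMonoidHom.fst (A × (Fin k → ZMod 2)) (ZMod 2))) with hp
  set U1 : AddSubgroup U := A.map E.W.subtype with hU1
  have hU1W : ∀ u ∈ U1, u ∈ E.W := by
    rintro u ⟨x, -, rfl⟩
    exact x.2
  have hU1A : ∀ u ∈ U1, ∃ x : A, j x = u := by
    rintro u ⟨x, hx, rfl⟩
    exact ⟨⟨x, hx⟩, rfl⟩
  have hM0 : ∀ x : A, Mx L' A mm ((x, 0), 0) = L' x := by
    intro x
    rw [Mx_zero]
    unfold Lx
    show L' (x : E.W) + ∑ i, ((0 : Fin k → ZMod 2) i).val • mm i = L' x
    have : ∑ i, ((0 : Fin k → ZMod 2) i).val • mm i = 0 := by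
      apply Finset.sum_eq_zero
      intro i _
      show ((0 : ZMod 2)).val • mm i = 0
      have h0 : (0 : ZMod 2).val = 0 := by decide
      rw [h0, zero_nsmul]
    rw [this, add_zero]
  have small1 : ∀ {f : U →+ U}, Sml C f → Sml c f := fun h => sml_mono (by omega) h
  have h2e : ∀ e : ZMod 2, e + e = 0 := by
    intro e
    rcases zmod2_cases e with rfl | rfl
    · rfl
    · decide
  have k2 : ∀ {f : U →+ U}, Nat.card f.ker ≤ C → Nat.card f.ker ≤ 2 ^ c := fun h =>
    h.trans ((Nat.lt_two_pow_self (n := C)).le.trans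
      (Nat.pow_le_pow_right (by norm_num) (by omega)))
  refine core_bound (G := (A × (Fin k → ZMod 2)) × ZMod 2) (L := E.L)
    (M := Mx L' A mm) (one := (((0 : A), (0 : Fin k → ZMod 2)), (1 : ZMod 2))) {
    fam := {
      two := by
        rintro ⟨⟨x, e⟩, t⟩
        refine Prod.ext (Prod.ext ?_ ?_) (h2e t)
        · exact Subtype.ext (h2W x)
        · funext i; exact h2e (e i)
      twoU := two
      add := fun a b => small1 (Mx_add two A mm hadd a b)
      comm := fun a b => sml_mono (by omega) (Mx_comm two A mm hcomm' a b)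
      tot := fun a b => by
        obtain ⟨d, hd⟩ := Mx_tot two A mm hadd htot' a b
        exact ⟨d, sml_mono (by omega) hd⟩
      one_near := by
        rw [Mx_one]
        have h1 : Lx L' A mm ((0 : A), (0 : Fin k → ZMod 2)) = L' (0 : E.W) := by
          rw [← Mx_zero, hM0]; rfl
        rw [h1, add_assoc, end_add_self two, add_zero]
        have h3 := hadd 0 0
        rw [add_zero, end_add_self two, add_zero] at h3
        exact small1 h3
      small := fun B => (Mx_small h2W two A hk mm hadd hsm B).trans (Nat.le_add_right _ _) }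
    m1 := Nat.le_add_left 1 _
    U1 := U1
    hU1 := ?_
    ι := ι
    p := p
    pι := ?_
    hG1 := ?_
    near := ?_
    Ladd := fun u v => small1 (rk_sml (E.add u v))
    Lsmall := fun B => (E.small (2 ^ B)).trans (Nat.le_add_left _ _)
    φ := E.φ
    g := E.g
    s := E.s
    Θ := E.Θ
    Z := E.Z
    kφ := k2 E.kφ
    kφ1 := k2 E.kφ1
    kg := k2 E.kg
    ks := k2 E.ks
    kΘ := k2 E.kΘ
    kZ := k2 E.kZ
    hφ := fun u hu => small1 (rk_sml (E.hφ u (hU1W u hu)))
    hg := fun u hu => small1 (rk_sml (E.hg u (hU1W u hu)))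
    hs := fun u hu => small1 (rk_sml (E.hs u (hU1W u hu)))
    hΘ := fun u hu => small1 (rk_sml (E.hΘ u (hU1W u hu)))
    hZ := fun u hu => small1 (rk_sml (E.hZ u (hU1W u hu)))
    r1 := small1 (rk_sml E.r1)
    r2 := small1 (rk_sml E.r2)
    r3 := small1 (rk_sml E.r3) }
  · rw [hU1, AddSubgroup.index_map_subtype]
    exact (Nat.mul_le_mul hA E.hW).trans ((Nat.le_add_right _ _).trans (Nat.le_add_right _ _))
  · intro u hu
    obtain ⟨x, rfl⟩ := hU1A u hu
    show j (ρ (j x)) = j x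
    rw [hρ]
  · rw [AddSubgroup.index_ker]
    have hinj := Nat.card_le_card_of_injective
      (fun a : (ι.comp p + AddMonoidHom.id ((A × (Fin k → ZMod 2)) × ZMod 2)).range =>
        ((a.1.1.2, a.1.2) : (Fin k → ZMod 2) × ZMod 2)) (by
        rintro ⟨a, a', rfl⟩ ⟨b, b', rfl⟩ hab
        have ha : ∀ a' : (A × (Fin k → ZMod 2)) × ZMod 2,
            (ι.comp p + AddMonoidHom.id ((A × (Fin k → ZMod 2)) × ZMod 2)) a' =
              ((0, a'.1.2), a'.2) := by
          intro a'
          show ((ρ (j a'.1.1) + a'.1.1, 0 + a'.1.2), 0 + a'.2) = ((0, a'.1.2), a'.2)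
          rw [hρ, zero_add, zero_add]
          have : a'.1.1 + a'.1.1 = 0 := Subtype.ext (h2W a'.1.1)
          rw [this]
        apply Subtype.ext
        have hab' := hab
        simp only [ha] at hab' ⊢
        rw [Prod.mk.injEq] at hab'
        rw [hab'.1, hab'.2])
    have hcd : Nat.card ((Fin k → ZMod 2) × ZMod 2) = 2 ^ (k + 1) := by
      rw [Nat.card_prod, Nat.card_fun, Nat.card_zmod]
      simp [pow_succ]
    rw [hcd] at hinj
    have h3 : 2 ^ (k + 1) ≤ 2 ^ (N + 1) := Nat.pow_le_pow_right (by norm_num) (by omega)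
    exact hinj.trans (h3.trans ((Nat.le_add_left _ _).trans (Nat.le_add_right _ _)))
  · intro u hu
    obtain ⟨x, rfl⟩ := hU1A u hu
    have h1 : ι (j x) = ((x, 0), 0) := by
      show ((ρ (j x), (0 : Fin k → ZMod 2)), (0 : ZMod 2)) = ((x, 0), 0)
      rw [hρ]
    rw [h1, hM0]
    have h3 : L' (x : E.W) = E.L (j x) := rfl
    rw [h3, end_add_self two]
    exact sml_zero _

end Helper78MF
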