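import Pool.Agent.helper78.MF.CoreD
import Pool.Agent.helper3.MF.TotD

/-! # MF_CoreE: the end of the end game, with the total extension of helper3.
Author: helper78. -/

namespace Helper78MF

theorem stmtTot : StmtTot := by
  intro C
  obtain ⟨N, hN⟩ := Pool.Agent.helper3.MF9.tot_ext.{0} C
  refine ⟨N, ?_⟩
  intro X U _ _ _ _ L _ h2U hadd hdom hcomm
  have hyp : Pool.Agent.helper3.MF9.Hyp (D := X) (U := U) L C := by
    refine ⟨h2U, ?_, ?_, ?_⟩
    · intro u u'
      have h := hadd u u'
      rw [← add_assoc] at h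
      exact h
    · intro y
      obtain ⟨D, hD, hDv⟩ := hdom y
      exact ⟨D, hD, fun v hv => hDv v hv⟩
    · intro y v
      exact hcomm y v
  obtain ⟨A, k, m, hA, hk, htot, hcm⟩ := hN X U L hyp
  exact ⟨A, k, m, hA, hk, htot, hcm⟩

/-- **End of the end game.** -/
theorem end_core' (C : ℕ) (q : ℕ → ℕ) :
    ∃ N₀ : ℕ, ∀ (U : Type) [AddCommGroup U] [Finite U], EndData U C q → Nat.card U ≤ N₀ :=
  end_core stmtTot C q

end Helper78MF
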