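import Mathlib

/-! # MF_LabA: index calculus and the extension lemma for partial homomorphisms of fields
(label half of the end game of MP_141f81_co).  Author: helper78. -/

namespace Helper78MF

section Index

variable {G H : Type*} [AddCommGroup G] [AddCommGroup H]

theorem idx_inf {A B : AddSubgroup G} {a b : ℕ} (hA : A.index ≤ a) (hB : B.index ≤ b) :
    (A ⊓ B).index ≤ a * b :=
  le_trans AddSubgroup.index_inf_le (Nat.mul_le_mul hA hB)

theorem idx_comap [Finite H] (f : G →+ H) {A : AddSubgroup H} {a : ℕ} (hA : A.index ≤ a) :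
    (A.comap f).index ≤ a := by
  rw [AddSubgroup.index_comap]
  have h0 : A.relIndex ⊤ ≠ 0 := by
    rw [AddSubgroup.relIndex_top_right]; exact AddSubgroup.index_ne_zero_of_finite
  have := AddSubgroup.relIndex_le_of_le_right (H := A) (le_top : f.range ≤ ⊤) h0
  rw [AddSubgroup.relIndex_top_right] at this
  exact this.trans hA

theorem idx_ne [Finite G] {A : AddSubgroup G} (h : A.index < Nat.card G) :
    ∃ x ∈ A, x ≠ 0 := by
  by_contra hcon
  push Not at hcon
  have hb : A = ⊥ := by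
    rw [eq_bot_iff]
    intro x hx
    rw [AddSubgroup.mem_bot]
    exact hcon x hx
  rw [hb, AddSubgroup.index_bot] at h
  exact lt_irrefl _ h

/-- A function which is additive on a subgroup, as a homomorphism. -/
def homOn (f : G → H) (A : AddSubgroup G) (hf : ∀ a ∈ A, ∀ b ∈ A, f (a + b) = f a + f b) :
    A →+ H where
  toFun a := f a
  map_zero' := by
    have h := hf 0 A.zero_mem 0 A.zero_mem
    rw [add_zero] at h
    have : f ((0 : A) : G) = 0 := by
      rw [AddSubgroup.coe_zero]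
      exact (left_eq_add.mp h)
    exact this
  map_add' a b := hf a a.2 b b.2

theorem homOn_apply (f : G → H) (A : AddSubgroup G)
    (hf : ∀ a ∈ A, ∀ b ∈ A, f (a + b) = f a + f b) (a : A) : homOn f A hf a = f a := rfl

theorem on_zero {f : G → H} {A : AddSubgroup G} (hf : ∀ a ∈ A, ∀ b ∈ A, f (a + b) = f a + f b) :
    f 0 = 0 := by
  have h := hf 0 A.zero_mem 0 A.zero_mem
  rw [add_zero] at h
  exact (left_eq_add.mp h)

theorem on_sub {f : G → H} {A : AddSubgroup G} (hf : ∀ a ∈ A, ∀ b ∈ A, f (a + b) = f a + f b)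
    {a b : G} (ha : a ∈ A) (hb : b ∈ A) : f (a - b) = f a - f b := by
  have := (homOn f A hf).map_sub ⟨a, ha⟩ ⟨b, hb⟩
  exact this

/-- Counting: `f` additive on `A`, kernel of size at most `k`, `A` of index at most `l`, then the
image of `A` under `π ∘ f` (with `π` surjective) has at least `card Q / (k l)` elements. -/
theorem cnt {Q : Type*} [AddCommGroup Q] [Finite G] [Finite Q] {f : G → G}
    {A : AddSubgroup G} (hf : ∀ a ∈ A, ∀ b ∈ A, f (a + b) = f a + f b) {k l : ℕ}
    (hk : {a | a ∈ A ∧ f a = 0}.ncard ≤ k) (hl : A.index ≤ l) (π : G →+ Q)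
    (hπ : Function.Surjective π) (W : Set Q) (hW : ∀ a ∈ A, π (f a) ∈ W) :
    Nat.card Q ≤ k * l * W.ncard := by
  classical
  set φ : A →+ G := homOn f A hf with hφ
  set ψ : A →+ Q := π.comp φ with hψ
  have hA : Nat.card A * A.index = Nat.card G := AddSubgroup.card_mul_index A
  -- kernel of φ
  have hker : Nat.card φ.ker ≤ k := by
    refine le_trans ?_ hk
    rw [← Nat.card_coe_set_eq]
    refine Nat.card_le_card_of_injective
      (fun x : φ.ker => (⟨((x : A) : G), (x : A).2, x.2⟩ : {a | a ∈ A ∧ f a = 0})) ?_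
    intro x y hxy
    apply Subtype.ext
    apply Subtype.ext
    exact congrArg (fun z : {a | a ∈ A ∧ f a = 0} => (z : G)) hxy
  have h1 : Nat.card A = Nat.card φ.ker * Nat.card φ.range := by
    have := AddSubgroup.card_mul_index φ.ker
    rw [AddSubgroup.index_ker] at this
    exact this.symm
  have h2 : Nat.card G = Nat.card π.ker * Nat.card Q := by
    have := AddSubgroup.card_mul_index π.ker
    rw [AddSubgroup.index_ker, AddMonoidHom.range_eq_top.mpr hπ] at this
    rw [← this]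
    congr 1
    exact (Nat.card_congr (AddSubgroup.topEquiv (G := Q)).toEquiv)
  -- range φ is covered
  have h3 : Nat.card φ.range ≤ W.ncard * Nat.card π.ker := by
    have hcov : ∀ x : φ.range, π (x : G) ∈ W := by
      rintro ⟨x, a, rfl⟩
      exact hW a a.2
    let F : φ.range → W := fun x => ⟨π (x : G), hcov x⟩
    -- choose a base point in each fibre
    have hinj : ∃ e : φ.range → W × π.ker, Function.Injective e := by
      choose s hs using fun w : Q => hπ w
      refine ⟨fun x => (F x, ⟨(x : G) - s (π (x : G)), ?_⟩), ?_⟩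
      · rw [AddMonoidHom.mem_ker, map_sub, hs, sub_self]
      · intro x y hxy
        have e1 : π (x : G) = π (y : G) := congrArg (fun z : W × π.ker => (z.1 : Q)) hxy
        have e2 : (x : G) - s (π (x : G)) = (y : G) - s (π (y : G)) :=
          congrArg (fun z : W × π.ker => (z.2 : G)) hxy
        rw [e1] at e2
        exact Subtype.ext (sub_left_injective e2)
    obtain ⟨e, he⟩ := hinj
    have := Nat.card_le_card_of_injective e he
    rw [Nat.card_prod, Nat.card_coe_set_eq] at this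
    exact this
  have hpos : 0 < Nat.card π.ker := Nat.card_pos
  refine Nat.le_of_mul_le_mul_left ?_ hpos
  calc Nat.card π.ker * Nat.card Q = Nat.card A * A.index := by rw [← h2, hA]
    _ ≤ (k * (W.ncard * Nat.card π.ker)) * l := by
        refine Nat.mul_le_mul ?_ hl
        rw [h1]
        exact Nat.mul_le_mul hker h3
    _ = Nat.card π.ker * (k * l * W.ncard) := by ring

end Index

section Field

variable {K L : Type*} [Field K] [Finite K] [Field L]

/-- Extension lemma for partial homomorphisms of fields. -/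
theorem field_ext {m : ℕ} {D : AddSubgroup K} (hD : D.index ≤ m) {γ : K → L}
    (hadd : ∀ a ∈ D, ∀ b ∈ D, γ (a + b) = γ a + γ b)
    (hmul : ∀ a ∈ D, ∃ A : AddSubgroup K, A ≤ D ∧ A.index ≤ m ∧
      ∀ b ∈ A, a * b ∈ D ∧ γ (a * b) = γ a * γ b)
    (hnv : ∀ B : AddSubgroup K, B.index ≤ m ^ 4 → ∃ b ∈ B, b ∈ D ∧ γ b ≠ 0)
    (hcard : m ^ 4 < Nat.card K) (hm : 1 ≤ m) :
    ∃ τ : K →+* L, ∀ a ∈ D, γ a = τ a := by
  classical
  choose A hAD hAi hAm using hmul
  have m14 : m ≤ m ^ 4 := by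
    calc m = m ^ 1 := (pow_one m).symm
      _ ≤ m ^ 4 := Nat.pow_le_pow_right hm (by norm_num)
  have m24 : m ^ 2 ≤ m ^ 4 := Nat.pow_le_pow_right hm (by norm_num)
  have m34 : m ^ 3 ≤ m ^ 4 := Nat.pow_le_pow_right hm (by norm_num)
  -- multiplication by a nonzero element pulls back subgroups
  have hmc : ∀ (a : K) (B : AddSubgroup K) (n : ℕ), B.index ≤ n →
      (B.comap (AddMonoidHom.mulLeft a)).index ≤ n := fun a B n h => idx_comap _ h
  -- image of a subgroup under multiplication by v, as comap by v⁻¹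
  have hz : γ 0 = 0 := on_zero hadd
  -- step 1: no zeros
  have hne : ∀ v (hv : v ∈ D), v ≠ 0 → γ v ≠ 0 := by
    intro v hv hv0 hγ
    obtain ⟨x, -, hx, hxne⟩ := hnv ⊤ (by rw [AddSubgroup.index_top]; exact hm.trans m14)
    set B : AddSubgroup K := A x hx ⊓
      ((A v hv).comap (AddMonoidHom.mulLeft v⁻¹)).comap (AddMonoidHom.mulLeft x) with hB
    have hBi : B.index ≤ m ^ 4 := by
      refine le_trans (idx_inf (hAi x hx) (hmc _ _ m (hmc _ _ m (hAi v hv)))) ?_
      calc m * m = m ^ 2 := by ring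
        _ ≤ m ^ 4 := m24
    obtain ⟨b, hb, hbD, hbne⟩ := hnv B hBi
    have hb1 : b ∈ A x hx := (AddSubgroup.mem_inf.mp hb).1
    have hb2 : v⁻¹ * (x * b) ∈ A v hv := (AddSubgroup.mem_inf.mp hb).2
    have e1 := (hAm x hx b hb1).2
    have e2 := (hAm v hv _ hb2).2
    rw [mul_inv_cancel_left₀ hv0, hγ, zero_mul, e1] at e2
    exact mul_ne_zero hxne hbne e2
  -- step 2: independence
  have hind : ∀ r v v₀ : K, v ∈ D → v₀ ∈ D → r * v ∈ D → r * v₀ ∈ D →
      γ (r * v) * γ v₀ = γ (r * v₀) * γ v := by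
    intro r v v₀ hv hv₀ hrv hrv₀
    set B : AddSubgroup K := (A v hv ⊓ A v₀ hv₀) ⊓
      ((A _ hrv).comap (AddMonoidHom.mulLeft v₀) ⊓ (A _ hrv₀).comap (AddMonoidHom.mulLeft v))
      with hB
    have hBi : B.index ≤ m ^ 4 := by
      refine le_trans (idx_inf (idx_inf (hAi v hv) (hAi v₀ hv₀))
        (idx_inf (hmc _ _ m (hAi _ hrv)) (hmc _ _ m (hAi _ hrv₀)))) ?_
      apply le_of_eq; ring
    obtain ⟨u, hu, huD, hune⟩ := hnv B hBi
    have hu1 : u ∈ A v hv := (AddSubgroup.mem_inf.mp (AddSubgroup.mem_inf.mp hu).1).1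
    have hu2 : u ∈ A v₀ hv₀ := (AddSubgroup.mem_inf.mp (AddSubgroup.mem_inf.mp hu).1).2
    have hu3 : v₀ * u ∈ A _ hrv := (AddSubgroup.mem_inf.mp (AddSubgroup.mem_inf.mp hu).2).1
    have hu4 : v * u ∈ A _ hrv₀ := (AddSubgroup.mem_inf.mp (AddSubgroup.mem_inf.mp hu).2).2
    have e1 := (hAm _ hrv _ hu3).2
    have e2 := (hAm _ hrv₀ _ hu4).2
    rw [(hAm _ hv₀ _ hu2).2] at e1
    rw [(hAm _ hv _ hu1).2] at e2
    have e3 : r * v * (v₀ * u) = r * v₀ * (v * u) := by ring
    rw [e3, e2] at e1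
    have e4 : (γ (r * v) * γ v₀ - γ (r * v₀) * γ v) * γ u = 0 := by
      linear_combination -e1
    rcases mul_eq_zero.mp e4 with h | h
    · exact sub_eq_zero.mp h
    · exact absurd h hune
  -- step 3: existence of v for up to two multipliers
  have hex : ∀ r r' : K, ∃ v, v ≠ 0 ∧ v ∈ D ∧ r * v ∈ D ∧ r' * v ∈ D := by
    intro r r'
    have hi : ((D ⊓ D.comap (AddMonoidHom.mulLeft r)) ⊓
        D.comap (AddMonoidHom.mulLeft r')).index < Nat.card K := by
      refine lt_of_le_of_lt (idx_inf (idx_inf hD (hmc _ _ m hD)) (hmc _ _ m hD)) ?_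
      refine lt_of_le_of_lt ?_ hcard
      calc m * m * m = m ^ 3 := by ring
        _ ≤ m ^ 4 := m34
    obtain ⟨v, hv, hv0⟩ := idx_ne hi
    have h1 := (AddSubgroup.mem_inf.mp hv)
    have h2 := (AddSubgroup.mem_inf.mp h1.1)
    exact ⟨v, hv0, h2.1, h2.2, h1.2⟩
  have hs : ∀ r : K, ∃ s : L, ∀ v ∈ D, r * v ∈ D → γ (r * v) = s * γ v := by
    intro r
    obtain ⟨v₀, hv0, hv₀, hrv₀, -⟩ := hex r r
    refine ⟨γ (r * v₀) / γ v₀, fun v hv hrv => ?_⟩
    have h1 := hind r v v₀ hv hv₀ hrv hrv₀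
    have h2 := hne v₀ hv₀ hv0
    field_simp
    exact h1
  choose τ hτ using hs
  have huniq : ∀ (r : K) (s : L) (v : K), v ≠ 0 → v ∈ D → r * v ∈ D → γ (r * v) = s * γ v →
      τ r = s := by
    intro r s v hv0 hv hrv h
    have h1 := hτ r v hv hrv
    rw [h] at h1
    exact (mul_right_cancel₀ (hne v hv hv0) h1).symm
  refine ⟨{ toFun := τ, map_one' := ?_, map_mul' := ?_, map_zero' := ?_, map_add' := ?_ }, ?_⟩
  · obtain ⟨v, hv0, hv, -, -⟩ := hex 0 0
    exact huniq 1 1 v hv0 hv (by rwa [one_mul]) (by rw [one_mul, one_mul])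
  · intro r r'
    -- v, r'v, rr'v in D
    obtain ⟨v, hv0, hv, h1, h2⟩ := hex r' (r * r')
    refine huniq (r * r') (τ r * τ r') v hv0 hv h2 ?_
    have e1 := hτ r' v hv h1
    have e2 := hτ r (r' * v) h1 (by rwa [← mul_assoc])
    rw [mul_assoc, e2, e1, mul_assoc]
  · obtain ⟨v, hv0, hv, -, -⟩ := hex 0 0
    refine huniq 0 0 v hv0 hv (by rw [zero_mul]; exact D.zero_mem) ?_
    rw [zero_mul, zero_mul, hz]
  · intro r r'
    obtain ⟨v, hv0, hv, h1, h2⟩ := hex r r'
    refine huniq (r + r') (τ r + τ r') v hv0 hv (by rw [add_mul]; exact D.add_mem h1 h2) ?_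
    rw [add_mul, hadd _ h1 _ h2, hτ r v hv h1, hτ r' v hv h2, add_mul]
  · intro a ha
    show γ a = τ a
    -- choose v in A a
    have hi : (A a ha).index < Nat.card K :=
      lt_of_le_of_lt ((hAi a ha).trans m14) hcard
    obtain ⟨v, hv, hv0⟩ := idx_ne hi
    have h1 := hAm a ha v hv
    exact (huniq a (γ a) v hv0 (hAD a ha hv) h1.1 h1.2).symm

end Field

end Helper78MF
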