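import Pool.Agent.helper78.MF.LabA

/-! # MF_LabB: partial label maps on a finite product of finite fields
(label half of the end game of MP_141f81_co).  Author: helper78. -/

namespace Helper78MF

/-- Label maps with constant `m`: `f` is additive on `D`, near-injective, and for every `a` in `D`
there are a subgroup `A` of bounded index and a bounded set `E` (both may depend on `a`) such that
`f (a b) = f a * h b` up to an error in `E`, for all `b` in `A`. -/
structure Lab {R : Type*} [NonUnitalCommRing R] (m : ℕ) (f h : R → R) (D : AddSubgroup R) : Prop where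
  idx : D.index ≤ m
  add : ∀ a ∈ D, ∀ b ∈ D, f (a + b) = f a + f b
  ker : {a | a ∈ D ∧ f a = 0}.ncard ≤ m
  mul : ∀ a ∈ D, ∃ (A : AddSubgroup R) (E : Set R), A ≤ D ∧ A.index ≤ m ∧ E.ncard ≤ m ∧
    ∀ b ∈ A, a * b ∈ D ∧ f (a * b) - f a * h b ∈ E

theorem cnt0 {G H : Type*} [AddCommGroup G] [AddCommGroup H] [Finite G] [Finite H] {f : G → H}
    {A : AddSubgroup G} (hf : ∀ a ∈ A, ∀ b ∈ A, f (a + b) = f a + f b) {k l : ℕ}
    (hk : {a | a ∈ A ∧ f a = 0}.ncard ≤ k) (hl : A.index ≤ l) (W : Set H)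
    (hW : ∀ a ∈ A, f a ∈ W) : Nat.card G ≤ k * l * W.ncard := by
  classical
  set φ : A →+ H := homOn f A hf with hφ
  have hA : Nat.card A * A.index = Nat.card G := AddSubgroup.card_mul_index A
  have hker : Nat.card φ.ker ≤ k := by
    refine le_trans ?_ hk
    rw [← Nat.card_coe_set_eq]
    refine Nat.card_le_card_of_injective
      (fun x : φ.ker => (⟨((x : A) : G), (x : A).2, x.2⟩ : {a | a ∈ A ∧ f a = 0})) ?_
    intro x y hxy
    apply Subtype.ext
    apply Subtype.ext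
    exact congrArg (fun z : {a | a ∈ A ∧ f a = 0} => (z : G)) hxy
  have h1 : Nat.card A = Nat.card φ.ker * Nat.card φ.range := by
    have := AddSubgroup.card_mul_index φ.ker
    rw [AddSubgroup.index_ker] at this
    exact this.symm
  have h3 : Nat.card φ.range ≤ W.ncard := by
    rw [← Nat.card_coe_set_eq]
    refine Nat.card_le_card_of_injective
      (fun x : φ.range => (⟨(x : H), ?_⟩ : W)) ?_
    · obtain ⟨x, a, rfl⟩ := x
      exact hW a a.2
    · intro x y hxy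
      exact Subtype.ext (congrArg (fun z : W => (z : H)) hxy)
  rw [← hA, h1]
  calc Nat.card φ.ker * Nat.card φ.range * A.index ≤ k * W.ncard * l :=
        Nat.mul_le_mul (Nat.mul_le_mul hker h3) hl
    _ = k * l * W.ncard := by ring

section Prod

variable {ι : Type*} [Fintype ι] [DecidableEq ι] {F : ι → Type*} [∀ i, Field (F i)]
  [∀ i, Finite (F i)]

/-- evaluation at a coordinate -/
abbrev ev (F : ι → Type*) [∀ i, Field (F i)] (j : ι) : (∀ i, F i) →+ F j :=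
  Pi.evalAddMonoidHom F j

omit [Fintype ι] [∀ i, Finite (F i)] in
theorem ev_surj (j : ι) : Function.Surjective (ev F j) := fun c =>
  ⟨Pi.single j c, by simp [ev]⟩

/-- nonvanishing: on a subgroup of small index, the coordinate `j` of a near-injective map does
not vanish. -/
theorem nv {m : ℕ} {f : (∀ i, F i) → ∀ i, F i} {D : AddSubgroup (∀ i, F i)}
    (hidx : D.index ≤ m)
    (hadd : ∀ a ∈ D, ∀ b ∈ D, f (a + b) = f a + f b)
    (hker : {a | a ∈ D ∧ f a = 0}.ncard ≤ m) {j : ι} {n : ℕ} (B : AddSubgroup (∀ i, F i))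
    (hB : B.index ≤ n) (hq : m * (n * m) < Nat.card (F j)) :
    ∃ b ∈ B, b ∈ D ∧ f b j ≠ 0 := by
  by_contra hcon
  push Not at hcon
  have h := cnt (f := f) (A := B ⊓ D) (k := m) (l := n * m)
    (fun a ha b hb => hadd a (AddSubgroup.mem_inf.mp ha).2 b (AddSubgroup.mem_inf.mp hb).2)
    (le_trans (Set.ncard_le_ncard (t := {a | a ∈ D ∧ f a = 0})
      (fun a ha => ⟨(AddSubgroup.mem_inf.mp ha.1).2, ha.2⟩)
      (Set.toFinite _)) hker) (idx_inf hB hidx) (ev F j) (ev_surj j) {0}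
    (fun a ha => by
      have := hcon a (AddSubgroup.mem_inf.mp ha).1 (AddSubgroup.mem_inf.mp ha).2
      simpa [ev] using this)
  rw [Set.ncard_singleton, mul_one] at h
  exact absurd hq (not_lt.mpr h)

/-- Exact label at the coordinate `j`. -/
def Exact (m : ℕ) (f h : (∀ i, F i) → ∀ i, F i) (D : AddSubgroup (∀ i, F i)) (j : ι) : Prop :=
  ∀ a ∈ D, ∃ A : AddSubgroup (∀ i, F i), A ≤ D ∧ A.index ≤ m ∧
    ∀ b ∈ A, a * b ∈ D ∧ f (a * b) j = f a j * h b j

/-- Absorption: errors vanish at the coordinates with a large residue field. -/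
theorem absorb {m : ℕ} {f h : (∀ i, F i) → ∀ i, F i} {D D' : AddSubgroup (∀ i, F i)}
    (hf : Lab m f h D) (hh : Lab m h h D') {j : ι}
    (hq : m ^ 7 < Nat.card (F j)) : Exact (m * m) f h D j := by
  intro a ha
  obtain ⟨A, E₁, hAD, hAi, hE₁, hAm⟩ := hf.mul a ha
  refine ⟨A ⊓ D', fun x hx => hAD (AddSubgroup.mem_inf.mp hx).1, idx_inf hAi hh.idx, ?_⟩
  intro b hb
  have hbA : b ∈ A := (AddSubgroup.mem_inf.mp hb).1
  have hbD' : b ∈ D' := (AddSubgroup.mem_inf.mp hb).2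
  obtain ⟨habD, hab⟩ := hAm b hbA
  refine ⟨habD, ?_⟩
  by_contra hne
  obtain ⟨A₂, E₂, hA₂D, hA₂i, hE₂, hA₂m⟩ := hh.mul b hbD'
  obtain ⟨A₃, E₃, hA₃D, hA₃i, hE₃, hA₃m⟩ := hf.mul (a * b) habD
  set ε : F j := f (a * b) j - f a j * h b j with hε
  have hε0 : ε ≠ 0 := fun h0 => hne (sub_eq_zero.mp h0)
  set B : AddSubgroup (∀ i, F i) := (A₂ ⊓ A.comap (AddMonoidHom.mulLeft b)) ⊓ A₃ with hB
  have hBi : B.index ≤ m * m * m := idx_inf (idx_inf hA₂i (idx_comap _ hAi)) hA₃i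
  set W : Set (F j) := (fun e : (∀ i, F i) × (∀ i, F i) × (∀ i, F i) =>
    ε⁻¹ * (f a j * e.2.1 j + e.1 j - e.2.2 j)) '' (E₁ ×ˢ (E₂ ×ˢ E₃)) with hW
  have hWc : W.ncard ≤ m * (m * m) := by
    refine le_trans (Set.ncard_image_le (Set.toFinite _)) ?_
    rw [Set.ncard_prod, Set.ncard_prod]
    exact Nat.mul_le_mul hE₁ (Nat.mul_le_mul hE₂ hE₃)
  have key := cnt (f := h) (A := B) (k := m) (l := m * m * m)
    (fun x hx y hy => hh.add x
      (hA₂D (AddSubgroup.mem_inf.mp (AddSubgroup.mem_inf.mp hx).1).1) y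
      (hA₂D (AddSubgroup.mem_inf.mp (AddSubgroup.mem_inf.mp hy).1).1))
    (le_trans (Set.ncard_le_ncard (t := {a | a ∈ D' ∧ h a = 0}) (fun x hx =>
      ⟨hA₂D (AddSubgroup.mem_inf.mp (AddSubgroup.mem_inf.mp hx.1).1).1, hx.2⟩)
      (Set.toFinite _)) hh.ker) hBi (ev F j) (ev_surj j) W ?_
  · have : Nat.card (F j) ≤ m ^ 7 := by
      refine key.trans ?_
      calc m * (m * m * m) * W.ncard ≤ m * (m * m * m) * (m * (m * m)) :=
            Nat.mul_le_mul le_rfl hWc
        _ = m ^ 7 := by ring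
    exact absurd hq (not_lt.mpr this)
  · intro c hc
    have hc2 : c ∈ A₂ := (AddSubgroup.mem_inf.mp (AddSubgroup.mem_inf.mp hc).1).1
    have hc1 : b * c ∈ A := (AddSubgroup.mem_inf.mp (AddSubgroup.mem_inf.mp hc).1).2
    have hc3 : c ∈ A₃ := (AddSubgroup.mem_inf.mp hc).2
    have e1 := (hAm _ hc1).2
    have e2 := (hA₂m _ hc2).2
    have e3 := (hA₃m _ hc3).2
    refine ⟨(f (a * (b * c)) - f a * h (b * c), h (b * c) - h b * h c,
      f (a * b * c) - f (a * b) * h c), ⟨e1, e2, e3⟩, ?_⟩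
    show ε⁻¹ * (f a j * (h (b * c) j - h b j * h c j) + (f (a * (b * c)) j - f a j * h (b * c) j)
      - (f (a * b * c) j - f (a * b) j * h c j)) = h c j
    rw [inv_mul_eq_iff_eq_mul₀ hε0, hε, ← mul_assoc a b c]
    ring

/-- `fac`: if `f` does not vanish at `(i, j)`, then `f x j` depends on `x i` only. -/
theorem fac {m : ℕ} {f : (∀ i, F i) → ∀ i, F i} {D : AddSubgroup (∀ i, F i)}
    (hidx : D.index ≤ m) (hadd : ∀ a ∈ D, ∀ b ∈ D, f (a + b) = f a + f b)
    (hker : {a | a ∈ D ∧ f a = 0}.ncard ≤ m) {i j : ι} (hex : Exact m f f D j)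
    (hq : m ^ 4 < Nat.card (F j)) {x₀ : F i} (hx₀ : Pi.single i x₀ ∈ D)
    (hne : f (Pi.single i x₀) j ≠ 0) {d : ∀ i, F i} (hd : d ∈ D) (hdi : d i = 0) :
    f d j = 0 := by
  obtain ⟨A, hAD, hAi, hAm⟩ := hex _ hx₀
  obtain ⟨A₂, hA₂D, hA₂i, hA₂m⟩ := hex _ hd
  obtain ⟨c, hc, hcD, hcne⟩ := nv hidx hadd hker (j := j) (n := m * m)
    (A ⊓ A₂.comap (AddMonoidHom.mulLeft (Pi.single i x₀))) (idx_inf hAi (idx_comap _ hA₂i))
    (lt_of_eq_of_lt (by ring) hq)
  have hc1 := (hAm c (AddSubgroup.mem_inf.mp hc).1).2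
  have hc2 := (hA₂m (Pi.single i x₀ * c) (AddSubgroup.mem_inf.mp hc).2).2
  have hz : d * (Pi.single i x₀ * c) = 0 := by
    funext k
    by_cases hk : k = i
    · subst hk; simp [hdi]
    · simp [hk]
  rw [hz, on_zero hadd, hc1] at hc2
  have h2 : f d j * (f (Pi.single i x₀) j * f c j) = 0 := by simpa using hc2.symm
  rcases mul_eq_zero.mp h2 with h | h
  · exact h
  · exact absurd h (mul_ne_zero hne hcne)

/-- extension at a pair of coordinates -/
theorem ext_pair {m : ℕ} {f : (∀ i, F i) → ∀ i, F i} {D : AddSubgroup (∀ i, F i)} (hm : 1 ≤ m)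
    (hidx : D.index ≤ m) (hadd : ∀ a ∈ D, ∀ b ∈ D, f (a + b) = f a + f b)
    (hker : {a | a ∈ D ∧ f a = 0}.ncard ≤ m) {i j : ι} (hex : Exact m f f D j)
    (hqj : m ^ 6 < Nat.card (F j)) (hqi : m ^ 4 < Nat.card (F i)) {x₀ : F i}
    (hx₀ : Pi.single i x₀ ∈ D) (hne : f (Pi.single i x₀) j ≠ 0) :
    ∃ τ : F i →+* F j, ∀ x ∈ D, f x j = τ (x i) := by
  classical
  have hq4 : m ^ 4 < Nat.card (F j) :=
    lt_of_le_of_lt (Nat.pow_le_pow_right hm (by norm_num)) hqj
  have hwd : ∀ x ∈ D, ∀ y ∈ D, x i = y i → f x j = f y j := by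
    intro x hx y hy hxy
    have h1 := fac hidx hadd hker hex hq4 hx₀ hne (D.sub_mem hx hy)
      (by rw [Pi.sub_apply, hxy, sub_self])
    rw [on_sub hadd hx hy, Pi.sub_apply] at h1
    exact sub_eq_zero.mp h1
  set Di : AddSubgroup (F i) := D.map (ev F i) with hDi
  have hmap : ∀ (A : AddSubgroup (∀ i, F i)), A.index ≤ m → (A.map (ev F i)).index ≤ m := by
    intro A hA
    refine le_trans (Nat.le_of_dvd ?_ (AddSubgroup.index_map_dvd A (ev_surj i))) hA
    exact Nat.pos_of_ne_zero AddSubgroup.index_ne_zero_of_finite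
  -- the induced map
  have hch : ∀ t : F i, ∃ s : F j, ∀ x ∈ D, x i = t → f x j = s := by
    intro t
    by_cases ht : ∃ x ∈ D, x i = t
    · obtain ⟨x, hx, hxt⟩ := ht
      exact ⟨f x j, fun y hy hyt => hwd y hy x hx (hyt.trans hxt.symm)⟩
    · push Not at ht
      exact ⟨0, fun x hx hxt => absurd hxt (ht x hx)⟩
  choose γ hγ using hch
  have hγ' : ∀ x ∈ D, f x j = γ (x i) := fun x hx => hγ (x i) x hx rfl
  obtain ⟨τ, hτ⟩ := field_ext (K := F i) (L := F j) (m := m) (D := Di) (hmap D hidx) (γ := γ)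
    (by
      rintro a ⟨x, hx, rfl⟩ b ⟨y, hy, rfl⟩
      show γ (x i + y i) = γ (x i) + γ (y i)
      rw [← hγ' x hx, ← hγ' y hy, ← Pi.add_apply, ← hγ' (x + y) (D.add_mem hx hy),
        hadd x hx y hy, Pi.add_apply])
    (by
      rintro a ⟨x, hx, rfl⟩
      obtain ⟨A, hAD, hAi, hAm⟩ := hex x hx
      refine ⟨A.map (ev F i), AddSubgroup.map_mono hAD, hmap A hAi, ?_⟩
      rintro b ⟨y, hy, rfl⟩
      obtain ⟨h1, h2⟩ := hAm y hy
      refine ⟨⟨x * y, h1, rfl⟩, ?_⟩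
      show γ (x i * y i) = γ (x i) * γ (y i)
      rw [← hγ' x hx, ← hγ' y (hAD hy), ← h2, hγ' _ h1, Pi.mul_apply])
    (by
      intro B hB
      obtain ⟨b, hb, hbD, hbne⟩ := nv hidx hadd hker (j := j) (n := m ^ 4)
        (B.comap (ev F i)) (idx_comap _ hB) (lt_of_eq_of_lt (by ring) hqj)
      exact ⟨b i, hb, ⟨b, hbD, rfl⟩, by rw [← hγ' b hbD]; exact hbne⟩)
    hqi hm
  exact ⟨τ, fun x hx => by rw [hγ' x hx]; exact hτ _ ⟨x, hx, rfl⟩⟩

/-- the maximal residue fields are permuted -/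
theorem top_semi {m s q : ℕ} {f : (∀ i, F i) → ∀ i, F i} {D : AddSubgroup (∀ i, F i)}
    (hm : 1 ≤ m) (hidx : D.index ≤ m) (hadd : ∀ a ∈ D, ∀ b ∈ D, f (a + b) = f a + f b)
    (hker : {a | a ∈ D ∧ f a = 0}.ncard ≤ m) {t : ℕ} (ht : m ^ 6 ≤ t)
    (hex : ∀ j, t < Nat.card (F j) → Exact m f f D j)
    (hs : {y : ∀ i, F i | ∀ j, t < Nat.card (F j) → y j = 0}.ncard ≤ s)
    (hmax : ∀ i, Nat.card (F i) ≤ q) (hq1 : t < q) (hq2 : m * m * s < q) :
    ∀ j, Nat.card (F j) = q → ∃ i, Nat.card (F i) = q ∧ ∃ τ : F i →+* F j,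
      ∀ x ∈ D, f x j = τ (x i) := by
  classical
  have m46 : m ^ 4 ≤ m ^ 6 := Nat.pow_le_pow_right hm (by norm_num)
  set J := {i : ι // Nat.card (F i) = q} with hJ
  have step : ∀ i : J, ∃ j : J, ∃ x₀ : F i.1, Pi.single i.1 x₀ ∈ D ∧
      f (Pi.single i.1 x₀) j.1 ≠ 0 := by
    rintro ⟨i, hi⟩
    have h1 : ∃ j, t < Nat.card (F j) ∧ ∃ x₀ : F i, Pi.single i x₀ ∈ D ∧
        f (Pi.single i x₀) j ≠ 0 := by
      by_contra hcon
      push Not at hcon
      have hk : {a | a ∈ D.comap (AddMonoidHom.single F i) ∧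
          f (Pi.single i a) = 0}.ncard ≤ m := by
        refine le_trans ?_ hker
        refine Set.ncard_le_ncard_of_injOn (fun a => Pi.single i a) ?_ ?_ (Set.toFinite _)
        · intro a ha
          exact ⟨ha.1, ha.2⟩
        · intro a _ b _ hab
          exact Pi.single_injective i hab
      have := cnt0 (f := fun a : F i => f (Pi.single i a))
        (A := D.comap (AddMonoidHom.single F i)) (k := m) (l := m)
        (fun a ha b hb => by
          show f (Pi.single i (a + b)) = _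
          rw [Pi.single_add]
          exact hadd _ ha _ hb) hk (idx_comap _ hidx)
        {y : ∀ i, F i | ∀ j, t < Nat.card (F j) → y j = 0}
        (fun a ha j hj => hcon j hj a ha)
      rw [hi] at this
      have h2 : q ≤ m * m * s := this.trans (Nat.mul_le_mul le_rfl hs)
      omega
    obtain ⟨j, hj, x₀, hx₀, hne⟩ := h1
    obtain ⟨τ, -⟩ := ext_pair hm hidx hadd hker (hex j hj) (lt_of_le_of_lt ht hj)
      (by rw [hi]; omega) hx₀ hne
    have hle : Nat.card (F i) ≤ Nat.card (F j) :=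
      Nat.card_le_card_of_injective τ τ.injective
    exact ⟨⟨j, le_antisymm (hmax j) (by omega)⟩, x₀, hx₀, hne⟩
  choose ρ x₀ hx₀ hne using step
  have hinj : Function.Injective ρ := by
    intro i i' hii
    by_contra hne'
    have hv : (i : ι) ≠ i' := fun h => hne' (Subtype.ext h)
    have hj : t < Nat.card (F (ρ i).1) := by rw [(ρ i).2]; exact hq1
    have := fac hidx hadd hker (hex _ hj) (by omega) (hx₀ i) (hne i) (hx₀ i')
      (by simp [hv])
    rw [hii] at this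
    exact hne i' this
  have hsurj : Function.Surjective ρ := Finite.injective_iff_surjective.mp hinj
  intro j hj
  obtain ⟨i, hi⟩ := hsurj ⟨j, hj⟩
  have hi' : (ρ i).1 = j := congrArg Subtype.val hi
  have hne2 := hne i
  rw [hi'] at hne2
  have hj' : t < Nat.card (F j) := by rw [hj]; exact hq1
  obtain ⟨τ, hτ⟩ := ext_pair hm hidx hadd hker (hex j hj') (lt_of_le_of_lt ht hj')
    (by rw [i.2]; omega) (hx₀ i) hne2
  exact ⟨i.1, i.2, τ, hτ⟩

/-- linear labels -/
theorem lin {m : ℕ} {f : (∀ i, F i) → ∀ i, F i} {D : AddSubgroup (∀ i, F i)} (hm : 1 ≤ m)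
    (hidx : D.index ≤ m) (hadd : ∀ a ∈ D, ∀ b ∈ D, f (a + b) = f a + f b)
    (hker : {a | a ∈ D ∧ f a = 0}.ncard ≤ m) {j : ι} (hex : Exact m f (fun x => x) D j)
    (hqj : m ^ 4 < Nat.card (F j)) :
    ∃ θ : F j, θ ≠ 0 ∧ ∀ x ∈ D, f x j = θ * x j := by
  classical
  have m24 : m ^ 2 ≤ m ^ 4 := Nat.pow_le_pow_right hm (by norm_num)
  have m14 : m ≤ m ^ 4 := by
    calc m = m ^ 1 := (pow_one m).symm
      _ ≤ m ^ 4 := Nat.pow_le_pow_right hm (by norm_num)
  have hcoord : ∀ B : AddSubgroup (∀ i, F i), B.index ≤ m ^ 4 → ∃ b ∈ B, b j ≠ 0 := by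
    intro B hB
    have h1 : (B.map (ev F j)).index < Nat.card (F j) := by
      refine lt_of_le_of_lt (le_trans (Nat.le_of_dvd ?_
        (AddSubgroup.index_map_dvd B (ev_surj j))) hB) hqj
      exact Nat.pos_of_ne_zero AddSubgroup.index_ne_zero_of_finite
    obtain ⟨t, ⟨b, hb, rfl⟩, ht⟩ := idx_ne h1
    exact ⟨b, hb, ht⟩
  have hsym : ∀ x ∈ D, ∀ y ∈ D, f x j * y j = f y j * x j := by
    intro x hx y hy
    obtain ⟨A, hAD, hAi, hAm⟩ := hex x hx
    obtain ⟨A₂, hA₂D, hA₂i, hA₂m⟩ := hex y hy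
    obtain ⟨b, hb, hbj⟩ := hcoord (A.comap (AddMonoidHom.mulLeft y) ⊓
      A₂.comap (AddMonoidHom.mulLeft x))
      ((idx_inf (idx_comap _ hAi) (idx_comap _ hA₂i)).trans (le_trans (le_of_eq (by ring)) m24))
    have e1 := (hAm (y * b) (AddSubgroup.mem_inf.mp hb).1).2
    have e2 := (hA₂m (x * b) (AddSubgroup.mem_inf.mp hb).2).2
    have e3 : x * (y * b) = y * (x * b) := by ring
    rw [e3, e2] at e1
    simp only [Pi.mul_apply] at e1
    have e4 : (f x j * y j - f y j * x j) * b j = 0 := by linear_combination -e1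
    rcases mul_eq_zero.mp e4 with h | h
    · exact sub_eq_zero.mp h
    · exact absurd h hbj
  obtain ⟨y, hy, hyj⟩ := hcoord D (hidx.trans m14)
  obtain ⟨z, -, hz, hzj⟩ := nv hidx hadd hker (j := j) (n := m) ⊤
    (by rw [AddSubgroup.index_top]; exact hm)
    (lt_of_le_of_lt (by
      calc m * (m * m) = m ^ 3 := by ring
        _ ≤ m ^ 4 := Nat.pow_le_pow_right hm (by norm_num)) hqj)
  have hall : ∀ x ∈ D, f x j = f y j / y j * x j := by
    intro x hx
    have h1 := hsym x hx y hy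
    field_simp
    exact h1
  refine ⟨f y j / y j, ?_, hall⟩
  intro h0
  apply hzj
  rw [hall z hz, h0, zero_mul]

end Prod

end Helper78MF
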