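import Mathlib

/-!
End game of MP_141f81_co: the labels `θ`, `ζ` and the automorphisms `g`, `s` have no finite model.
-/

namespace Helper78MF

/-- An element of finite order prime to three, times an element of order three, cannot be the image
of the former under an automorphism. -/
theorem no_model {M : Type*} [CommMonoid M] (θ ζ : M) (g s : M ≃* M)
    (hθ : IsOfFinOrder θ) (hζ : orderOf ζ = 3) (hg : g θ = ζ * θ) (hs : s θ ^ 3 = θ) : False := by
  have h1 : orderOf (s θ) = orderOf θ := MulEquiv.orderOf_eq s θ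
  have h2 : orderOf (g θ) = orderOf θ := MulEquiv.orderOf_eq g θ
  have hN : 0 < orderOf θ := hθ.orderOf_pos
  have h3 : orderOf (s θ ^ 3) = orderOf (s θ) / Nat.gcd (orderOf (s θ)) 3 :=
    orderOf_pow' (s θ) (by norm_num)
  rw [hs, h1] at h3
  have hcop : Nat.Coprime (orderOf θ) 3 := by
    have hd : Nat.gcd (orderOf θ) 3 ∣ orderOf θ := Nat.gcd_dvd_left _ _
    have hmul : orderOf θ / Nat.gcd (orderOf θ) 3 * Nat.gcd (orderOf θ) 3 = orderOf θ :=
      Nat.div_mul_cancel hd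
    rw [← h3] at hmul
    exact Nat.eq_of_mul_eq_mul_left hN (by rw [hmul, mul_one])
  have h4 : orderOf (ζ * θ) = orderOf ζ * orderOf θ := by
    refine (Commute.all ζ θ).orderOf_mul_eq_mul_orderOf_of_coprime ?_
    rw [hζ]
    exact hcop.symm
  rw [← hg, h2, hζ] at h4
  omega

/-- `ζ` has order three in a nontrivial commutative ring of characteristic two. -/
theorem orderOf_zeta {R : Type*} [CommRing R] [Nontrivial R] (h2 : (2 : R) = 0) (ζ : R)
    (hζ : ζ ^ 2 + ζ + 1 = 0) : orderOf ζ = 3 := by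
  have h3 : ζ ^ 3 = 1 := by
    have : ζ ^ 3 - 1 = (ζ ^ 2 + ζ + 1) * (ζ - 1) := by ring
    rw [hζ, zero_mul] at this
    exact sub_eq_zero.mp this
  refine orderOf_eq_prime h3 ?_
  intro h1
  rw [h1] at hζ
  have : (1 : R) = 0 := by
    have h4 : (1 : R) ^ 2 + 1 + 1 = 2 + 1 := by ring
    rw [h4, h2, zero_add] at hζ
    exact hζ
  exact one_ne_zero this

/-- There is no nontrivial finite commutative ring of characteristic two with a unit `θ`, an element
`ζ` with `ζ² + ζ + 1 = 0` and two automorphisms `g`, `s` with `g θ = ζ θ` and `(s θ)³ = θ`. -/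
theorem no_finite_ring {R : Type*} [CommRing R] [Finite R] [Nontrivial R] (h2 : (2 : R) = 0)
    (θ ζ : R) (g s : R ≃+* R) (hθ : IsUnit θ) (hζ : ζ ^ 2 + ζ + 1 = 0) (hg : g θ = ζ * θ)
    (hs : s θ ^ 3 = θ) : False := by
  obtain ⟨u, rfl⟩ := hθ
  have hu : IsOfFinOrder (u : R) := by
    have h1 : IsOfFinOrder u := isOfFinOrder_of_finite u
    exact (Units.coeHom R).isOfFinOrder h1
  exact no_model (u : R) ζ g.toMulEquiv s.toMulEquiv hu (orderOf_zeta h2 ζ hζ) hg hs

/-- Version with an additive subgroup of operators and conjugations: `A` is a (possibly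
noncommutative) ring, `C` a commutative subring which is finite modulo nothing, and the
automorphisms are conjugations by units that preserve `C`. -/
theorem no_finite_subring {A : Type*} [Ring A] [Nontrivial A] (h2 : (2 : A) = 0)
    (C : Subring A) [Finite C] (hcomm : ∀ a ∈ C, ∀ b ∈ C, a * b = b * a)
    (θ ζ : A) (hθC : θ ∈ C) (hζC : ζ ∈ C) (g s : Aˣ)
    (hgC : ∀ a, a ∈ C ↔ (g : A) * a * ((g⁻¹ : Aˣ) : A) ∈ C)
    (hsC : ∀ a, a ∈ C ↔ (s : A) * a * ((s⁻¹ : Aˣ) : A) ∈ C)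
    (hθ : ∃ η ∈ C, θ * η = 1) (hζ : ζ ^ 2 + ζ + 1 = 0)
    (hg : (g : A) * θ * ((g⁻¹ : Aˣ) : A) = ζ * θ)
    (hs : ((s : A) * θ * ((s⁻¹ : Aˣ) : A)) ^ 3 = θ) : False := by
  letI : CommRing C := { (inferInstance : Ring C) with
    mul_comm := fun a b => Subtype.ext (hcomm a a.2 b b.2) }
  have key : ∀ u : Aˣ, (∀ a, a ∈ C ↔ (u : A) * a * ((u⁻¹ : Aˣ) : A) ∈ C) →
      ∃ e : C ≃+* C, ∀ a : C, ((e a : C) : A) = (u : A) * a * ((u⁻¹ : Aˣ) : A) := by
    intro u hu
    have hinv : ∀ a, a ∈ C → ((u⁻¹ : Aˣ) : A) * a * (u : A) ∈ C := by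
      intro a ha
      rw [hu]
      have : (u : A) * (((u⁻¹ : Aˣ) : A) * a * (u : A)) * ((u⁻¹ : Aˣ) : A) = a := by
        rw [← mul_assoc, ← mul_assoc, Units.mul_inv, one_mul, mul_assoc, Units.mul_inv, mul_one]
      rw [this]
      exact ha
    refine ⟨{ toFun := fun a => ⟨(u : A) * a * ((u⁻¹ : Aˣ) : A), (hu a).mp a.2⟩
              invFun := fun a => ⟨((u⁻¹ : Aˣ) : A) * a * (u : A), hinv a a.2⟩
              left_inv := ?_, right_inv := ?_, map_mul' := ?_, map_add' := ?_ }, fun a => rfl⟩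
    · intro a
      apply Subtype.ext
      change ((u⁻¹ : Aˣ) : A) * ((u : A) * a * ((u⁻¹ : Aˣ) : A)) * (u : A) = a
      rw [← mul_assoc, ← mul_assoc, Units.inv_mul, one_mul, mul_assoc, Units.inv_mul, mul_one]
    · intro a
      apply Subtype.ext
      change (u : A) * (((u⁻¹ : Aˣ) : A) * a * (u : A)) * ((u⁻¹ : Aˣ) : A) = a
      rw [← mul_assoc, ← mul_assoc, Units.mul_inv, one_mul, mul_assoc, Units.mul_inv, mul_one]
    · intro a b
      apply Subtype.ext
      change (u : A) * ((a : A) * b) * ((u⁻¹ : Aˣ) : A) =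
        ((u : A) * a * ((u⁻¹ : Aˣ) : A)) * ((u : A) * b * ((u⁻¹ : Aˣ) : A))
      have h : ((u : A) * a * ((u⁻¹ : Aˣ) : A)) * ((u : A) * b * ((u⁻¹ : Aˣ) : A)) =
          (u : A) * a * (((u⁻¹ : Aˣ) : A) * (u : A)) * b * ((u⁻¹ : Aˣ) : A) := by
        simp only [mul_assoc]
      rw [h, Units.inv_mul, mul_one]
      simp only [mul_assoc]
    · intro a b
      apply Subtype.ext
      change (u : A) * ((a : A) + b) * ((u⁻¹ : Aˣ) : A) =
        (u : A) * a * ((u⁻¹ : Aˣ) : A) + (u : A) * b * ((u⁻¹ : Aˣ) : A)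
      rw [mul_add, add_mul]
  obtain ⟨eg, heg⟩ := key g hgC
  obtain ⟨es, hes⟩ := key s hsC
  haveI : Nontrivial C := ⟨⟨0, 1, fun h => zero_ne_one (congrArg Subtype.val h)⟩⟩
  obtain ⟨η, hηC, hη⟩ := hθ
  refine no_finite_ring (R := C) (Subtype.ext h2) ⟨θ, hθC⟩ ⟨ζ, hζC⟩ eg es ?_ ?_ ?_ ?_
  · exact IsUnit.of_mul_eq_one ⟨η, hηC⟩ (Subtype.ext hη)
  · exact Subtype.ext hζ
  · apply Subtype.ext
    rw [heg]
    exact hg
  · apply Subtype.ext
    change ((es ⟨θ, hθC⟩ : C) : A) ^ 3 = θ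
    rw [hes]
    exact hs

end Helper78MF
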