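import Pool.Agent.helper78.MF.LabB
import Pool.Agent.helper78.MF.Ord

/-! # MF_LabC: no label system on a product of finite fields with a large factor
(label half of the end game of MP_141f81_co).  Author: helper78. -/

namespace Helper78MF

/-- A label system with constant `m` on a commutative ring: partial maps `g`, `s` (semilinear) and
`Θ`, `Z` (linear) with the relations `g Θ = Z Θ g`, `s Θ Θ Θ = Θ s`, `Z Z + Z + 1 = 0`, everything
on subgroups of index at most `m` and up to errors in sets of size at most `m`. -/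
structure LabSys (R : Type*) [NonUnitalCommRing R] (m : ℕ) where
  g : R → R
  s : R → R
  Θ : R → R
  Z : R → R
  Dg : AddSubgroup R
  Ds : AddSubgroup R
  Dθ : AddSubgroup R
  Dz : AddSubgroup R
  D : AddSubgroup R
  E : Set R
  hg : Lab m g g Dg
  hs : Lab m s s Ds
  hθ : Lab m Θ (fun x => x) Dθ
  hz : Lab m Z (fun x => x) Dz
  hD : D.index ≤ m
  hE : E.ncard ≤ m
  r1 : ∀ x ∈ D, x ∈ Dθ ∧ Θ x ∈ Dg ∧ x ∈ Dg ∧ g x ∈ Dθ ∧ Θ (g x) ∈ Dz ∧
    g (Θ x) - Z (Θ (g x)) ∈ E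
  r2 : ∀ x ∈ D, x ∈ Dθ ∧ Θ x ∈ Dθ ∧ Θ (Θ x) ∈ Dθ ∧ Θ (Θ (Θ x)) ∈ Ds ∧ x ∈ Ds ∧ s x ∈ Dθ ∧
    s (Θ (Θ (Θ x))) - Θ (s x) ∈ E
  r3 : ∀ x ∈ D, x ∈ Dz ∧ Z x ∈ Dz ∧ Z (Z x) + Z x + x ∈ E

/-- The 3-adic contradiction on a finite set of fields. -/
theorem top_contra {J : Type*} [Finite J] [Nonempty J] {F : J → Type*} [∀ j, Field (F j)]
    [∀ j, Finite (F j)] (h2 : ∀ j, (2 : F j) = 0) (θ ζ : ∀ j, F j) (hθ : ∀ j, θ j ≠ 0)
    (hζ : ∀ j, ζ j ^ 2 + ζ j + 1 = 0)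
    (hg : ∀ j, ∃ (i : J) (τ : F i →+* F j), τ (θ i) = ζ j * θ j)
    (hs : ∀ j, ∃ (i : J) (τ : F i →+* F j), τ (θ i) ^ 3 = θ j) : False := by
  classical
  have := Fintype.ofFinite J
  have hord : ∀ j, 0 < orderOf (θ j) := by
    intro j
    have h1 : IsOfFinOrder (Units.mk0 (θ j) (hθ j)) := isOfFinOrder_of_finite _
    have h3 : IsOfFinOrder (θ j) := (Units.coeHom (F j)).isOfFinOrder h1
    exact h3.orderOf_pos
  have hτ : ∀ {i j : J} (τ : F i →+* F j) (x : F i), orderOf (τ x) = orderOf x := by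
    intro i j τ x
    exact orderOf_injective (τ : F i →* F j) τ.injective x
  obtain ⟨j0, -, hj0⟩ := Finset.exists_max_image (Finset.univ : Finset J)
    (fun j => padicValNat 3 (orderOf (θ j))) Finset.univ_nonempty
  have hmax : ∀ j, padicValNat 3 (orderOf (θ j)) ≤ padicValNat 3 (orderOf (θ j0)) :=
    fun j => hj0 j (Finset.mem_univ j)
  have hz0 : padicValNat 3 (orderOf (θ j0)) = 0 := by
    obtain ⟨i, τ, h⟩ := hs j0
    have h3 : orderOf (τ (θ i) ^ 3) = orderOf (τ (θ i)) / Nat.gcd (orderOf (τ (θ i))) 3 :=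
      orderOf_pow' _ (by norm_num)
    rw [h, hτ] at h3
    by_cases hd : 3 ∣ orderOf (θ i)
    · rw [Nat.gcd_eq_right hd] at h3
      obtain ⟨N, hN⟩ := hd
      rw [hN, Nat.mul_div_cancel_left N (by norm_num)] at h3
      have hi := hmax i
      rw [hN, h3] at hi
      have hN0 : N ≠ 0 := by
        intro h0
        have := hord i
        rw [hN, h0] at this
        simp at this
      have : Fact (Nat.Prime 3) := ⟨Nat.prime_three⟩
      rw [padicValNat.mul (by norm_num) hN0, padicValNat_self] at hi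
      omega
    · have hc : Nat.gcd (orderOf (θ i)) 3 = 1 := by
        rw [← Nat.coprime_iff_gcd_eq_one, Nat.coprime_comm]
        exact (Nat.Prime.coprime_iff_not_dvd Nat.prime_three).mpr hd
      rw [hc, Nat.div_one] at h3
      rw [h3]
      exact padicValNat.eq_zero_of_not_dvd hd
  have hnd : ∀ j, ¬ 3 ∣ orderOf (θ j) := by
    intro j hd
    have : Fact (Nat.Prime 3) := ⟨Nat.prime_three⟩
    have h1 : 1 ≤ padicValNat 3 (orderOf (θ j)) :=
      one_le_padicValNat_of_dvd (hord j).ne' hd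
    have := hmax j
    omega
  obtain ⟨i, τ, h⟩ := hg j0
  have hζ3 : orderOf (ζ j0) = 3 := orderOf_zeta (h2 j0) _ (hζ j0)
  set N := orderOf (θ i) * orderOf (θ j0) with hN
  have e1 : τ (θ i) ^ N = 1 := by
    rw [hN, pow_mul, ← map_pow, pow_orderOf_eq_one, map_one, one_pow]
  have e2 : θ j0 ^ N = 1 := by
    rw [hN, mul_comm, pow_mul, pow_orderOf_eq_one, one_pow]
  have e3 : ζ j0 ^ N = 1 := by
    rw [h, mul_pow, e2, mul_one] at e1
    exact e1
  have h4 : 3 ∣ N := by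
    rw [← hζ3]; exact orderOf_dvd_of_pow_eq_one e3
  rcases (Nat.Prime.dvd_mul Nat.prime_three).mp h4 with h5 | h5
  · exact hnd i h5
  · exact hnd j0 h5

section Prod

variable {ι : Type*} [Fintype ι] [DecidableEq ι] {F : ι → Type*} [∀ i, Field (F i)]
  [∀ i, Finite (F i)]

theorem absorb2 {m : ℕ} {D : AddSubgroup (∀ i, F i)} (hD : D.index ≤ m) {E : Set (∀ i, F i)}
    (hE : E.ncard ≤ m) {i j : ι} (τ : F i →+* F j) (c : F j)
    (h : ∀ x ∈ D, ∃ e ∈ E, e j = c * τ (x i)) (hq : m * m < Nat.card (F i)) : c = 0 := by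
  classical
  by_contra hc
  have hi : (D.map (ev F i)).index ≤ m := by
    refine le_trans (Nat.le_of_dvd ?_ (AddSubgroup.index_map_dvd D (ev_surj i))) hD
    exact Nat.pos_of_ne_zero AddSubgroup.index_ne_zero_of_finite
  have key := cnt0 (f := fun t : F i => τ t) (A := D.map (ev F i)) (k := 1) (l := m)
    (fun a _ b _ => map_add τ a b)
    (by
      refine le_trans (Set.ncard_le_ncard (t := {(0 : F i)}) ?_ (Set.toFinite _)) ?_
      · rintro a ⟨-, ha⟩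
        exact (map_eq_zero_iff τ τ.injective).mp ha
      · rw [Set.ncard_singleton])
    hi ((fun e : (∀ i, F i) => c⁻¹ * e j) '' E)
    (by
      rintro a ⟨x, hx, rfl⟩
      obtain ⟨e, he, hej⟩ := h x hx
      refine ⟨e, he, ?_⟩
      show c⁻¹ * e j = τ (x i)
      rw [hej, inv_mul_cancel_left₀ hc])
  have h1 : ((fun e : (∀ i, F i) => c⁻¹ * e j) '' E).ncard ≤ m :=
    (Set.ncard_image_le (Set.toFinite _)).trans hE
  have h2 : Nat.card (F i) ≤ m * m := by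
    refine key.trans ?_
    rw [one_mul]
    exact Nat.mul_le_mul le_rfl h1
  omega

theorem lab_id {R : Type*} [CommRing R] {m : ℕ} (hm : 1 ≤ m) :
    Lab (R := R) m (fun x => x) (fun x => x) ⊤ where
  idx := by rw [AddSubgroup.index_top]; exact hm
  add := fun _ _ _ _ => rfl
  ker := by
    have : {a : R | a ∈ (⊤ : AddSubgroup R) ∧ a = 0} = {0} := by
      ext a; simp
    rw [this, Set.ncard_singleton]; exact hm
  mul := fun a _ => ⟨⊤, {0}, le_top, by rw [AddSubgroup.index_top]; exact hm,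
    by rw [Set.ncard_singleton]; exact hm, fun b _ => ⟨AddSubgroup.mem_top _, by simp⟩⟩

/-- No label system on a product of finite fields of characteristic two with a large factor. -/
theorem no_labels_prod {m σ : ℕ} (hm : 1 ≤ m) (h2 : ∀ i, (2 : F i) = 0)
    (L : LabSys (∀ i, F i) m)
    (hsmall : {y : ∀ i, F i | ∀ j, m ^ 12 < Nat.card (F j) → y j = 0}.ncard ≤ σ)
    (hbig : ∃ i, m ^ 12 + m ^ 4 * σ < Nat.card (F i)) : False := by
  classical
  obtain ⟨i₀, hi₀⟩ := hbig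
  have : Nonempty ι := ⟨i₀⟩
  obtain ⟨i₁, -, hi₁⟩ := Finset.exists_max_image (Finset.univ : Finset ι)
    (fun i => Nat.card (F i)) Finset.univ_nonempty
  set q := Nat.card (F i₁) with hq
  have hmax : ∀ i, Nat.card (F i) ≤ q := fun i => hi₁ i (Finset.mem_univ i)
  have hqbig : m ^ 12 + m ^ 4 * σ < q := lt_of_lt_of_le hi₀ (hmax i₀)
  set M := m * m with hM
  have hM1 : 1 ≤ M := Nat.one_le_iff_ne_zero.mpr (by positivity)
  have hmM : m ≤ M := Nat.le_mul_self m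
  have hM6 : M ^ 6 = m ^ 12 := by rw [hM]; ring
  have m7 : m ^ 7 ≤ m ^ 12 := Nat.pow_le_pow_right hm (by norm_num)
  have m8 : m ^ 8 ≤ m ^ 12 := Nat.pow_le_pow_right hm (by norm_num)
  have m2 : m * m ≤ m ^ 12 := by
    calc m * m = m ^ 2 := by ring
      _ ≤ m ^ 12 := Nat.pow_le_pow_right hm (by norm_num)
  have hσ : m ^ 4 * σ = M * M * σ := by rw [hM]; ring
  -- semilinear labels
  have semi : ∀ (f : (∀ i, F i) → ∀ i, F i) (Df : AddSubgroup (∀ i, F i)), Lab m f f Df →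
      ∀ j, Nat.card (F j) = q → ∃ i, Nat.card (F i) = q ∧ ∃ τ : F i →+* F j,
        ∀ x ∈ Df, f x j = τ (x i) := by
    intro f Df hf
    exact top_semi (m := M) (s := σ) (q := q) hM1 (hf.idx.trans hmM) hf.add
      (hf.ker.trans hmM) (t := m ^ 12) (le_of_eq hM6)
      (fun j hj => absorb hf hf (by omega)) hsmall hmax (by omega) (by omega)
  have linr : ∀ (f : (∀ i, F i) → ∀ i, F i) (Df : AddSubgroup (∀ i, F i)),
      Lab m f (fun x => x) Df →
      ∀ j, Nat.card (F j) = q → ∃ θ : F j, θ ≠ 0 ∧ ∀ x ∈ Df, f x j = θ * x j := by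
    intro f Df hf j hj
    exact lin (m := M) hM1 (hf.idx.trans hmM) hf.add (hf.ker.trans hmM)
      (absorb hf (lab_id hm) (by omega)) (by
        have : M ^ 4 = m ^ 8 := by rw [hM]; ring
        omega)
  set J := {i : ι // Nat.card (F i) = q} with hJ
  have : Nonempty J := ⟨⟨i₁, rfl⟩⟩
  choose θ hθ0 hθ using fun j : J => linr L.Θ L.Dθ L.hθ j.1 j.2
  choose ζ hζ0 hζ using fun j : J => linr L.Z L.Dz L.hz j.1 j.2
  have hqm : m * m < q := by omega
  refine top_contra (J := J) (F := fun j => F j.1) (fun j => h2 j.1) θ ζ hθ0 ?_ ?_ ?_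
  · intro j
    refine absorb2 L.hD L.hE (RingHom.id (F j.1)) (ζ j ^ 2 + ζ j + 1) ?_ (by rw [j.2]; exact hqm)
    intro x hx
    obtain ⟨h1, h3, h4⟩ := L.r3 x hx
    refine ⟨_, h4, ?_⟩
    show L.Z (L.Z x) j.1 + L.Z x j.1 + x j.1 = (ζ j ^ 2 + ζ j + 1) * x j.1
    rw [hζ j _ h3, hζ j _ h1]
    ring
  · intro j
    obtain ⟨i, hi, τ, hτ⟩ := semi L.g L.Dg L.hg j.1 j.2
    refine ⟨⟨i, hi⟩, τ, ?_⟩
    refine sub_eq_zero.mp (absorb2 L.hD L.hE τ (τ (θ ⟨i, hi⟩) - ζ j * θ j) ?_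
      (by rw [hi]; exact hqm))
    intro x hx
    obtain ⟨h1, h3, h4, h5, h6, h7⟩ := L.r1 x hx
    refine ⟨_, h7, ?_⟩
    show L.g (L.Θ x) j.1 - L.Z (L.Θ (L.g x)) j.1 = (τ (θ ⟨i, hi⟩) - ζ j * θ j) * τ (x i)
    rw [hτ _ h3, hζ j _ h6, hθ j _ h5, hτ _ h4, hθ ⟨i, hi⟩ x h1, map_mul]
    ring
  · intro j
    obtain ⟨i, hi, τ, hτ⟩ := semi L.s L.Ds L.hs j.1 j.2
    refine ⟨⟨i, hi⟩, τ, ?_⟩
    refine sub_eq_zero.mp (absorb2 L.hD L.hE τ (τ (θ ⟨i, hi⟩) ^ 3 - θ j) ?_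
      (by rw [hi]; exact hqm))
    intro x hx
    obtain ⟨h1, h3, h4, h5, h6, h7, h8⟩ := L.r2 x hx
    refine ⟨_, h8, ?_⟩
    show L.s (L.Θ (L.Θ (L.Θ x))) j.1 - L.Θ (L.s x) j.1 = (τ (θ ⟨i, hi⟩) ^ 3 - θ j) * τ (x i)
    rw [hτ _ h5, hθ j _ h7, hτ _ h6, hθ ⟨i, hi⟩ _ h4, hθ ⟨i, hi⟩ _ h3, hθ ⟨i, hi⟩ x h1,
      map_mul, map_mul, map_mul]
    ring

end Prod

end Helper78MF
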