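import Pool.Agent.helper78.MF.LabC

/-! # MF_LabD: label systems pass to quotients by bounded ideals
(label half of the end game of MP_141f81_co).  Author: helper78. -/

namespace Helper78MF

theorem sub_pull {G H : Type*} [AddCommGroup G] [AddCommGroup H] [Finite H]
    {D : AddSubgroup G} {d c : ℕ} (hD : D.index ≤ d) {F : G → H}
    (hF : ∀ a ∈ D, ∀ b ∈ D, F (a + b) = F a + F b) {C : AddSubgroup H} (hC : C.index ≤ c) :
    ∃ P : AddSubgroup G, P.index ≤ c * d ∧ ∀ x, x ∈ P ↔ x ∈ D ∧ F x ∈ C := by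
  refine ⟨(C.comap (homOn F D hF)).map D.subtype, ?_, ?_⟩
  · rw [AddSubgroup.index_map_subtype]
    exact Nat.mul_le_mul (idx_comap _ hC) hD
  · intro x
    constructor
    · rintro ⟨y, hy, rfl⟩
      exact ⟨y.2, hy⟩
    · rintro ⟨hx, hFx⟩
      exact ⟨⟨x, hx⟩, hFx, rfl⟩

theorem ker_pull {G H : Type*} [AddCommGroup G] [AddCommGroup H] [Finite G] [Finite H]
    {D : AddSubgroup G} {f : G → H} (hf : ∀ a ∈ D, ∀ b ∈ D, f (a + b) = f a + f b) {k : ℕ}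
    (hk : {a | a ∈ D ∧ f a = 0}.ncard ≤ k) (W : Set H) :
    {a | a ∈ D ∧ f a ∈ W}.ncard ≤ k * W.ncard := by
  classical
  have hb : ∀ w : H, ∃ b : G, ∀ a ∈ D, f a = w → b ∈ D ∧ f b = w := by
    intro w
    by_cases h : ∃ b ∈ D, f b = w
    · obtain ⟨b, hb, hw⟩ := h
      exact ⟨b, fun _ _ _ => ⟨hb, hw⟩⟩
    · push Not at h
      exact ⟨0, fun a ha hw => absurd hw (h a ha)⟩
  choose β hβ using hb
  have := Nat.card_le_card_of_injective
    (fun x : {a | a ∈ D ∧ f a ∈ W} => ((⟨(x : G) - β (f x), ?_⟩, ⟨f x, x.2.2⟩) :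
      {a | a ∈ D ∧ f a = 0} × W)) ?_
  · rw [Nat.card_prod, Nat.card_coe_set_eq, Nat.card_coe_set_eq, Nat.card_coe_set_eq] at this
    exact this.trans (Nat.mul_le_mul hk le_rfl)
  · obtain ⟨h1, h2⟩ := hβ (f x) x x.2.1 rfl
    exact ⟨D.sub_mem x.2.1 h1, by rw [on_sub hf x.2.1 h1, h2, sub_self]⟩
  · intro x y hxy
    have e1 : f (x : G) = f (y : G) :=
      congrArg (fun z : {a | a ∈ D ∧ f a = 0} × W => (z.2 : H)) hxy
    have e2 : (x : G) - β (f x) = (y : G) - β (f y) :=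
      congrArg (fun z : {a | a ∈ D ∧ f a = 0} × W => (z.1 : G)) hxy
    rw [e1] at e2
    exact Subtype.ext (sub_left_injective e2)

section Push

variable {R S : Type*} [CommRing R] [Finite R] [CommRing S] [Finite S]

omit [Finite S] in
theorem lab_push {m n : ℕ} (hn : 1 ≤ n) (π : R →+* S) (σ : S →+ R) (hσ : ∀ x, π (σ x) = x)
    (hker : Nat.card (RingHom.ker π) ≤ n) {f h : R → R} {D : AddSubgroup R}
    (hf : Lab m f h D) :
    Lab (m * n) (fun x => π (f (σ x))) (fun x => π (h (σ x))) (D.comap σ) where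
  idx := (idx_comap σ hf.idx).trans (Nat.le_mul_of_pos_right m hn)
  add := by
    intro a ha b hb
    show π (f (σ (a + b))) = π (f (σ a)) + π (f (σ b))
    rw [map_add, hf.add _ ha _ hb, map_add]
  ker := by
    classical
    have h1 := ker_pull hf.add hf.ker (RingHom.ker π : Set R)
    have h2 : (RingHom.ker π : Set R).ncard ≤ n := by
      rw [← Nat.card_coe_set_eq]; exact hker
    refine le_trans ?_ (h1.trans (Nat.mul_le_mul le_rfl h2))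
    refine Set.ncard_le_ncard_of_injOn (fun a => σ a) ?_ ?_ (Set.toFinite _)
    · intro a ha
      exact ⟨ha.1, ha.2⟩
    · intro a _ b _ hab
      have := congrArg π hab
      simpa only [hσ] using this
  mul := by
    intro a ha
    obtain ⟨A, E, hAD, hAi, hE, hAm⟩ := hf.mul (σ a) ha
    -- the defect of σ
    set δ : S →+ R := (AddMonoidHom.mulLeft (σ a)).comp σ - σ.comp (AddMonoidHom.mulLeft a)
      with hδ
    have hδ' : ∀ b, δ b = σ a * σ b - σ (a * b) := fun b => rfl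
    have hδi : δ.ker.index ≤ n := by
      rw [AddSubgroup.index_ker]
      refine le_trans ?_ hker
      refine Nat.card_le_card_of_injective
        (fun x : δ.range => (⟨(x : R), ?_⟩ : RingHom.ker π)) ?_
      · obtain ⟨x, b, rfl⟩ := x
        show π (σ a * σ b - σ (a * b)) = 0
        rw [map_sub, map_mul π, hσ, hσ, hσ, sub_self]
      · intro x y hxy
        exact Subtype.ext (congrArg (fun z : RingHom.ker π => (z : R)) hxy)
    refine ⟨A.comap σ ⊓ δ.ker, π '' E, ?_, idx_inf (idx_comap σ hAi) hδi, ?_, ?_⟩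
    · intro x hx
      exact hAD (AddSubgroup.mem_inf.mp hx).1
    · exact ((Set.ncard_image_le (Set.toFinite _)).trans hE).trans (Nat.le_mul_of_pos_right m hn)
    · intro b hb
      have hb1 : σ b ∈ A := (AddSubgroup.mem_inf.mp hb).1
      have hb2 : σ a * σ b = σ (a * b) := by
        have h := (AddSubgroup.mem_inf.mp hb).2
        rw [AddMonoidHom.mem_ker, hδ'] at h
        exact sub_eq_zero.mp h
      obtain ⟨h1, h2⟩ := hAm (σ b) hb1
      rw [hb2] at h1 h2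
      refine ⟨h1, ⟨_, h2, ?_⟩⟩
      show π (f (σ (a * b)) - f (σ a) * h (σ b)) = π (f (σ (a * b))) - π (f (σ a)) * π (h (σ b))
      rw [map_sub, map_mul π]

theorem labsys_push {m n : ℕ} (hm : 1 ≤ m) (hn : 1 ≤ n) (π : R →+* S) (σ : S →+ R)
    (hσ : ∀ x, π (σ x) = x) (hker : Nat.card (RingHom.ker π) ≤ n) (L : LabSys R m) :
    Nonempty (LabSys S (m * n ^ 7)) := by
  classical
  -- the complement
  set C : AddSubgroup R := (AddMonoidHom.id R - σ.comp (π : R →+ S)).ker with hC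
  have hCm : ∀ x, x ∈ C → σ (π x) = x := by
    intro x hx
    rw [hC, AddMonoidHom.mem_ker] at hx
    exact (sub_eq_zero.mp hx).symm
  have hCi : C.index ≤ n := by
    rw [hC, AddSubgroup.index_ker]
    refine le_trans ?_ hker
    refine Nat.card_le_card_of_injective
      (fun x : (AddMonoidHom.id R - σ.comp (π : R →+ S)).range =>
        (⟨(x : R), ?_⟩ : RingHom.ker π)) ?_
    · obtain ⟨x, b, rfl⟩ := x
      show π (b - σ (π b)) = 0
      rw [map_sub, hσ, sub_self]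
    · intro x y hxy
      exact Subtype.ext (congrArg (fun z : RingHom.ker π => (z : R)) hxy)
  -- additivity of the compositions on D
  have aΘ : ∀ a ∈ L.D, ∀ b ∈ L.D, L.Θ (a + b) = L.Θ a + L.Θ b := fun a ha b hb =>
    L.hθ.add a (L.r1 a ha).1 b (L.r1 b hb).1
  have ag : ∀ a ∈ L.D, ∀ b ∈ L.D, L.g (a + b) = L.g a + L.g b := fun a ha b hb =>
    L.hg.add a (L.r1 a ha).2.2.1 b (L.r1 b hb).2.2.1
  have aΘg : ∀ a ∈ L.D, ∀ b ∈ L.D, L.Θ (L.g (a + b)) = L.Θ (L.g a) + L.Θ (L.g b) := by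
    intro a ha b hb
    rw [ag a ha b hb]
    exact L.hθ.add _ (L.r1 a ha).2.2.2.1 _ (L.r1 b hb).2.2.2.1
  have aΘΘ : ∀ a ∈ L.D, ∀ b ∈ L.D, L.Θ (L.Θ (a + b)) = L.Θ (L.Θ a) + L.Θ (L.Θ b) := by
    intro a ha b hb
    rw [aΘ a ha b hb]
    exact L.hθ.add _ (L.r2 a ha).2.1 _ (L.r2 b hb).2.1
  have aΘΘΘ : ∀ a ∈ L.D, ∀ b ∈ L.D, L.Θ (L.Θ (L.Θ (a + b))) =
      L.Θ (L.Θ (L.Θ a)) + L.Θ (L.Θ (L.Θ b)) := by
    intro a ha b hb
    rw [aΘΘ a ha b hb]
    exact L.hθ.add _ (L.r2 a ha).2.2.1 _ (L.r2 b hb).2.2.1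
  have as' : ∀ a ∈ L.D, ∀ b ∈ L.D, L.s (a + b) = L.s a + L.s b := fun a ha b hb =>
    L.hs.add a (L.r2 a ha).2.2.2.2.1 b (L.r2 b hb).2.2.2.2.1
  have aZ : ∀ a ∈ L.D, ∀ b ∈ L.D, L.Z (a + b) = L.Z a + L.Z b := fun a ha b hb =>
    L.hz.add a (L.r3 a ha).1 b (L.r3 b hb).1
  -- combine them as iterated pullbacks to keep the index linear in m
  have key : ∃ P : AddSubgroup R, P.index ≤ m * n ^ 7 ∧ ∀ x ∈ P, x ∈ L.D ∧ L.Θ x ∈ C ∧
      L.g x ∈ C ∧ L.Θ (L.g x) ∈ C ∧ L.Θ (L.Θ x) ∈ C ∧ L.Θ (L.Θ (L.Θ x)) ∈ C ∧ L.s x ∈ C ∧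
      L.Z x ∈ C := by
    obtain ⟨P₁, i₁, p₁⟩ := sub_pull L.hD (F := L.Θ) aΘ hCi
    have s₁ : ∀ x ∈ P₁, x ∈ L.D := fun x hx => ((p₁ x).mp hx).1
    obtain ⟨P₂, i₂, p₂⟩ := sub_pull i₁ (F := L.g) (fun a ha b hb => ag a (s₁ a ha) b (s₁ b hb)) hCi
    have s₂ : ∀ x ∈ P₂, x ∈ P₁ := fun x hx => ((p₂ x).mp hx).1
    obtain ⟨P₃, i₃, p₃⟩ := sub_pull i₂ (F := fun x => L.Θ (L.g x))
      (fun a ha b hb => aΘg a (s₁ a (s₂ a ha)) b (s₁ b (s₂ b hb))) hCi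
    have s₃ : ∀ x ∈ P₃, x ∈ P₂ := fun x hx => ((p₃ x).mp hx).1
    obtain ⟨P₄, i₄, p₄⟩ := sub_pull i₃ (F := fun x => L.Θ (L.Θ x))
      (fun a ha b hb => aΘΘ a (s₁ a (s₂ a (s₃ a ha))) b (s₁ b (s₂ b (s₃ b hb)))) hCi
    have s₄ : ∀ x ∈ P₄, x ∈ P₃ := fun x hx => ((p₄ x).mp hx).1
    obtain ⟨P₅, i₅, p₅⟩ := sub_pull i₄ (F := fun x => L.Θ (L.Θ (L.Θ x))) (fun a ha b hb =>
      aΘΘΘ a (s₁ a (s₂ a (s₃ a (s₄ a ha)))) b (s₁ b (s₂ b (s₃ b (s₄ b hb))))) hCi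
    have s₅ : ∀ x ∈ P₅, x ∈ P₄ := fun x hx => ((p₅ x).mp hx).1
    obtain ⟨P₆, i₆, p₆⟩ := sub_pull i₅ (F := L.s) (fun a ha b hb =>
      as' a (s₁ a (s₂ a (s₃ a (s₄ a (s₅ a ha))))) b (s₁ b (s₂ b (s₃ b (s₄ b (s₅ b hb)))))) hCi
    have s₆ : ∀ x ∈ P₆, x ∈ P₅ := fun x hx => ((p₆ x).mp hx).1
    obtain ⟨P₇, i₇, p₇⟩ := sub_pull i₆ (F := L.Z) (fun a ha b hb =>
      aZ a (s₁ a (s₂ a (s₃ a (s₄ a (s₅ a (s₆ a ha))))))
        b (s₁ b (s₂ b (s₃ b (s₄ b (s₅ b (s₆ b hb))))))) hCi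
    have s₇ : ∀ x ∈ P₇, x ∈ P₆ := fun x hx => ((p₇ x).mp hx).1
    refine ⟨P₇, i₇.trans (le_of_eq (by ring)), fun x hx => ?_⟩
    have x6 := s₇ x hx
    have x5 := s₆ x x6
    have x4 := s₅ x x5
    have x3 := s₄ x x4
    have x2 := s₃ x x3
    have x1 := s₂ x x2
    exact ⟨s₁ x x1, ((p₁ x).mp x1).2, ((p₂ x).mp x2).2, ((p₃ x).mp x3).2, ((p₄ x).mp x4).2,
      ((p₅ x).mp x5).2, ((p₆ x).mp x6).2, ((p₇ x).mp hx).2⟩
  obtain ⟨P, hPi, hP⟩ := key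
  have hmono : m * n ≤ m * n ^ 7 :=
    Nat.mul_le_mul le_rfl (by
      calc n = n ^ 1 := (pow_one n).symm
        _ ≤ n ^ 7 := Nat.pow_le_pow_right hn (by norm_num))
  have hm7 : m ≤ m * n ^ 7 := Nat.le_mul_of_pos_right m (by positivity)
  have mono : ∀ {f h : S → S} {D : AddSubgroup S}, Lab (m * n) f h D → Lab (m * n ^ 7) f h D := by
    intro f h D hf
    refine ⟨hf.idx.trans hmono, hf.add, hf.ker.trans hmono, fun a ha => ?_⟩
    obtain ⟨A, E, h1, h2, h3, h4⟩ := hf.mul a ha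
    exact ⟨A, E, h1, h2.trans hmono, h3.trans hmono, h4⟩
  have hid : (fun x : S => π ((fun y : R => y) (σ x))) = fun x => x := by
    funext x; exact hσ x
  have hθ' := mono (lab_push hn π σ hσ hker L.hθ)
  have hz' := mono (lab_push hn π σ hσ hker L.hz)
  rw [hid] at hθ' hz'
  exact ⟨{
    g := fun x => π (L.g (σ x))
    s := fun x => π (L.s (σ x))
    Θ := fun x => π (L.Θ (σ x))
    Z := fun x => π (L.Z (σ x))
    Dg := L.Dg.comap σ
    Ds := L.Ds.comap σ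
    Dθ := L.Dθ.comap σ
    Dz := L.Dz.comap σ
    D := P.comap σ
    E := π '' L.E
    hg := mono (lab_push hn π σ hσ hker L.hg)
    hs := mono (lab_push hn π σ hσ hker L.hs)
    hθ := hθ'
    hz := hz'
    hD := idx_comap σ hPi
    hE := ((Set.ncard_image_le (Set.toFinite _)).trans L.hE).trans hm7
    r1 := by
      intro x hx
      obtain ⟨hD, c1, c2, c3, c4, c5, c6, c7⟩ := hP (σ x) hx
      obtain ⟨h1, h2, h3, h4, h5, h6⟩ := L.r1 (σ x) hD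
      simp only [AddSubgroup.mem_comap]
      rw [hCm _ c1, hCm _ c2, hCm _ c3]
      exact ⟨h1, h2, h3, h4, h5, ⟨_, h6, by rw [map_sub]⟩⟩
    r2 := by
      intro x hx
      obtain ⟨hD, c1, c2, c3, c4, c5, c6, c7⟩ := hP (σ x) hx
      obtain ⟨h1, h2, h3, h4, h5, h6, h7⟩ := L.r2 (σ x) hD
      simp only [AddSubgroup.mem_comap]
      rw [hCm _ c1, hCm _ c4, hCm _ c5, hCm _ c6]
      exact ⟨h1, h2, h3, h4, h5, h6, ⟨_, h7, by rw [map_sub]⟩⟩
    r3 := by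
      intro x hx
      obtain ⟨hD, c1, c2, c3, c4, c5, c6, c7⟩ := hP (σ x) hx
      obtain ⟨h1, h2, h3⟩ := L.r3 (σ x) hD
      simp only [AddSubgroup.mem_comap]
      rw [hCm _ c7]
      exact ⟨h1, h2, ⟨_, h3, by rw [map_add, map_add, hσ]⟩⟩ }⟩

end Push

end Helper78MF
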