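import Mathlib
import Pool.Agent.helper78.MF.Dz

set_option autoImplicit false

/-!
# MP_141f81, Section 9: `StmtPre` (the big sections are the new sections)

`P` = popular rows for the colours of the roles `a, Θ, ζ, g, s, φ` and the noises of the five labels;
`W` = the subgroup generated by the differences of the values of role `a` of the rows in `P`.
-/

namespace Helper78MF.Dz

open Finset Helper34MF
open Pool.Agent.MF.LemT (nr kr Lab nr_add nr_pos nr_mul_left nr_mul_right)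
open Pool.Agent.helper63.MF
open Pool.Agent.helper35.MF (Ball)
open Pool.Agent.helper20.MF (Op)

section

variable {U : Type} [AddCommGroup U] [Finite U]

/-- the rule of a label for an even word of two letters -/
theorem label_pair (two : ∀ u : U, u + u = 0) {C : ℕ} {f h lx ly a a' b b' : AddMonoid.End U}
    (e1 : nr (lx + (a + a')) ≤ C ^ 3) (e2 : nr (ly + (b + b')) ≤ C ^ 3)
    (r1 : nr (f * a + b * h) ≤ C) (r2 : nr (f * a' + b' * h) ≤ C) : nr (f * lx + ly * h) ≤ C ^ 8 := by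
  have e : f * lx + ly * h = f * (lx + (a + a')) + (f * a + b * h) + (f * a' + b' * h) + (ly + (b + b')) * h := by
    have e3 : f * (lx + (a + a')) + (f * a + b * h) + (f * a' + b' * h) + (ly + (b + b')) * h =
        f * lx + ly * h + (f * a + f * a) + (f * a' + f * a') + (b * h + b * h) + (b' * h + b' * h) := by
      simp only [mul_add, add_mul]
      abel
    rw [e3]
    simp only [Pool.Agent.MF.LemT.add_self two, add_zero]
  rw [e]
  calc _ ≤ C ^ 3 * C * C * C ^ 3 := by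
        refine (nr_add _ _).trans (Nat.mul_le_mul ?_ ((nr_mul_right _ _).trans e2))
        refine (nr_add _ _).trans (Nat.mul_le_mul ?_ r2)
        refine (nr_add _ _).trans (Nat.mul_le_mul ?_ r1)
        exact (nr_mul_left _ _).trans e1
    _ = C ^ 8 := by ring

/-- the rule of a label on `W` -/
theorem label_W {K K1 : ℕ} (hK1 : ∀ (U : Type) [AddCommGroup U] [Finite U], (∀ u : U, u + u = 0) →
    ∀ (f : U → AddMonoid.End U) (ι : Type) (p : ι → U) (P : Set ι) (W' : AddSubgroup U),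
    diffs p P ⊆ W' → (∀ u ∈ W', u ∈ Ball (diffs p P) K) → nr (f 0) ≤ K →
    (∀ u ∈ W', ∀ v ∈ W', nr (f (u + v) + (f u + f v)) ≤ K) →
    (∀ z ∈ P, ∀ z' ∈ P, nr (f (p z + p z')) ≤ K) → ∀ u ∈ W', nr (f u) ≤ K1)
    (two : ∀ u : U, u + u = 0) {C : ℕ} (hCK : C * C ≤ K) (L : U → AddMonoid.End U)
    (add : ∀ u v, nr (L (u + v) + (L u + L v)) ≤ C) (f h : AddMonoid.End U) {Λ : Type} (p : Λ → U) (P : Set Λ)
    (W : AddSubgroup U) (hP : diffs p P ⊆ W) (hball : ∀ u ∈ W, u ∈ Ball (diffs p P) K)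
    (hp : ∀ z ∈ P, ∀ z' ∈ P, nr (f * L (p z + p z') + L (f (p z + p z')) * h) ≤ K) :
    ∀ u ∈ W, nr (f * L u + L (f u) * h) ≤ K1 := by
  have hL0 : nr (L 0) ≤ C := by
    have h1 := add 0 0
    rwa [add_zero, Pool.Agent.MF.LemT.add_self two, add_zero] at h1
  refine hK1 U two (fun u => f * L u + L (f u) * h) Λ p P W hP hball ?_ ?_ hp
  · show nr (f * L 0 + L (f 0) * h) ≤ _
    rw [map_zero]
    exact ((nr_add _ _).trans (Nat.mul_le_mul ((nr_mul_left _ _).trans hL0)
      ((nr_mul_right _ _).trans hL0))).trans hCK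
  · intro u _ v _
    show nr (f * L (u + v) + L (f (u + v)) * h + (f * L u + L (f u) * h + (f * L v + L (f v) * h))) ≤ _
    have e : f * L (u + v) + L (f (u + v)) * h + (f * L u + L (f u) * h + (f * L v + L (f v) * h)) =
        f * (L (u + v) + (L u + L v)) + (L (f u + f v) + (L (f u) + L (f v))) * h := by
      rw [map_add f u v]
      simp only [mul_add, add_mul]
      abel
    rw [e]
    exact ((nr_add _ _).trans (Nat.mul_le_mul ((nr_mul_left _ _).trans (add _ _))
      ((nr_mul_right _ _).trans (add _ _)))).trans hCK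

/-- the colour and the noise of one label -/
theorem label_class (two : ∀ u : U, u + u = 0) {C : ℕ} {L : U → AddMonoid.End U} {VV : Finset (AddMonoid.End U)}
    (hVV : VV.card ≤ C) {Λ : Type} {S : Finset Λ} {p pf : Λ → U} {Af : Λ → AddMonoid.End U}
    (col : Colr C L VV S pf Af) {H : AddSubgroup (U × U)} {f : AddMonoid.End U} (op : Op H f C)
    (mem : ∀ z ∈ S, (p z, pf z) ∈ H) :
    ∃ (c : Λ → AddMonoid.End U × U) (T : Finset (AddMonoid.End U × U)), T.card ≤ C ^ 2 ∧ ∀ z ∈ S, c z ∈ T ∧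
      nr (Af z + (L (pf z) + (c z).1)) ≤ C ∧ f (p z) + pf z = (c z).2 := by
  classical
  choose! ν hν using col
  set I : Finset U := (Set.toFinite {y : U | ((0 : U), y) ∈ H}).toFinset with hI
  have hIcard : I.card ≤ C := by
    rw [hI, ← Set.ncard_eq_toFinset_card]
    exact op.sec.le
  refine ⟨fun z => (ν z, f (p z) + pf z), VV ×ˢ I, ?_, ?_⟩
  · rw [Finset.card_product, pow_two]
    exact Nat.mul_le_mul hVV hIcard
  · intro z hz
    refine ⟨?_, (hν z hz).2, rfl⟩
    rw [Finset.mem_product]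
    refine ⟨(hν z hz).1, ?_⟩
    show f (p z) + pf z ∈ I
    rw [hI, Set.Finite.mem_toFinset]
    have h1 := op.sec.mem (p z) (mem_pr1.mpr ⟨_, mem z hz⟩)
    have h2 := H.add_mem h1 (mem z hz)
    have h3 : ((p z, f (p z)) : U × U) + (p z, pf z) = ((0 : U), f (p z) + pf z) := by
      rw [Prod.mk_add_mk, two]
    show ((0 : U), f (p z) + pf z) ∈ H
    rw [← h3]
    exact h2

/-- two letters of one colour and one noise -/
theorem same_class (two : ∀ u : U, u + u = 0) {C : ℕ} {L : U → AddMonoid.End U}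
    (add : ∀ u v, nr (L (u + v) + (L u + L v)) ≤ C) {f : AddMonoid.End U} {x x' y y' : U} {a a' : AddMonoid.End U}
    {c c' : AddMonoid.End U × U} (hc : c = c') (h1 : nr (a + (L y + c.1)) ≤ C) (h1' : nr (a' + (L y' + c'.1)) ≤ C)
    (h2 : f x + y = c.2) (h2' : f x' + y' = c'.2) :
    nr (L (f (x + x')) + (a + a')) ≤ C ^ 3 := by
  subst hc
  have h3 : f (x + x') = y + y' := by
    rw [map_add]
    have h4 : f x + y = f x' + y' := by rw [h2, h2']
    have h5 : f x = f x' + y' + y := by rw [← h4, add_assoc, two, add_zero]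
    rw [h5]
    have h6 : f x' + y' + y + f x' = (f x' + f x') + (y + y') := by abel
    rw [h6, two, zero_add]
  rw [h3]
  exact two_letters two L add h1 h1'

theorem Lab.mono' {K K' : ℕ} {Θ ζ g s : AddMonoid.End U} (h : Lab K Θ ζ g s) (hK : K ≤ K') : Lab K' Θ ζ g s :=
  ⟨h.two, h.kg.trans hK, h.ks.trans hK, h.gT.trans hK, h.sT.trans hK, h.zT.trans hK, h.zz.trans hK⟩

end

/-- **PRE.** -/
theorem stmtPre : StmtPre := by
  classical
  intro C
  obtain ⟨K1, hK1⟩ := rule_W (C ^ 8 + (3 * (C ^ 11 * C) + 1))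
  obtain ⟨K2, hK2⟩ := dz C
  refine ⟨C ^ 12 + K1 + K2 + 1, by omega, ?_⟩
  intro U Λ _ _ _ _ d hd
  set K := C ^ 12 + K1 + K2 + 1 with hK
  have two := hd.two
  have hC : 1 ≤ C := (nr_pos _).trans_le (hd.add 0 0)
  have pw : ∀ j, j ≤ 12 → C ^ j ≤ K := by
    intro j hj
    have := Nat.pow_le_pow_right hC hj
    omega
  have hCK : C ≤ K := by simpa using pw 1 (by norm_num)
  -- colours and noises
  choose! νa hνa using hd.cola
  obtain ⟨cΘ, TΘ, hTΘ, hcΘ⟩ := label_class two hd.cV hd.colΘ hd.opΘ hd.memΘ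
  obtain ⟨cζ, Tζ, hTζ, hcζ⟩ := label_class two hd.cV hd.colζ hd.opζ hd.memζ
  obtain ⟨cg, Tg, hTg, hcg⟩ := label_class two hd.cV hd.colg hd.opg hd.memg
  obtain ⟨cs, Ts, hTs, hcs⟩ := label_class two hd.cV hd.cols hd.ops hd.mems
  obtain ⟨cφ, Tφ, hTφ, hcφ⟩ := label_class two hd.cV hd.colφ hd.opφ hd.memφ
  obtain ⟨b, -, hb⟩ := popular d.S (fun z => (νa z, cΘ z, cζ z, cg z, cs z, cφ z))
    (d.VV ×ˢ (TΘ ×ˢ (Tζ ×ˢ (Tg ×ˢ (Ts ×ˢ Tφ))))) (by
      intro z hz
      simp only [Finset.mem_product]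
      exact ⟨(hνa z hz).1, (hcΘ z hz).1, (hcζ z hz).1, (hcg z hz).1, (hcs z hz).1, (hcφ z hz).1⟩) hd.ne
  set P : Finset Λ := d.S.filter (fun z => (νa z, cΘ z, cζ z, cg z, cs z, cφ z) = b) with hP
  have hTc : (d.VV ×ˢ (TΘ ×ˢ (Tζ ×ˢ (Tg ×ˢ (Ts ×ˢ Tφ))))).card ≤ C ^ 11 := by
    simp only [Finset.card_product]
    calc d.VV.card * (TΘ.card * (Tζ.card * (Tg.card * (Ts.card * Tφ.card))))
        ≤ C * (C ^ 2 * (C ^ 2 * (C ^ 2 * (C ^ 2 * C ^ 2)))) :=
          Nat.mul_le_mul hd.cV (Nat.mul_le_mul hTΘ (Nat.mul_le_mul hTζ (Nat.mul_le_mul hTg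
            (Nat.mul_le_mul hTs hTφ))))
      _ = C ^ 11 := by ring
  have hPcard : d.S.card ≤ C ^ 11 * P.card := hb.trans (Nat.mul_le_mul_right _ hTc)
  have hPsub : P ⊆ d.S := Finset.filter_subset _ _
  have hdens := hd.densa (C ^ 11) P hPsub hPcard
  have hPne : P.Nonempty := by
    by_contra h
    rw [Finset.not_nonempty_iff_eq_empty] at h
    rw [h, Finset.card_empty, mul_zero] at hPcard
    have := Finset.card_pos.mpr hd.ne
    omega
  have hPv : ∀ z ∈ P, νa z = b.1 ∧ cΘ z = b.2.1 ∧ cζ z = b.2.2.1 ∧ cg z = b.2.2.2.1 ∧ cs z = b.2.2.2.2.1 ∧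
      cφ z = b.2.2.2.2.2 := by
    intro z hz
    have h1 := (Finset.mem_filter.mp hz).2
    rw [← h1]
    exact ⟨rfl, rfl, rfl, rfl, rfl, rfl⟩
  set X : Set U := diffs d.pa (P : Set Λ) with hX
  have himg : (P.image d.pa).card = (d.pa '' (P : Set Λ)).ncard := by
    rw [← Finset.coe_image, Set.ncard_coe_finset]
  have hXcard : Nat.card U ≤ C ^ 11 * C * X.ncard := by
    have h1 := card_diffs d.pa (P : Set Λ) (by simpa using hPne)
    rw [Nat.card_eq_fintype_card]
    refine hdens.trans (Nat.mul_le_mul_left _ ?_)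
    rw [himg]
    exact h1
  have hX0 : (0 : U) ∈ X := by
    obtain ⟨w, hw⟩ := hPne
    exact zero_mem_diffs two d.pa (P := (P : Set Λ)) (z := w) (by simpa using hw)
  have hDi := index_closure_le X hX0 _ hXcard
  have hgen := dense_gen two X hX0 _ hXcard
  set W : AddSubgroup U := AddSubgroup.closure X with hW
  have hball : ∀ u ∈ W, u ∈ Ball (diffs d.pa (P : Set Λ)) (C ^ 8 + (3 * (C ^ 11 * C) + 1)) := by
    intro u hu
    exact Ball.mono' (by omega) (hgen hu)
  have hXcl : diffs d.pa (P : Set Λ) ⊆ W := AddSubgroup.subset_closure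
  have h2le : C * C ≤ C ^ 8 + (3 * (C ^ 11 * C) + 1) := by
    have : C * C ≤ C ^ 8 := by
      calc C * C = C ^ 2 := by ring
        _ ≤ C ^ 8 := Nat.pow_le_pow_right hC (by norm_num)
    omega
  -- even words of two letters
  have ea : ∀ z ∈ P, ∀ z' ∈ P, nr (d.L (d.pa z + d.pa z') + (d.Aa z + d.Aa z')) ≤ C ^ 3 := by
    intro z hz z' hz'
    have h1 := (hνa z (hPsub hz)).2
    have h2 := (hνa z' (hPsub hz')).2
    rw [(hPv z hz).1] at h1
    rw [(hPv z' hz').1] at h2
    exact two_letters two d.L hd.add h1 h2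
  have eΘ : ∀ z ∈ P, ∀ z' ∈ P, nr (d.L (d.Θ (d.pa z + d.pa z')) + (d.AΘ z + d.AΘ z')) ≤ C ^ 3 := by
    intro z hz z' hz'
    have h1 := (hcΘ z (hPsub hz)).2
    have h2 := (hcΘ z' (hPsub hz')).2
    exact same_class two hd.add ((hPv z hz).2.1.trans (hPv z' hz').2.1.symm) h1.1 h2.1 h1.2 h2.2
  have eζ : ∀ z ∈ P, ∀ z' ∈ P, nr (d.L (d.ζ (d.pa z + d.pa z')) + (d.Aζ z + d.Aζ z')) ≤ C ^ 3 := by
    intro z hz z' hz'
    have h1 := (hcζ z (hPsub hz)).2
    have h2 := (hcζ z' (hPsub hz')).2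
    exact same_class two hd.add ((hPv z hz).2.2.1.trans (hPv z' hz').2.2.1.symm) h1.1 h2.1 h1.2 h2.2
  have eg : ∀ z ∈ P, ∀ z' ∈ P, nr (d.L (d.g (d.pa z + d.pa z')) + (d.Ag z + d.Ag z')) ≤ C ^ 3 := by
    intro z hz z' hz'
    have h1 := (hcg z (hPsub hz)).2
    have h2 := (hcg z' (hPsub hz')).2
    exact same_class two hd.add ((hPv z hz).2.2.2.1.trans (hPv z' hz').2.2.2.1.symm) h1.1 h2.1 h1.2 h2.2
  have es : ∀ z ∈ P, ∀ z' ∈ P, nr (d.L (d.s (d.pa z + d.pa z')) + (d.As z + d.As z')) ≤ C ^ 3 := by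
    intro z hz z' hz'
    have h1 := (hcs z (hPsub hz)).2
    have h2 := (hcs z' (hPsub hz')).2
    exact same_class two hd.add ((hPv z hz).2.2.2.2.1.trans (hPv z' hz').2.2.2.2.1.symm) h1.1 h2.1 h1.2 h2.2
  have eφ : ∀ z ∈ P, ∀ z' ∈ P, nr (d.L (d.φ (d.pa z + d.pa z')) + (d.Aφ z + d.Aφ z')) ≤ C ^ 3 := by
    intro z hz z' hz'
    have h1 := (hcφ z (hPsub hz)).2
    have h2 := (hcφ z' (hPsub hz')).2
    exact same_class two hd.add ((hPv z hz).2.2.2.2.2.trans (hPv z' hz').2.2.2.2.2.symm) h1.1 h2.1 h1.2 h2.2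
  -- rules on `W`
  have rW : ∀ (f h : AddMonoid.End U) (A B : Λ → AddMonoid.End U),
      (∀ z ∈ P, ∀ z' ∈ P, nr (d.L (d.pa z + d.pa z') + (A z + A z')) ≤ C ^ 3) →
      (∀ z ∈ P, ∀ z' ∈ P, nr (d.L (f (d.pa z + d.pa z')) + (B z + B z')) ≤ C ^ 3) →
      (∀ z ∈ P, nr (f * A z + B z * h) ≤ C) → ∀ u ∈ W, nr (f * d.L u + d.L (f u) * h) ≤ K := by
    intro f h A B h1 h2 h3 u hu
    refine (label_W hK1 two h2le d.L hd.add f h d.pa (P : Set Λ) W hXcl hball ?_ u hu).trans (by omega)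
    intro z hz z' hz'
    have hz1 : z ∈ P := by simpa using hz
    have hz2 : z' ∈ P := by simpa using hz'
    exact (label_pair two (h1 z hz1 z' hz2) (h2 z hz1 z' hz2) (h3 z hz1) (h3 z' hz2)).trans (Nat.le_add_right _ _)
  have rW1 : ∀ (f : AddMonoid.End U) (A B : Λ → AddMonoid.End U),
      (∀ z ∈ P, ∀ z' ∈ P, nr (d.L (d.pa z + d.pa z') + (A z + A z')) ≤ C ^ 3) →
      (∀ z ∈ P, ∀ z' ∈ P, nr (d.L (f (d.pa z + d.pa z')) + (B z + B z')) ≤ C ^ 3) →
      (∀ z ∈ P, nr (f * A z + B z) ≤ C) → ∀ u ∈ W, nr (f * d.L u + d.L (f u)) ≤ K := by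
    intro f A B h1 h2 h3 u hu
    have := rW f 1 A B h1 h2 (fun z hz => by rw [mul_one]; exact h3 z hz) u hu
    rwa [mul_one] at this
  have hΘW := rW1 d.Θ d.Aa d.AΘ ea eΘ (fun z hz => hd.lΘ z (hPsub hz))
  have hζW := rW1 d.ζ d.Aa d.Aζ ea eζ (fun z hz => hd.lζ z (hPsub hz))
  have hgW := rW d.g d.g d.Aa d.Ag ea eg (fun z hz => hd.rg z (hPsub hz))
  have hsW := rW d.s d.s d.Aa d.As ea es (fun z hz => hd.rs z (hPsub hz))
  have hφW := rW d.φ d.φ d.Aa d.Aφ ea eφ (fun z hz => hd.rφ z (hPsub hz))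
  have nself : ∀ f : AddMonoid.End U, nr (f + f) ≤ K := by
    intro f
    rw [Pool.Agent.MF.LemT.add_self two, Pool.Agent.MF.LemT.nr_zero]
    omega
  refine ⟨P, W, d.Θ, d.ζ, d.g, d.s, d.φ, ?_⟩
  exact
    { sub := hPsub
      card := hPcard.trans (Nat.mul_le_mul_right _ (pw 11 (by norm_num)))
      letters :=
        { lab := Lab.mono' hd.lab hCK
          kT := hd.opΘ.ker.trans hCK
          add := fun u v => (hd.add u v).trans hCK
          W_index := by
            refine hDi.trans ?_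
            have : C ^ 11 * C = C ^ 12 := by ring
            rw [this]
            exact pw 12 le_rfl
          rule := hΘW
          AA := by
            rintro ⟨z, hz⟩ ⟨z', hz'⟩
            show nr (d.Aa z + d.Aa z' + d.L (d.pa z + d.pa z')) ≤ K
            rw [add_comm]
            exact (ea z hz z' hz').trans (pw 3 (by norm_num))
          AT := by
            rintro ⟨z, hz⟩
            show nr (d.Aa z * d.Θ + d.Θ * d.Aa z) ≤ K
            have h1 := hd.rΘ z (hPsub hz)
            have h2 := hd.lΘ z (hPsub hz)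
            rw [add_comm] at h2
            refine (Pool.Agent.MF.LemT.tr two h1 h2).trans ?_
            have : C * C = C ^ 2 := by ring
            rw [this]
            exact pw 2 (by norm_num)
          D := by
            rintro ⟨z, hz⟩
            obtain ⟨D, f, hD, hv⟩ := hK2 U Λ d hd z (hPsub hz)
            exact ⟨D, hD.trans (by omega), fun w hw => (hv w hw).2.trans (by omega)⟩
          sq := by
            rintro ⟨z, hz⟩ ⟨z', hz'⟩
            show nr (d.L (d.φ (d.pa z + d.pa z')) + (d.Aa z * d.Aa z + d.Aa z' * d.Aa z')) ≤ K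
            have h1 := eφ z hz z' hz'
            have h2 := hd.sq z (hPsub hz)
            have h3 := hd.sq z' (hPsub hz')
            have e : d.L (d.φ (d.pa z + d.pa z')) + (d.Aa z * d.Aa z + d.Aa z' * d.Aa z') =
                (d.L (d.φ (d.pa z + d.pa z')) + (d.Aφ z + d.Aφ z')) + (d.Aa z * d.Aa z + d.Aφ z) +
                  (d.Aa z' * d.Aa z' + d.Aφ z') := by
              have e3 : (d.L (d.φ (d.pa z + d.pa z')) + (d.Aφ z + d.Aφ z')) + (d.Aa z * d.Aa z + d.Aφ z) +
                  (d.Aa z' * d.Aa z' + d.Aφ z') =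
                  d.L (d.φ (d.pa z + d.pa z')) + (d.Aa z * d.Aa z + d.Aa z' * d.Aa z') +
                    (d.Aφ z + d.Aφ z) + (d.Aφ z' + d.Aφ z') := by abel
              rw [e3]
              simp only [Pool.Agent.MF.LemT.add_self two, add_zero]
            rw [e]
            calc _ ≤ C ^ 3 * C * C := (nr_add _ _).trans (Nat.mul_le_mul
                  ((nr_add _ _).trans (Nat.mul_le_mul h1 h2)) h3)
              _ = C ^ 5 := by ring
              _ ≤ K := pw 5 (by norm_num)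
          dense := by
            have h1 : Set.range (fun z : {z // z ∈ P} => d.pa z.1) = d.pa '' (P : Set Λ) := by
              ext x
              constructor
              · rintro ⟨⟨z, hz⟩, rfl⟩
                exact ⟨z, by simpa using hz, rfl⟩
              · rintro ⟨z, hz, rfl⟩
                exact ⟨⟨z, by simpa using hz⟩, rfl⟩
            rw [h1, ← himg, Nat.card_eq_fintype_card]
            refine hdens.trans (Nat.mul_le_mul_right _ ?_)
            have : C ^ 11 * C = C ^ 12 := by ring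
            rw [this]
            exact pw 12 le_rfl }
      kφ := hd.opφ.ker.trans hCK
      kφ1 := hd.kφ1.trans hCK
      kζ := hd.opζ.ker.trans hCK
      hφ := hφW
      hg := hgW
      hs := hsW
      hΘ := hΘW
      hζ := hζW
      nΘ := nself _
      nζ := nself _
      ng := nself _
      ns := nself _
      nφ := nself _
      fφ := by
        refine ⟨{b.2.2.2.2.2.2}, ?_, ?_⟩
        · rw [Finset.card_singleton]
          omega
        · intro z hz
          rw [Finset.mem_singleton, (hcφ z (hPsub hz)).2.2, (hPv z hz).2.2.2.2.2]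
      dom := by
        intro z hz
        obtain ⟨D, f, hD, hv⟩ := hK2 U Λ d hd z (hPsub hz)
        exact ⟨D, f, hD.trans (by omega), fun w hw => (hv w hw).1.trans (by omega)⟩ }

end Helper78MF.Dz
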